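import Mathlib

set_option autoImplicit false

open scoped ENNReal NNReal InnerProductSpace Topology
open Filter

namespace Pool.Agent.Helper86.NC

/-- the exponent `4/3` -/
noncomputable def p43 : ℝ≥0∞ := ENNReal.ofReal (4 / 3)

instance fact_p43 : Fact ((1 : ℝ≥0∞) ≤ p43) := ⟨by
  unfold p43; rw [← ENNReal.ofReal_one]; exact ENNReal.ofReal_le_ofReal (by norm_num)⟩

theorem p43_toReal : p43.toReal = 4 / 3 := by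
  unfold p43; rw [ENNReal.toReal_ofReal (by norm_num)]

theorem p43_ne_top : p43 ≠ ∞ := by
  unfold p43; exact ENNReal.ofReal_ne_top

/-- The block space: `R` copies of `Y`. -/
abbrev Blk (Y : Type) (R : ℕ) : Type := PiLp p43 (fun _ : Fin R => Y)

/-- The base data on the space `Y`. -/
structure Base {Y : Type} [NormedAddCommGroup Y] [NormedSpace ℂ Y] (C : Set Y) (u : Y)
    (τ : Y →L[ℂ] ℂ) (C0 : ℝ) (L : ℕ) (ε : ℝ) (m : ℕ) (σ : Y ≃ₗᵢ[ℂ] Y) (B : Y →L[ℂ] Y) (v : Y)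
    (h : ℕ → (Y →L[ℂ] ℂ)) (κ : ℝ) : Prop where
  hm : L + 2 ≤ m
  sm : ∀ y, σ^[m] y = y
  sC : ∀ y ∈ C, σ y ∈ C
  su : σ u = u
  ts : ∀ y, τ (σ y) = τ y
  Bu : B u = 0
  tB : ∀ y, τ (B y) = 0
  Bs : ∀ y, B (σ y) = σ (B y)
  Bn : ‖B‖ ≤ C0
  np : ∀ g ∈ C, B g + ((ε * ‖g‖ : ℝ) : ℂ) • u ∈ C
  av : ∀ Z : ℂ, ‖Z‖ ≤ 1 → ∀ y, ‖∑ a ∈ Finset.range m, Z ^ a • (σ^[a] (B y))‖ ≤ m / 16 * ‖y‖
  nil : B ^ L = 0
  h1 : ∀ a < m, ∀ b, ∀ k < L - 1, h a (σ^[b] ((B ^ k) v)) = 0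
  h2 : ∀ a < m, ∀ b, h a (σ^[b] ((B ^ (L - 1)) v)) = if b % m = a then (κ : ℂ) else 0
  hk : (15 / 16 : ℝ) ^ L ≤ κ
  hW : ∀ W ⊆ Finset.range m, ‖∑ a ∈ W, h a‖ ≤ C0 * W.card
  vn : ‖v‖ ≤ C0

/-- closed convex cone -/
structure Cone {Y : Type} [NormedAddCommGroup Y] [NormedSpace ℂ Y] (C : Set Y) (u : Y) : Prop where
  closed : IsClosed C
  zero : (0 : Y) ∈ C
  add : ∀ x ∈ C, ∀ y ∈ C, x + y ∈ C
  smul : ∀ x ∈ C, ∀ r : ℝ, 0 ≤ r → (r : ℂ) • x ∈ C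
  unit : u ∈ C
  norm_unit : ‖u‖ ≤ 1

end Pool.Agent.Helper86.NC
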