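import Mathlib
import Pool.Agent.Helper86.NC.BlockDefs

set_option autoImplicit false

open scoped ENNReal NNReal InnerProductSpace Topology

open Filter

namespace Pool.Agent.Helper86.NC

section fibre

variable {Y : Type} [NormedAddCommGroup Y] [NormedSpace ℂ Y]

end fibre

section resolvent

variable {X : Type} [NormedAddCommGroup X] [NormedSpace ℂ X] [CompleteSpace X]

theorem exp_norm_aux (x : X →L[ℂ] X) : ‖NormedSpace.exp x‖ ≤ Real.exp ‖x‖ := by
  have h1 : HasSum (fun n : ℕ => ((n.factorial : ℂ)⁻¹) • x ^ n) (NormedSpace.exp x) :=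
    NormedSpace.exp_series_hasSum_exp' (𝕂 := ℂ) x
  have h2 : HasSum (fun n : ℕ => ‖x‖ ^ n / (n.factorial : ℝ)) (Real.exp ‖x‖) := by
    rw [Real.exp_eq_exp_ℝ]
    exact NormedSpace.expSeries_div_hasSum_exp ‖x‖
  rw [← h1.tsum_eq]
  refine tsum_of_norm_bounded h2 ?_
  intro n
  rw [norm_smul, norm_inv, Complex.norm_natCast, div_eq_inv_mul]
  refine mul_le_mul_of_nonneg_left ?_ (by positivity)
  rcases Nat.eq_zero_or_pos n with hn | hn
  · subst hn
    simp only [pow_zero]
    exact ContinuousLinearMap.norm_id_le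
  · exact norm_pow_le' x hn

theorem exp_apply_aux (x : X →L[ℂ] X) (g : X) :
    HasSum (fun n : ℕ => ((n.factorial : ℂ)⁻¹) • (x ^ n) g) (NormedSpace.exp x g) := by
  have h1 : HasSum (fun n : ℕ => ((n.factorial : ℂ)⁻¹) • x ^ n) (NormedSpace.exp x) :=
    NormedSpace.exp_series_hasSum_exp' (𝕂 := ℂ) x
  have h2 := h1.mapL (ContinuousLinearMap.apply ℂ X g)
  simpa using h2

theorem exp_A (S b : X →L[ℂ] X) (N : ℕ) (hcomm : S * b = b * S) (t : ℝ) :
    NormedSpace.exp ((t : ℂ) • ((N : ℂ) • (S - 1) + b - 1)) =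
      ((Real.exp (-(t * (1 + N))) : ℝ) : ℂ) •
        (NormedSpace.exp (((t * N : ℝ) : ℂ) • S) * NormedSpace.exp ((t : ℂ) • b)) := by
  let _ : NormedAlgebra ℚ (X →L[ℂ] X) := NormedAlgebra.restrictScalars ℚ ℂ (X →L[ℂ] X)
  have hCb : Commute S b := hcomm
  have e1 : ((t : ℂ) • ((N : ℂ) • (S - 1) + b - 1)) =
      algebraMap ℂ (X →L[ℂ] X) ((-(t * (1 + N)) : ℝ) : ℂ) +
        (((t * N : ℝ) : ℂ) • S + (t : ℂ) • b) := by
    rw [Algebra.algebraMap_eq_smul_one]
    push_cast
    module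
  rw [e1, NormedSpace.exp_add_of_commute (Algebra.commutes _ _),
    NormedSpace.exp_add_of_commute ((hCb.smul_left _).smul_right _),
    ← NormedSpace.algebraMap_exp_comm, Algebra.algebraMap_eq_smul_one, smul_mul_assoc, one_mul]
  congr 1
  rw [← Complex.exp_eq_exp_ℂ, Complex.ofReal_exp]

theorem exp_A_norm (S b : X →L[ℂ] X) (N : ℕ) (hcomm : S * b = b * S) (hS : ‖S‖ ≤ 1) (c : ℝ)
    (hc : ‖b‖ ≤ c) (t : ℝ) (ht : 0 ≤ t) :
    ‖NormedSpace.exp ((t : ℂ) • ((N : ℂ) • (S - 1) + b - 1))‖ ≤ Real.exp (c * t) := by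
  rw [exp_A S b N hcomm t, norm_smul, Complex.norm_real, Real.norm_eq_abs,
    abs_of_pos (Real.exp_pos _)]
  have h1 : ‖NormedSpace.exp (((t * N : ℝ) : ℂ) • S)‖ ≤ Real.exp (t * N) := by
    refine (exp_norm_aux _).trans (Real.exp_le_exp.2 ?_)
    rw [norm_smul, Complex.norm_real, Real.norm_eq_abs, abs_of_nonneg (by positivity)]
    exact mul_le_of_le_one_right (by positivity) hS
  have h2 : ‖NormedSpace.exp ((t : ℂ) • b)‖ ≤ Real.exp (t * c) := by
    refine (exp_norm_aux _).trans (Real.exp_le_exp.2 ?_)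
    rw [norm_smul, Complex.norm_real, Real.norm_eq_abs, abs_of_nonneg ht]
    exact mul_le_mul_of_nonneg_left hc ht
  calc Real.exp (-(t * (1 + N))) *
        ‖NormedSpace.exp (((t * N : ℝ) : ℂ) • S) * NormedSpace.exp ((t : ℂ) • b)‖
      ≤ Real.exp (-(t * (1 + N))) * (Real.exp (t * N) * Real.exp (t * c)) := by
        refine mul_le_mul_of_nonneg_left ((norm_mul_le _ _).trans ?_) (Real.exp_pos _).le
        exact mul_le_mul h1 h2 (norm_nonneg _) (Real.exp_pos _).le
    _ = Real.exp (t * c - t) := by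
        rw [← Real.exp_add, ← Real.exp_add]
        congr 1
        ring
    _ ≤ Real.exp (c * t) := Real.exp_le_exp.2 (by nlinarith)

/-- near positivity of the block semigroup -/
theorem near_pos (K : Set X) (hKc : IsClosed K) (hK0 : (0 : X) ∈ K)
    (hKa : ∀ x ∈ K, ∀ y ∈ K, x + y ∈ K) (hKs : ∀ x ∈ K, ∀ r : ℝ, 0 ≤ r → (r : ℂ) • x ∈ K)
    (S b : X →L[ℂ] X) (N : ℕ) (hcomm : S * b = b * S) (u : X) (hu : u ∈ K)
    (hSK : ∀ x ∈ K, S x ∈ K) (hSu : S u = u) (hbu : b u = 0) (L : ℕ) (hbL : b ^ L = 0)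
    (c : ℝ) (hc1 : 1 ≤ c) (hc : ‖b‖ ≤ c) (η : ℝ) (hη : 0 ≤ η) (hηu : η * ‖u‖ ≤ 1)
    (hnp : ∀ g ∈ K, b g + ((η * ‖g‖ : ℝ) : ℂ) • u ∈ K)
    (g : X) (hg : g ∈ K) (t : ℝ) (ht : 0 ≤ t) :
    NormedSpace.exp ((t : ℂ) • ((N : ℂ) • (S - 1) + b - 1)) g +
      ((η * (2 * (c + 1)) ^ L * ‖g‖ * Real.exp (-t / 2) : ℝ) : ℂ) • u ∈ K := by
  classical
  -- the auxiliary sequence
  obtain ⟨G, G0, Gs⟩ : ∃ G : ℕ → X, G 0 = g ∧
      ∀ k, G (k + 1) = b (G k) + ((η * ‖G k‖ : ℝ) : ℂ) • u :=
    ⟨fun k => Nat.rec g (fun _ y => b y + ((η * ‖y‖ : ℝ) : ℂ) • u) k, rfl, fun _ => rfl⟩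
  have hGK : ∀ k, G k ∈ K := by
    intro k
    induction k with
    | zero => rw [G0]; exact hg
    | succ k ih => rw [Gs]; exact hnp _ ih
  have hGn : ∀ k, ‖G k‖ ≤ (c + 1) ^ k * ‖g‖ := by
    intro k
    induction k with
    | zero => simp [G0]
    | succ k ih =>
      rw [Gs]
      have h1 : ‖b (G k)‖ ≤ c * ‖G k‖ :=
        (b.le_opNorm _).trans (mul_le_mul_of_nonneg_right hc (norm_nonneg _))
      have h2 : ‖((η * ‖G k‖ : ℝ) : ℂ) • u‖ ≤ ‖G k‖ := by
        rw [norm_smul, Complex.norm_real, Real.norm_eq_abs, abs_of_nonneg (by positivity)]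
        nlinarith [norm_nonneg (G k)]
      calc ‖b (G k) + ((η * ‖G k‖ : ℝ) : ℂ) • u‖ ≤ c * ‖G k‖ + ‖G k‖ :=
            (norm_add_le _ _).trans (add_le_add h1 h2)
        _ = (c + 1) * ‖G k‖ := by ring
        _ ≤ (c + 1) * ((c + 1) ^ k * ‖g‖) := mul_le_mul_of_nonneg_left ih (by linarith)
        _ = (c + 1) ^ (k + 1) * ‖g‖ := by ring
  have hbG : ∀ k, b (G k) = (b ^ (k + 1)) g := by
    intro k
    induction k with
    | zero => simp [G0]
    | succ k ih =>
      rw [Gs, map_add, map_smul, hbu, smul_zero, add_zero, ih, pow_succ' b (k + 1)]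
      rfl
  -- coefficient sequence
  obtain ⟨C, C0, Cs⟩ : ∃ C : ℕ → ℝ, C 0 = 0 ∧ ∀ k, C (k + 1) = η * ‖G k‖ :=
    ⟨fun k => Nat.casesOn k (0 : ℝ) (fun j => η * ‖G j‖), rfl, fun _ => rfl⟩
  have hCn : ∀ k, 0 ≤ C k := by
    intro k
    cases k with
    | zero => exact C0.ge
    | succ k => rw [Cs]; positivity
  have hK1 : ∀ k, (b ^ k) g + ((C k : ℝ) : ℂ) • u ∈ K := by
    intro k
    cases k with
    | zero => simpa [C0] using hg
    | succ k =>
      rw [Cs, ← hbG, ← Gs]
      exact hGK _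
  have hsum : ∀ (s : Finset ℕ) (F : ℕ → X), (∀ k ∈ s, F k ∈ K) → ∑ k ∈ s, F k ∈ K := by
    intro s F
    induction s using Finset.induction_on with
    | empty => intro _; simpa using hK0
    | insert a s ha ih =>
      intro h
      rw [Finset.sum_insert ha]
      exact hKa _ (h a (Finset.mem_insert_self _ _)) _
        (ih fun k hk => h k (Finset.mem_insert_of_mem hk))
  -- exp (t b) g is a finite sum
  have hfin : NormedSpace.exp ((t : ℂ) • b) g =
      ∑ k ∈ Finset.range L, ((t ^ k / k.factorial : ℝ) : ℂ) • (b ^ k) g := by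
    have h1 := exp_apply_aux ((t : ℂ) • b) g
    have h2 : HasSum (fun n : ℕ => ((n.factorial : ℂ)⁻¹) • (((t : ℂ) • b) ^ n) g)
        (∑ k ∈ Finset.range L, ((k.factorial : ℂ)⁻¹) • (((t : ℂ) • b) ^ k) g) := by
      refine hasSum_sum_of_ne_finset_zero ?_
      intro k hk
      have hk' : L ≤ k := by simpa using hk
      have : b ^ k = 0 := by
        rw [← Nat.sub_add_cancel hk', pow_add, hbL, mul_zero]
      rw [smul_pow, this]
      simp
    rw [h1.unique h2]
    refine Finset.sum_congr rfl fun k _ => ?_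
    rw [smul_pow, smul_apply, smul_smul]
    congr 1
    push_cast
    rw [div_eq_inv_mul]
  set D : ℝ := ∑ k ∈ Finset.range L, t ^ k / k.factorial * C k with hD
  have hK2 : NormedSpace.exp ((t : ℂ) • b) g + ((D : ℝ) : ℂ) • u ∈ K := by
    have h1 : NormedSpace.exp ((t : ℂ) • b) g + ((D : ℝ) : ℂ) • u =
        ∑ k ∈ Finset.range L, ((t ^ k / k.factorial : ℝ) : ℂ) •
          ((b ^ k) g + ((C k : ℝ) : ℂ) • u) := by
      rw [hfin, hD]
      rw [Complex.ofReal_sum, Finset.sum_smul, ← Finset.sum_add_distrib]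
      refine Finset.sum_congr rfl fun k _ => ?_
      rw [smul_add, smul_smul, Complex.ofReal_mul]
    rw [h1]
    exact hsum _ _ fun k _ => hKs _ (hK1 k) _ (by positivity)
  -- exp (t N S) preserves K
  have hSpow : ∀ n : ℕ, ∀ x ∈ K, (S ^ n) x ∈ K := by
    intro n
    induction n with
    | zero => intro x hx; simpa using hx
    | succ n ih =>
      intro x hx
      rw [pow_succ' S n]
      exact hSK _ (ih x hx)
  have htN : 0 ≤ t * (N : ℝ) := by positivity
  have hK3 : ∀ x ∈ K, NormedSpace.exp (((t * N : ℝ) : ℂ) • S) x ∈ K := by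
    intro x hx
    have h1 := exp_apply_aux (((t * N : ℝ) : ℂ) • S) x
    refine hKc.mem_of_tendsto h1 (Filter.Eventually.of_forall fun s => ?_)
    refine hsum _ _ fun n _ => ?_
    have h2 : ((n.factorial : ℂ)⁻¹) • ((((t * N : ℝ) : ℂ) • S) ^ n) x =
        (((t * N) ^ n / n.factorial : ℝ) : ℂ) • (S ^ n) x := by
      rw [smul_pow, smul_apply, smul_smul]
      congr 1
      push_cast
      rw [div_eq_inv_mul]
    rw [h2]
    exact hKs _ (hSpow n x hx) _ (by positivity)
  have hSupow : ∀ n : ℕ, (S ^ n) u = u := by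
    intro n
    induction n with
    | zero => simp
    | succ n ih =>
      rw [pow_succ' S n]
      change S ((S ^ n) u) = u
      rw [ih, hSu]
  have hSexp : NormedSpace.exp (((t * N : ℝ) : ℂ) • S) u = ((Real.exp (t * N) : ℝ) : ℂ) • u := by
    have h1 := exp_apply_aux (((t * N : ℝ) : ℂ) • S) u
    have h2 : HasSum (fun n : ℕ => (t * N) ^ n / (n.factorial : ℝ)) (Real.exp (t * N)) := by
      rw [Real.exp_eq_exp_ℝ]
      exact NormedSpace.expSeries_div_hasSum_exp (t * (N : ℝ))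
    have h3 : HasSum (fun n : ℕ => (((t * N) ^ n / (n.factorial : ℝ) : ℝ) : ℂ) • u)
        (((Real.exp (t * N) : ℝ) : ℂ) • u) := by
      have h4 := (Complex.hasSum_ofReal).2 h2
      exact h4.smul_const u
    refine h1.unique ?_
    convert h3 using 2 with n
    rw [smul_pow, smul_apply, smul_smul, hSupow]
    congr 1
    push_cast
    rw [div_eq_inv_mul]
  -- assemble
  have hK4 : NormedSpace.exp ((t : ℂ) • ((N : ℂ) • (S - 1) + b - 1)) g +
      ((Real.exp (-t) * D : ℝ) : ℂ) • u ∈ K := by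
    have h1 := hKs _ (hK3 _ hK2) (Real.exp (-(t * (1 + N)))) (Real.exp_pos _).le
    rw [map_add, map_smul, hSexp, smul_add, smul_smul, smul_smul] at h1
    rw [exp_A S b N hcomm t]
    convert h1 using 2
    congr 1
    rw [← Complex.ofReal_mul, ← Complex.ofReal_mul]
    congr 1
    have : Real.exp (-t) = Real.exp (-(t * (1 + N))) * Real.exp (t * N) := by
      rw [← Real.exp_add]
      congr 1
      ring
    rw [this]
    ring
  -- the estimate of D
  have hDle : Real.exp (-t) * D ≤ η * (2 * (c + 1)) ^ L * ‖g‖ * Real.exp (-t / 2) := by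
    have hterm : ∀ k, t ^ k / (k.factorial : ℝ) * C k ≤
        Real.exp (t / 2) * (η * ‖g‖) * (2 * (c + 1)) ^ k := by
      intro k
      cases k with
      | zero =>
        rw [C0]
        have := Real.exp_pos (t / 2)
        have : 0 ≤ Real.exp (t / 2) * (η * ‖g‖) := by positivity
        simpa using this
      | succ k =>
        rw [Cs]
        have h1 : t ^ (k + 1) / ((k + 1).factorial : ℝ) ≤ 2 ^ (k + 1) * Real.exp (t / 2) := by
          have h2 := Real.pow_div_factorial_le_exp (x := t / 2) (by positivity) (k + 1)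
          calc t ^ (k + 1) / ((k + 1).factorial : ℝ)
              = 2 ^ (k + 1) * ((t / 2) ^ (k + 1) / ((k + 1).factorial : ℝ)) := by
                rw [div_pow]
                field_simp
            _ ≤ _ := mul_le_mul_of_nonneg_left h2 (by positivity)
        have h3 : ‖G k‖ ≤ (c + 1) ^ (k + 1) * ‖g‖ := by
          refine (hGn k).trans (mul_le_mul_of_nonneg_right ?_ (norm_nonneg _))
          exact pow_le_pow_right₀ (by linarith) (Nat.le_succ k)
        calc t ^ (k + 1) / ((k + 1).factorial : ℝ) * (η * ‖G k‖)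
            ≤ (2 ^ (k + 1) * Real.exp (t / 2)) * (η * ((c + 1) ^ (k + 1) * ‖g‖)) := by
              refine mul_le_mul h1 (mul_le_mul_of_nonneg_left h3 hη) (by positivity)
                (by positivity)
          _ = _ := by rw [mul_pow]; ring
    have hgeo : ∀ n : ℕ, ∑ k ∈ Finset.range n, (2 * (c + 1)) ^ k ≤ (2 * (c + 1)) ^ n := by
      intro n
      induction n with
      | zero => simp
      | succ n ih =>
        rw [Finset.sum_range_succ]
        have h5 : 0 ≤ (2 * (c + 1)) ^ n := by positivity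
        calc _ ≤ (2 * (c + 1)) ^ n + (2 * (c + 1)) ^ n := by linarith
          _ ≤ (2 * (c + 1)) ^ (n + 1) := by
            rw [pow_succ]
            nlinarith
    have hD2 : D ≤ Real.exp (t / 2) * (η * ‖g‖) * (2 * (c + 1)) ^ L := by
      calc D ≤ ∑ k ∈ Finset.range L, Real.exp (t / 2) * (η * ‖g‖) * (2 * (c + 1)) ^ k :=
            Finset.sum_le_sum fun k _ => hterm k
        _ = Real.exp (t / 2) * (η * ‖g‖) * ∑ k ∈ Finset.range L, (2 * (c + 1)) ^ k := by
            rw [Finset.mul_sum]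
        _ ≤ _ := mul_le_mul_of_nonneg_left (hgeo L) (by positivity)
    calc Real.exp (-t) * D ≤ Real.exp (-t) * (Real.exp (t / 2) * (η * ‖g‖) * (2 * (c + 1)) ^ L) :=
          mul_le_mul_of_nonneg_left hD2 (Real.exp_pos _).le
      _ = (Real.exp (-t) * Real.exp (t / 2)) * ((η * ‖g‖) * (2 * (c + 1)) ^ L) := by ring
      _ = Real.exp (-t / 2) * ((η * ‖g‖) * (2 * (c + 1)) ^ L) := by
          rw [← Real.exp_add]
          congr 2
          ring
      _ = _ := by ring
  have hfinal := hKa _ hK4 _ (hKs u hu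
    (η * (2 * (c + 1)) ^ L * ‖g‖ * Real.exp (-t / 2) - Real.exp (-t) * D) (by linarith))
  convert hfinal using 1
  rw [add_assoc, ← add_smul]
  congr 2
  rw [← Complex.ofReal_add]
  congr 1
  ring

end resolvent

section growth

variable {Y : Type} [NormedAddCommGroup Y] [NormedSpace ℂ Y]

end growth

end Pool.Agent.Helper86.NC
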