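import Mathlib
import Pool.Agent.Helper86.NC.BlockDefs

set_option autoImplicit false

open scoped ENNReal NNReal InnerProductSpace Topology

open Filter

namespace Pool.Agent.Helper86.NC

section fibre

variable {Y : Type} [NormedAddCommGroup Y] [NormedSpace ℂ Y]

theorem blk_norm (R : ℕ) (f : Blk Y R) : ‖f‖ = (∑ r, ‖f r‖ ^ (4 / 3 : ℝ)) ^ (3 / 4 : ℝ) := by
  have h := PiLp.norm_eq_sum (p := p43) (by rw [p43_toReal]; norm_num) f
  rw [p43_toReal] at h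
  rw [h]
  norm_num

/-- the average of the fibre norms is controlled by the block norm -/
theorem blk_avg (R : ℕ) (hR : 1 ≤ R) (f : Blk Y R) :
    (R : ℝ)⁻¹ * ∑ r, ‖f r‖ ≤ (R : ℝ) ^ (-(3 / 4) : ℝ) * ‖f‖ := by
  have hR0 : (0 : ℝ) < R := by exact_mod_cast hR
  have hS0 : 0 ≤ ∑ r, ‖f r‖ := Finset.sum_nonneg fun r _ => norm_nonneg _
  have hT0 : 0 ≤ ∑ r, ‖f r‖ ^ (4 / 3 : ℝ) :=
    Finset.sum_nonneg fun r _ => Real.rpow_nonneg (norm_nonneg _) _
  have h1 := Real.rpow_sum_le_const_mul_sum_rpow (Finset.univ : Finset (Fin R))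
    (fun r => ‖f r‖) (p := (4 / 3 : ℝ)) (by norm_num)
  simp only [abs_norm, Finset.card_univ, Fintype.card_fin] at h1
  have h2 : ∑ r, ‖f r‖ ≤ (R : ℝ) ^ (1 / 4 : ℝ) * (∑ r, ‖f r‖ ^ (4 / 3 : ℝ)) ^ (3 / 4 : ℝ) := by
    have h3 := Real.rpow_le_rpow (Real.rpow_nonneg hS0 _) h1 (show (0 : ℝ) ≤ 3 / 4 by norm_num)
    rw [← Real.rpow_mul hS0, Real.mul_rpow (Real.rpow_nonneg hR0.le _) hT0,
      ← Real.rpow_mul hR0.le] at h3
    norm_num at h3
    norm_num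
    exact h3
  rw [blk_norm]
  have h4 : (R : ℝ) ^ (-(3 / 4) : ℝ) = (R : ℝ)⁻¹ * (R : ℝ) ^ (1 / 4 : ℝ) := by
    rw [← Real.rpow_neg_one, ← Real.rpow_add hR0]
    norm_num
  rw [h4, mul_assoc]
  exact mul_le_mul_of_nonneg_left h2 (inv_nonneg.mpr hR0.le)

theorem blk_const (R : ℕ) (y : Y) :
    ‖(WithLp.toLp p43 (fun _ : Fin R => y) : Blk Y R)‖ = (R : ℝ) ^ (3 / 4 : ℝ) * ‖y‖ := by
  rw [blk_norm]
  simp only [Finset.sum_const, Finset.card_univ, Fintype.card_fin, nsmul_eq_mul]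
  rw [Real.mul_rpow (Nat.cast_nonneg _) (Real.rpow_nonneg (norm_nonneg _) _),
    ← Real.rpow_mul (norm_nonneg _)]
  norm_num

/-- fibrewise action of an operator -/
theorem exists_fib (R : ℕ) (B : Y →L[ℂ] Y) (c : ℝ) (hc : 0 ≤ c) (hB : ∀ y, ‖B y‖ ≤ c * ‖y‖) :
    ∃ F : Blk Y R →L[ℂ] Blk Y R, ‖F‖ ≤ c ∧ ∀ (f : Blk Y R) (r : Fin R), (F f) r = B (f r) := by
  let L : Blk Y R →ₗ[ℂ] Blk Y R :=
    { toFun := fun f => WithLp.toLp p43 (fun r => B (f r))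
      map_add' := by
        intro f g
        ext r
        simp
      map_smul' := by
        intro a f
        ext r
        simp }
  have hL : ∀ f : Blk Y R, ‖L f‖ ≤ c * ‖f‖ := by
    intro f
    rw [blk_norm, blk_norm]
    have hT0 : 0 ≤ ∑ r, ‖f r‖ ^ (4 / 3 : ℝ) :=
      Finset.sum_nonneg fun r _ => Real.rpow_nonneg (norm_nonneg _) _
    have h1 : ∑ r, ‖(L f) r‖ ^ (4 / 3 : ℝ) ≤ c ^ (4 / 3 : ℝ) * ∑ r, ‖f r‖ ^ (4 / 3 : ℝ) := by
      rw [Finset.mul_sum]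
      refine Finset.sum_le_sum fun r _ => ?_
      rw [← Real.mul_rpow hc (norm_nonneg _)]
      exact Real.rpow_le_rpow (norm_nonneg _) (hB (f r)) (by norm_num)
    have h2 := Real.rpow_le_rpow
      (Finset.sum_nonneg fun r _ => Real.rpow_nonneg (norm_nonneg _) _) h1
      (show (0 : ℝ) ≤ 3 / 4 by norm_num)
    rw [Real.mul_rpow (Real.rpow_nonneg hc _) hT0, ← Real.rpow_mul hc] at h2
    have h3 : (4 / 3 : ℝ) * (3 / 4) = 1 := by norm_num
    rw [h3, Real.rpow_one] at h2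
    exact h2
  refine ⟨L.mkContinuous c hL, LinearMap.mkContinuous_norm_le _ hc _, fun f r => rfl⟩

end fibre

section resolvent

variable {X : Type} [NormedAddCommGroup X] [NormedSpace ℂ X] [CompleteSpace X]

end resolvent

section growth

variable {Y : Type} [NormedAddCommGroup Y] [NormedSpace ℂ Y]

end growth

end Pool.Agent.Helper86.NC
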