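import Mathlib
import Pool.Agent.Helper86.NC.BlockDefs

set_option autoImplicit false

open scoped ENNReal NNReal InnerProductSpace Topology

open Filter

namespace Pool.Agent.Helper86.NC

section fibre

variable {Y : Type} [NormedAddCommGroup Y] [NormedSpace ℂ Y]

end fibre

section resolvent

variable {X : Type} [NormedAddCommGroup X] [NormedSpace ℂ X] [CompleteSpace X]

end resolvent

theorem j2671_h0 (x : ℝ) : HasSum (fun k : ℕ => x ^ k / (k.factorial : ℝ)) (Real.exp x) := by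
  rw [Real.exp_eq_exp_ℝ]
  exact NormedSpace.expSeries_div_hasSum_exp x

theorem j2671_h1 (x : ℝ) :
    HasSum (fun k : ℕ => (k : ℝ) * (x ^ k / (k.factorial : ℝ))) (x * Real.exp x) := by
  have h := (j2671_h0 x).mul_left x
  have h' : HasSum (fun k : ℕ => ((k + 1 : ℕ) : ℝ) * (x ^ (k + 1) / ((k + 1).factorial : ℝ)))
      (x * Real.exp x) := by
    refine h.congr_fun ?_
    intro k
    rw [Nat.factorial_succ]
    push_cast
    have h1 : (k.factorial : ℝ) ≠ 0 := by positivity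
    have h2 : (k : ℝ) + 1 ≠ 0 := by positivity
    field_simp
    ring
  have h3 := (hasSum_nat_add_iff (f := fun k : ℕ => (k : ℝ) * (x ^ k / (k.factorial : ℝ))) 1).1 h'
  simpa using h3

theorem j2671_h2 (x : ℝ) :
    HasSum (fun k : ℕ => (k : ℝ) * ((k : ℝ) - 1) * (x ^ k / (k.factorial : ℝ)))
      (x ^ 2 * Real.exp x) := by
  have h := (j2671_h0 x).mul_left (x ^ 2)
  have h' : HasSum (fun k : ℕ => ((k + 2 : ℕ) : ℝ) * (((k + 2 : ℕ) : ℝ) - 1) *
      (x ^ (k + 2) / ((k + 2).factorial : ℝ))) (x ^ 2 * Real.exp x) := by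
    refine h.congr_fun ?_
    intro k
    rw [Nat.factorial_succ, Nat.factorial_succ]
    push_cast
    have h1 : (k.factorial : ℝ) ≠ 0 := by positivity
    have h2 : (k : ℝ) + 1 ≠ 0 := by positivity
    have h3 : (k : ℝ) + 1 + 1 ≠ 0 := by positivity
    have h4 : (k : ℝ) + 2 - 1 = k + 1 := by ring
    rw [h4]
    field_simp
    ring
  have h3 := (hasSum_nat_add_iff
    (f := fun k : ℕ => (k : ℝ) * ((k : ℝ) - 1) * (x ^ k / (k.factorial : ℝ))) 2).1 h'
  simpa [Finset.sum_range_succ] using h3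

/-- Poisson concentration -/
theorem poisson_conc (x r : ℕ) (h : 2 * x ≤ r ^ 2) :
    Real.exp x / 2 ≤ ∑ k ∈ Finset.Icc (x - r) (x + r), (x : ℝ) ^ k / (k.factorial : ℝ) := by
  set a : ℕ → ℝ := fun k => (x : ℝ) ^ k / (k.factorial : ℝ) with ha
  have ha0 : ∀ k, 0 ≤ a k := fun k => by
    show 0 ≤ (x : ℝ) ^ k / (k.factorial : ℝ)
    positivity
  have h0 := j2671_h0 (x : ℝ)
  have h1 := j2671_h1 (x : ℝ)
  have h2 := j2671_h2 (x : ℝ)
  have h3 : HasSum (fun k : ℕ => ((k : ℝ) - x) ^ 2 * a k) (x * Real.exp x) := by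
    have h4 := (h2.add (h1.mul_left (1 - 2 * (x : ℝ)))).add (h0.mul_left ((x : ℝ) ^ 2))
    have e : (x : ℝ) ^ 2 * Real.exp x + (1 - 2 * (x : ℝ)) * (x * Real.exp x) +
        (x : ℝ) ^ 2 * Real.exp x = x * Real.exp x := by ring
    rw [e] at h4
    refine h4.congr_fun ?_
    intro k
    show ((k : ℝ) - x) ^ 2 * ((x : ℝ) ^ k / (k.factorial : ℝ)) = _
    ring
  obtain ⟨s, hs⟩ : ∃ s, s = Finset.Icc (x - r) (x + r) := ⟨_, rfl⟩
  rw [← hs]
  have h5 : HasSum (fun k => if k ∈ s then a k else 0) (∑ k ∈ s, a k) := by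
    have h6 : ∑ k ∈ s, a k = ∑ k ∈ s, (if k ∈ s then a k else 0) :=
      Finset.sum_congr rfl (fun k hk => by rw [if_pos hk])
    rw [h6]
    apply hasSum_sum_of_ne_finset_zero
    intro k hk
    rw [if_neg hk]
  have h7 := (h0.sub h5).mul_left (((r : ℝ) + 1) ^ 2)
  have h8 := hasSum_le (fun k => ?_) h7 h3
  · have h9 : (2 : ℝ) * x ≤ (r : ℝ) ^ 2 := by exact_mod_cast h
    have hexp := Real.exp_pos (x : ℝ)
    have h10 : ((r : ℝ) + 1) ^ 2 * (Real.exp x - ∑ k ∈ s, a k) ≤ ((r : ℝ) + 1) ^ 2 * (Real.exp x / 2) := by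
      refine h8.trans ?_
      have hr : (0 : ℝ) ≤ r := Nat.cast_nonneg r
      have h11 : (x : ℝ) ≤ ((r : ℝ) + 1) ^ 2 / 2 := by nlinarith
      calc (x : ℝ) * Real.exp x ≤ ((r : ℝ) + 1) ^ 2 / 2 * Real.exp x :=
            mul_le_mul_of_nonneg_right h11 hexp.le
        _ = ((r : ℝ) + 1) ^ 2 * (Real.exp x / 2) := by ring
    have h12 := le_of_mul_le_mul_left h10 (by positivity)
    show Real.exp x / 2 ≤ ∑ k ∈ s, a k
    linarith
  · show ((r : ℝ) + 1) ^ 2 * (a k - if k ∈ s then a k else 0) ≤ ((k : ℝ) - x) ^ 2 * a k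
    by_cases hk : k ∈ s
    · rw [if_pos hk, sub_self, mul_zero]
      exact mul_nonneg (sq_nonneg _) (ha0 k)
    · rw [if_neg hk, sub_zero]
      apply mul_le_mul_of_nonneg_right _ (ha0 k)
      rw [hs, Finset.mem_Icc, not_and_or] at hk
      rcases hk with hk | hk
      · have h13 : k + (r + 1) ≤ x := by omega
        have h14 : (k : ℝ) + (r + 1) ≤ x := by exact_mod_cast h13
        have hr : (0 : ℝ) ≤ r := Nat.cast_nonneg r
        nlinarith
      · have h13 : x + (r + 1) ≤ k := by omega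
        have h14 : (x : ℝ) + (r + 1) ≤ k := by exact_mod_cast h13
        have hr : (0 : ℝ) ≤ r := Nat.cast_nonneg r
        nlinarith

theorem pow_div_factorial (L : ℕ) (hL : 1 ≤ L) :
    (2 : ℝ) ^ (L - 1) ≤ (L : ℝ) ^ (L - 1) / ((L - 1).factorial : ℝ) := by
  obtain ⟨n, rfl⟩ : ∃ n, L = n + 1 := ⟨L - 1, by omega⟩
  rw [Nat.add_sub_cancel]
  clear hL
  induction n with
  | zero => simp
  | succ n ih =>
    have h1 : (2 : ℝ) * ((n : ℝ) + 1) ^ (n + 1) ≤ ((n : ℝ) + 1 + 1) ^ (n + 1) := by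
      have h2 := one_add_mul_le_pow (a := 1 / ((n : ℝ) + 1)) (by
        have : (0 : ℝ) ≤ 1 / ((n : ℝ) + 1) := by positivity
        linarith) (n + 1)
      have h3 : (n : ℝ) + 1 ≠ 0 := by positivity
      have h4 : 1 + ((n + 1 : ℕ) : ℝ) * (1 / ((n : ℝ) + 1)) = 2 := by
        push_cast
        rw [mul_one_div_cancel h3]
        norm_num
      rw [h4] at h2
      have h5 : (n : ℝ) + 1 + 1 = (1 + 1 / ((n : ℝ) + 1)) * ((n : ℝ) + 1) := by
        field_simp
      rw [h5, mul_pow]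
      exact mul_le_mul_of_nonneg_right h2 (by positivity)
    have h6 : (0 : ℝ) < (n.factorial : ℝ) := by positivity
    rw [le_div_iff₀ (by positivity)] at ih ⊢
    rw [Nat.factorial_succ]
    push_cast at ih ⊢
    calc (2 : ℝ) ^ (n + 1) * (((n : ℝ) + 1) * (n.factorial : ℝ))
        = 2 * ((n : ℝ) + 1) * (2 ^ n * (n.factorial : ℝ)) := by ring
      _ ≤ 2 * ((n : ℝ) + 1) * ((n : ℝ) + 1) ^ n := by
          apply mul_le_mul_of_nonneg_left ih (by positivity)
      _ = 2 * ((n : ℝ) + 1) ^ (n + 1) := by ring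
      _ ≤ _ := h1

section growth

variable {Y : Type} [NormedAddCommGroup Y] [NormedSpace ℂ Y]

end growth

end Pool.Agent.Helper86.NC
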