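import Mathlib
import Pool.Agent.Helper86.NC.BlockDefs

set_option autoImplicit false

open scoped ENNReal NNReal InnerProductSpace Topology

open Filter

namespace Pool.Agent.Helper86.NC

section fibre

variable {Y : Type} [NormedAddCommGroup Y] [NormedSpace ℂ Y]

end fibre

section resolvent

variable {X : Type} [NormedAddCommGroup X] [NormedSpace ℂ X] [CompleteSpace X]

theorem resolvent_lemma (S b : X →L[ℂ] X) (N : ℕ) (hN : 1 ≤ N) (hS : ‖S‖ ≤ 1) (hSN : S ^ N = 1)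
    (hcomm : S * b = b * S)
    (hb : ∀ ζ : ℂ, ‖ζ‖ ≤ 1 → ‖(∑ k ∈ Finset.range N, ζ ^ k • S ^ k) * b‖ ≤ N / 4)
    (z : ℂ) (hz : 0 < z.re) :
    ∃ Q : X →L[ℂ] X, Q * (z • 1 - ((N : ℂ) • (S - 1) + b - 1)) = 1 ∧
      (z • 1 - ((N : ℂ) • (S - 1) + b - 1)) * Q = 1 ∧ ‖Q‖ ≤ 2 := by
  have hNr : (1 : ℝ) ≤ N := by exact_mod_cast hN
  set w : ℂ := z + 1 + N with hw
  have hwre : (N : ℝ) + 1 ≤ w.re := by
    rw [hw]
    simp only [Complex.add_re, Complex.one_re, Complex.natCast_re]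
    linarith
  have hwn : (N : ℝ) + 1 ≤ ‖w‖ := le_trans hwre (Complex.re_le_norm w)
  have hw0 : w ≠ 0 := by
    intro h
    rw [h, norm_zero] at hwn
    linarith
  have hwp : 0 < ‖w‖ := norm_pos_iff.mpr hw0
  set ζ : ℂ := N / w with hζ
  have hζn : ‖ζ‖ = N / ‖w‖ := by rw [hζ, norm_div, Complex.norm_natCast]
  have hζle : ‖ζ‖ ≤ N / (N + 1) := by
    rw [hζn]
    exact div_le_div_of_nonneg_left (by linarith) (by linarith) hwn
  have hζ1 : ‖ζ‖ ≤ 1 := by
    refine le_trans hζle ?_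
    rw [div_le_one (by linarith)]
    linarith
  have hζw : w * ζ = N := by rw [hζ]; field_simp
  have hζN : ‖ζ ^ N‖ ≤ 1 / 2 := by
    rw [norm_pow]
    have h1 : ‖ζ‖ ^ N ≤ ((N : ℝ) / (N + 1)) ^ N := pow_le_pow_left₀ (norm_nonneg _) hζle N
    have h2 : (2 : ℝ) ≤ (1 + 1 / (N : ℝ)) ^ N := by
      have h3 := one_add_mul_le_pow (a := 1 / (N : ℝ)) (by
        have : 0 ≤ 1 / (N : ℝ) := by positivity
        linarith) N
      have h4 : (N : ℝ) * (1 / N) = 1 := by field_simp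
      rw [h4] at h3
      linarith
    have h5 : ((N : ℝ) / (N + 1)) ^ N * (1 + 1 / (N : ℝ)) ^ N = 1 := by
      rw [← mul_pow]
      have : (N : ℝ) / (N + 1) * (1 + 1 / (N : ℝ)) = 1 := by field_simp
      rw [this, one_pow]
    have h6 : 0 ≤ ((N : ℝ) / (N + 1)) ^ N := by positivity
    have h7 : ((N : ℝ) / (N + 1)) ^ N ≤ 1 / 2 := by nlinarith
    linarith
  set q : ℂ := 1 - ζ ^ N with hq
  have hqn : 1 / 2 ≤ ‖q‖ := by
    have h1 : ‖(1 : ℂ)‖ - ‖ζ ^ N‖ ≤ ‖q‖ := norm_sub_norm_le _ _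
    rw [norm_one] at h1
    linarith
  have hq0 : q ≠ 0 := by
    intro h
    rw [h, norm_zero] at hqn
    linarith
  set Sg : X →L[ℂ] X := ∑ k ∈ Finset.range N, ζ ^ k • S ^ k with hSg
  have hSg' : Sg = ∑ k ∈ Finset.range N, (ζ • S) ^ k := by
    rw [hSg]
    apply Finset.sum_congr rfl
    intro k _
    rw [smul_pow]
  have hgeo1 : (1 - ζ • S) * Sg = q • 1 := by
    rw [hSg', mul_neg_geom_sum, smul_pow, hSN, hq, sub_smul, one_smul]
  have hgeo2 : Sg * (1 - ζ • S) = q • 1 := by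
    rw [hSg', geom_sum_mul_neg, smul_pow, hSN, hq, sub_smul, one_smul]
  set T : X →L[ℂ] X := w • (1 - ζ • S) with hT
  set G : X →L[ℂ] X := (w * q)⁻¹ • Sg with hG
  have hTG : T * G = 1 := by
    rw [hT, hG, smul_mul_smul_comm, hgeo1, smul_smul]
    have : w * (w * q)⁻¹ * q = 1 := by field_simp
    rw [this, one_smul]
  have hGT : G * T = 1 := by
    rw [hT, hG, smul_mul_smul_comm, hgeo2, smul_smul]
    have : (w * q)⁻¹ * w * q = 1 := by field_simp
    rw [this, one_smul]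
  have hmain : z • 1 - ((N : ℂ) • (S - 1) + b - 1) = T - b := by
    rw [hT, smul_sub w, smul_smul, hζw, hw, add_smul, add_smul, smul_sub, one_smul]
    abel
  have hGb : ‖G * b‖ ≤ 1 / 2 := by
    rw [hG, smul_mul_assoc, norm_smul, norm_inv, norm_mul]
    have h1 := hb ζ hζ1
    rw [← hSg] at h1
    have h2 : (N : ℝ) / 2 ≤ ‖w‖ * ‖q‖ := by
      have h3 : (N : ℝ) ≤ ‖w‖ := by linarith
      have h4 := mul_le_mul h3 hqn (by norm_num) (by linarith)
      linarith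
    have h5 : (0 : ℝ) < N / 2 := by linarith
    calc (‖w‖ * ‖q‖)⁻¹ * ‖Sg * b‖ ≤ ((N : ℝ) / 2)⁻¹ * (N / 4) := by
          apply mul_le_mul _ h1 (norm_nonneg _) (by positivity)
          exact inv_anti₀ h5 h2
      _ = 1 / 2 := by field_simp; norm_num
  have h1n : ‖(1 : X →L[ℂ] X)‖ ≤ 1 := ContinuousLinearMap.norm_id_le
  have hGn : ‖G‖ ≤ 1 := by
    have h1 : w • G = 1 + (N : ℂ) • (S * G) := by
      have h2 : w • G - (N : ℂ) • (S * G) = 1 := by
        rw [← hTG, hT, smul_mul_assoc, sub_mul, one_mul, smul_sub, smul_mul_assoc,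
          smul_smul w ζ, hζw]
      rw [← h2]
      abel
    have h2 : ‖w‖ * ‖G‖ ≤ 1 + N * ‖G‖ := by
      rw [← norm_smul, h1]
      refine le_trans (norm_add_le _ _) ?_
      rw [norm_smul, Complex.norm_natCast]
      have h3 : ‖S * G‖ ≤ ‖G‖ := by
        refine le_trans (norm_mul_le _ _) ?_
        have := mul_le_mul_of_nonneg_right hS (norm_nonneg G)
        linarith
      have h4 : (N : ℝ) * ‖S * G‖ ≤ N * ‖G‖ := mul_le_mul_of_nonneg_left h3 (by linarith)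
      linarith
    have h3 : ((N : ℝ) + 1) * ‖G‖ ≤ ‖w‖ * ‖G‖ := mul_le_mul_of_nonneg_right hwn (norm_nonneg _)
    linarith
  have hlt : ‖G * b‖ < 1 := by linarith
  set U : (X →L[ℂ] X)ˣ := Units.oneSub (G * b) hlt with hU
  have hUv : (U : X →L[ℂ] X) = 1 - G * b := rfl
  have hTb : T - b = T * (1 - G * b) := by
    rw [mul_sub, mul_one, ← mul_assoc, hTG, one_mul]
  rw [hmain]
  refine ⟨((U⁻¹ : (X →L[ℂ] X)ˣ) : X →L[ℂ] X) * G, ?_, ?_, ?_⟩
  · rw [mul_assoc, mul_sub, hGT, ← hUv, Units.inv_mul]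
  · rw [hTb, ← hUv, mul_assoc, ← mul_assoc (U : X →L[ℂ] X), Units.mul_inv, one_mul, hTG]
  · set Q : X →L[ℂ] X := ((U⁻¹ : (X →L[ℂ] X)ˣ) : X →L[ℂ] X) * G with hQ
    have h1 : Q = G + G * b * Q := by
      have h2 : (1 - G * b) * Q = G := by
        rw [← hUv, hQ, ← mul_assoc, Units.mul_inv, one_mul]
      rw [sub_mul, one_mul, sub_eq_iff_eq_add] at h2
      exact h2
    have h3 : ‖Q‖ ≤ ‖G‖ + ‖G * b‖ * ‖Q‖ := by
      conv_lhs => rw [h1]
      refine le_trans (norm_add_le _ _) ?_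
      have := norm_mul_le (G * b) Q
      linarith
    have h4 := mul_le_mul_of_nonneg_right hGb (norm_nonneg Q)
    linarith

end resolvent

section growth

variable {Y : Type} [NormedAddCommGroup Y] [NormedSpace ℂ Y]

end growth

end Pool.Agent.Helper86.NC
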