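import Mathlib
import Pool.Agent.Helper86.NC.Fibre

set_option autoImplicit false

open scoped ENNReal NNReal InnerProductSpace Topology

open Filter

namespace Pool.Agent.Helper86.NC

section fibre

variable {Y : Type} [NormedAddCommGroup Y] [NormedSpace ℂ Y]

/-- the flow: translation by one, applying `σ` when wrapping around -/
theorem exists_shift (R : ℕ) (hR : 1 ≤ R) (σ : Y ≃ₗᵢ[ℂ] Y) :
    ∃ S : Blk Y R →L[ℂ] Blk Y R, ‖S‖ ≤ 1 ∧
      (∀ (f : Blk Y R) (r : ℕ) (hr : r < R), (S f) ⟨r, hr⟩ =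
        if 0 < r then f ⟨r - 1, by omega⟩ else σ (f ⟨R - 1, by omega⟩)) ∧
      (∀ (b : ℕ), b ≤ R → ∀ (f : Blk Y R) (r : ℕ) (hr : r < R), ((S ^ b) f) ⟨r, hr⟩ =
        if h : r < b then σ (f ⟨r + R - b, by omega⟩) else f ⟨r - b, by omega⟩) := by
  obtain ⟨n, rfl⟩ : ∃ n, R = n + 1 := ⟨R - 1, by omega⟩
  let SL : Blk Y (n + 1) →ₗ[ℂ] Blk Y (n + 1) :=
    { toFun := fun f => WithLp.toLp p43 (fun r : Fin (n + 1) =>
        if 0 < (r : ℕ) then f ⟨(r : ℕ) - 1, by omega⟩ else σ (f ⟨n + 1 - 1, by omega⟩))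
      map_add' := by
        intro f g
        ext r
        change (if 0 < (r : ℕ) then (f + g) ⟨(r : ℕ) - 1, by omega⟩
            else σ ((f + g) ⟨n + 1 - 1, by omega⟩)) =
          (if 0 < (r : ℕ) then f ⟨(r : ℕ) - 1, by omega⟩ else σ (f ⟨n + 1 - 1, by omega⟩)) +
          (if 0 < (r : ℕ) then g ⟨(r : ℕ) - 1, by omega⟩ else σ (g ⟨n + 1 - 1, by omega⟩))
        split_ifs
        · rfl
        · exact map_add σ _ _
      map_smul' := by
        intro c f
        ext r
        change (if 0 < (r : ℕ) then (c • f) ⟨(r : ℕ) - 1, by omega⟩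
            else σ ((c • f) ⟨n + 1 - 1, by omega⟩)) =
          c • (if 0 < (r : ℕ) then f ⟨(r : ℕ) - 1, by omega⟩ else σ (f ⟨n + 1 - 1, by omega⟩))
        split_ifs
        · rfl
        · exact map_smul σ _ _ }
  have happ : ∀ (f : Blk Y (n + 1)) (r : Fin (n + 1)), (SL f) r =
      if 0 < (r : ℕ) then f ⟨(r : ℕ) - 1, by omega⟩ else σ (f ⟨n + 1 - 1, by omega⟩) := by
    intro f r; rfl
  have hnorm : ∀ f, ‖SL f‖ ≤ 1 * ‖f‖ := by
    intro f
    rw [one_mul, blk_norm, blk_norm]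
    apply le_of_eq
    congr 1
    rw [Fin.sum_univ_succ, Fin.sum_univ_castSucc (f := fun r => ‖f r‖ ^ (4 / 3 : ℝ)), add_comm]
    congr 1
    rw [happ]
    simp only [Fin.val_zero, lt_irrefl, if_false]
    rw [σ.norm_map]
    rfl
  let S : Blk Y (n + 1) →L[ℂ] Blk Y (n + 1) := SL.mkContinuous 1 hnorm
  have hS : ∀ (f : Blk Y (n + 1)) (r : ℕ) (hr : r < n + 1), (S f) ⟨r, hr⟩ =
        if 0 < r then f ⟨r - 1, by omega⟩ else σ (f ⟨n + 1 - 1, by omega⟩) := by
    intro f r hr
    exact happ f ⟨r, hr⟩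
  refine ⟨S, SL.mkContinuous_norm_le (by norm_num) hnorm, hS, ?_⟩
  intro b
  induction b with
  | zero =>
    intro _ f r hr
    simp
  | succ b ih =>
    intro hb f r hr
    rw [pow_succ', mul_apply_eq_comp, hS]
    by_cases h0 : 0 < r
    · rw [if_pos h0, ih (by omega)]
      by_cases h1 : r - 1 < b
      · rw [dif_pos h1, dif_pos (by omega : r < b + 1)]
        exact congrArg (fun i => σ (f i)) (Fin.ext (by simp only; omega))
      · rw [dif_neg h1, dif_neg (by omega : ¬ r < b + 1)]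
        exact congrArg (fun i => f i) (Fin.ext (by simp only; omega))
    · rw [if_neg h0, ih (by omega), dif_neg (by omega : ¬ n + 1 - 1 < b),
        dif_pos (by omega : r < b + 1)]
      exact congrArg (fun i => σ (f i)) (Fin.ext (by simp only; omega))

end fibre

section resolvent

variable {X : Type} [NormedAddCommGroup X] [NormedSpace ℂ X] [CompleteSpace X]

end resolvent

section growth

variable {Y : Type} [NormedAddCommGroup Y] [NormedSpace ℂ Y]

end growth

end Pool.Agent.Helper86.NC
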