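import Mathlib
import Pool.Agent.Helper86.NC.BlockDefs

set_option autoImplicit false

open scoped ENNReal NNReal InnerProductSpace Topology

open Filter

namespace Pool.Agent.Helper86.NC

section fibre

variable {Y : Type} [NormedAddCommGroup Y] [NormedSpace ℂ Y]

end fibre

section resolvent

variable {X : Type} [NormedAddCommGroup X] [NormedSpace ℂ X] [CompleteSpace X]

end resolvent

section growth

variable {Y : Type} [NormedAddCommGroup Y] [NormedSpace ℂ Y]

/-- The pairing `Θ(S^k M^l J w)` where `M` is the average of `S^b`, `b < R`, is nonnegative, and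
it is `κ` if `k, l` are such that only powers of `σ` in the window occur. -/
theorem window (R : ℕ) (hR : 1 ≤ R) (σ : Y ≃ₗᵢ[ℂ] Y) (S : Blk Y R →L[ℂ] Blk Y R)
    (hS : ∀ (f : Blk Y R) (r : ℕ) (hr : r < R), (S f) ⟨r, hr⟩ =
        if 0 < r then f ⟨r - 1, by omega⟩ else σ (f ⟨R - 1, by omega⟩))
    (M : Blk Y R →L[ℂ] Blk Y R) (hM : M = (R : ℂ)⁻¹ • ∑ b ∈ Finset.range R, S ^ b)
    (H : Y →L[ℂ] ℂ) (w : Y) (φ : ℕ → ℝ) (hφ : ∀ j, H (σ^[j] w) = (φ j : ℂ))
    (hφ0 : ∀ j, 0 ≤ φ j) (κ : ℝ) (j0 j1 : ℕ) (hκ : ∀ j, j0 ≤ j → j ≤ j1 → φ j = κ)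
    (k l : ℕ) :
    ∃ a : ℝ, (R : ℂ)⁻¹ * ∑ r, H (((S ^ k) ((M ^ l)
      (WithLp.toLp p43 (fun _ : Fin R => w)))) r) = (a : ℂ) ∧ 0 ≤ a ∧
      (j0 * R ≤ k → k + l * (R - 1) + (R - 1) < (j1 + 1) * R → a = κ) := by
  have hRC : (R : ℂ) ≠ 0 := by
    have : R ≠ 0 := by omega
    exact_mod_cast this
  have hRR : (R : ℝ) ≠ 0 := by
    have : R ≠ 0 := by omega
    exact_mod_cast this
  have hR0 : (0 : ℝ) ≤ (R : ℝ)⁻¹ := by positivity
  have key : ∀ (k r : ℕ) (hr : r < R), ((S ^ k) (WithLp.toLp p43 (fun _ : Fin R => w))) ⟨r, hr⟩ =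
      σ^[(k + (R - 1 - r)) / R] w := by
    intro k
    induction k with
    | zero =>
      intro r hr
      have h0 : (0 + (R - 1 - r)) / R = 0 := Nat.div_eq_of_lt (by omega)
      rw [h0]
      simp
    | succ k ih =>
      intro r hr
      have h1 : (S ^ (k + 1)) (WithLp.toLp p43 (fun _ : Fin R => w)) =
          S ((S ^ k) (WithLp.toLp p43 (fun _ : Fin R => w))) := by
        rw [pow_succ']; rfl
      rw [h1, hS _ r hr]
      by_cases h0 : 0 < r
      · rw [if_pos h0, ih (r - 1) (by omega)]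
        congr 2
        have : k + (R - 1 - (r - 1)) = k + 1 + (R - 1 - r) := by omega
        rw [this]
      · rw [if_neg h0, ih (R - 1) (by omega)]
        have h2 : (k + 1 + (R - 1 - r)) / R = k / R + 1 := by
          have : k + 1 + (R - 1 - r) = k + R := by omega
          rw [this, Nat.add_div_right k (by omega)]
        have h3 : (k + (R - 1 - (R - 1))) / R = k / R := by
          rw [Nat.sub_self, Nat.add_zero]
        rw [h2, h3, Function.iterate_succ', Function.comp]
  let Θ : Blk Y R →ₗ[ℂ] ℂ :=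
    { toFun := fun f => (R : ℂ)⁻¹ * ∑ r, H (f r)
      map_add' := by
        intro f g
        simp only [PiLp.add_apply, map_add, Finset.sum_add_distrib, mul_add]
      map_smul' := by
        intro c f
        simp only [PiLp.smul_apply, map_smul, smul_eq_mul, RingHom.id_apply, Finset.mul_sum]
        refine Finset.sum_congr rfl (fun r _ => ?_)
        ring }
  have hΘ : ∀ f, Θ f = (R : ℂ)⁻¹ * ∑ r, H (f r) := fun _ => rfl
  suffices hmain : ∀ l k : ℕ, ∃ a : ℝ, Θ ((S ^ k) ((M ^ l)
      (WithLp.toLp p43 (fun _ : Fin R => w)))) = (a : ℂ) ∧ 0 ≤ a ∧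
      (j0 * R ≤ k → k + l * (R - 1) + (R - 1) < (j1 + 1) * R → a = κ) from hmain l k
  intro l
  induction l with
  | zero =>
    intro k
    refine ⟨(R : ℝ)⁻¹ * ∑ r : Fin R, φ ((k + (R - 1 - r)) / R), ?_, ?_, ?_⟩
    · rw [hΘ]
      rw [Complex.ofReal_mul, Complex.ofReal_inv, Complex.ofReal_natCast, Complex.ofReal_sum]
      congr 1
      refine Finset.sum_congr rfl (fun r _ => ?_)
      have h1 := key k r.1 r.2
      have h2 : (M ^ 0) (WithLp.toLp p43 (fun _ : Fin R => w)) =
        WithLp.toLp p43 (fun _ : Fin R => w) := by rw [pow_zero]; rfl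
      rw [h2]
      have h3 : ((S ^ k) (WithLp.toLp p43 (fun _ : Fin R => w))) r =
        ((S ^ k) (WithLp.toLp p43 (fun _ : Fin R => w))) ⟨r.1, r.2⟩ := rfl
      rw [h3, h1, hφ]
    · exact mul_nonneg hR0 (Finset.sum_nonneg (fun r _ => hφ0 _))
    · intro h1 h2
      have h3 : ∀ r : Fin R, φ ((k + (R - 1 - r)) / R) = κ := by
        intro r
        apply hκ
        · rw [Nat.le_div_iff_mul_le (by omega)]
          omega
        · have : (k + (R - 1 - r)) / R < j1 + 1 := by
            rw [Nat.div_lt_iff_lt_mul (by omega)]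
            have := r.2
            omega
          omega
      rw [Finset.sum_congr rfl (fun r _ => h3 r), Finset.sum_const, Finset.card_univ,
        Fintype.card_fin, nsmul_eq_mul, ← mul_assoc, inv_mul_cancel₀ hRR, one_mul]
  | succ l ih =>
    intro k
    choose a ha1 ha2 ha3 using ih
    refine ⟨(R : ℝ)⁻¹ * ∑ b ∈ Finset.range R, a (k + b), ?_, ?_, ?_⟩
    · have h1 : (S ^ k) ((M ^ (l + 1)) (WithLp.toLp p43 (fun _ : Fin R => w))) =
          (R : ℂ)⁻¹ • ∑ b ∈ Finset.range R, (S ^ (k + b)) ((M ^ l)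
            (WithLp.toLp p43 (fun _ : Fin R => w))) := by
        have h2 : (M ^ (l + 1)) (WithLp.toLp p43 (fun _ : Fin R => w)) =
            M ((M ^ l) (WithLp.toLp p43 (fun _ : Fin R => w))) := by
          rw [pow_succ']; rfl
        rw [h2]
        set f := (M ^ l) (WithLp.toLp p43 (fun _ : Fin R => w)) with hf
        have h3 : M f = (R : ℂ)⁻¹ • ∑ b ∈ Finset.range R, (S ^ b) f := by
          rw [hM]
          simp [ContinuousLinearMap.sum_apply]
        rw [h3, map_smul, map_sum]
        congr 1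
        refine Finset.sum_congr rfl (fun b _ => ?_)
        rw [pow_add]
        rfl
      rw [h1, map_smul, map_sum, smul_eq_mul]
      rw [Complex.ofReal_mul, Complex.ofReal_inv, Complex.ofReal_natCast, Complex.ofReal_sum]
      congr 1
      exact Finset.sum_congr rfl (fun b _ => ha1 (k + b))
    · exact mul_nonneg hR0 (Finset.sum_nonneg (fun b _ => ha2 _))
    · intro h1 h2
      have h3 : ∀ b ∈ Finset.range R, a (k + b) = κ := by
        intro b hb
        rw [Finset.mem_range] at hb
        apply ha3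
        · omega
        · have e : (l + 1) * (R - 1) = l * (R - 1) + (R - 1) := by ring
          rw [e] at h2
          omega
      rw [Finset.sum_congr rfl h3, Finset.sum_const, Finset.card_range, nsmul_eq_mul,
        ← mul_assoc, inv_mul_cancel₀ hRR, one_mul]

end growth

end Pool.Agent.Helper86.NC
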