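import Mathlib
import Pool.Agent.Helper86.NC.Fibre
import Pool.Agent.Helper86.NC.Shift
import Pool.Agent.Helper86.NC.Resolv
import Pool.Agent.Helper86.NC.ExpA
import Pool.Agent.Helper86.NC.Poisson
import Pool.Agent.Helper86.NC.Window

set_option autoImplicit false

open scoped ENNReal NNReal InnerProductSpace Topology

open Filter

namespace Pool.Agent.Helper86.NC

section fibre

variable {Y : Type} [NormedAddCommGroup Y] [NormedSpace ℂ Y]

end fibre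

section resolvent

variable {X : Type} [NormedAddCommGroup X] [NormedSpace ℂ X] [CompleteSpace X]

end resolvent

section growth

variable {Y : Type} [NormedAddCommGroup Y] [NormedSpace ℂ Y]

end growth

section blockaux

variable {Y : Type} [NormedAddCommGroup Y] [NormedSpace ℂ Y]

lemma blkaux_ext {R : ℕ} {P Q : Blk Y R →L[ℂ] Blk Y R}
    (h : ∀ (f : Blk Y R) (r : Fin R), (P f) r = (Q f) r) : P = Q := by
  refine ContinuousLinearMap.ext fun f => ?_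
  refine PiLp.ext fun r => h f r

lemma blkaux_SR {R : ℕ} {σ : Y ≃ₗᵢ[ℂ] Y} {S : Blk Y R →L[ℂ] Blk Y R}
    (hP : ∀ (b : ℕ), b ≤ R → ∀ (f : Blk Y R) (r : ℕ) (hr : r < R), ((S ^ b) f) ⟨r, hr⟩ =
        if h : r < b then σ (f ⟨r + R - b, by omega⟩) else f ⟨r - b, by omega⟩)
    (f : Blk Y R) (r : Fin R) : ((S ^ R) f) r = σ (f r) := by
  have h := hP R le_rfl f r.1 r.2
  rw [dif_pos r.2] at h
  simpa using h

lemma blkaux_SRa {R : ℕ} {σ : Y ≃ₗᵢ[ℂ] Y} {S : Blk Y R →L[ℂ] Blk Y R}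
    (hP : ∀ (b : ℕ), b ≤ R → ∀ (f : Blk Y R) (r : ℕ) (hr : r < R), ((S ^ b) f) ⟨r, hr⟩ =
        if h : r < b then σ (f ⟨r + R - b, by omega⟩) else f ⟨r - b, by omega⟩)
    (a : ℕ) (f : Blk Y R) (r : Fin R) : (((S ^ R) ^ a) f) r = σ^[a] (f r) := by
  induction a generalizing f with
  | zero => simp
  | succ a ih =>
    rw [pow_succ, mul_apply_eq_comp, ih, blkaux_SR hP, Function.iterate_succ_apply]

lemma blkaux_SN {R m : ℕ} {σ : Y ≃ₗᵢ[ℂ] Y} {S : Blk Y R →L[ℂ] Blk Y R}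
    (hP : ∀ (b : ℕ), b ≤ R → ∀ (f : Blk Y R) (r : ℕ) (hr : r < R), ((S ^ b) f) ⟨r, hr⟩ =
        if h : r < b then σ (f ⟨r + R - b, by omega⟩) else f ⟨r - b, by omega⟩)
    (sm : ∀ y, σ^[m] y = y) : S ^ (m * R) = 1 := by
  rw [mul_comm, pow_mul]
  refine blkaux_ext fun f r => ?_
  rw [blkaux_SRa hP, sm]
  rfl

lemma blkaux_SF {R : ℕ} {σ : Y ≃ₗᵢ[ℂ] Y} {S F : Blk Y R →L[ℂ] Blk Y R} {B : Y →L[ℂ] Y}
    (hS : ∀ (f : Blk Y R) (r : ℕ) (hr : r < R), (S f) ⟨r, hr⟩ =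
        if 0 < r then f ⟨r - 1, by omega⟩ else σ (f ⟨R - 1, by omega⟩))
    (hF : ∀ (f : Blk Y R) (r : Fin R), (F f) r = B (f r))
    (Bs : ∀ y, B (σ y) = σ (B y)) : S * F = F * S := by
  refine blkaux_ext fun f r => ?_
  rw [mul_apply_eq_comp, mul_apply_eq_comp, hF]
  obtain ⟨r, hr⟩ := r
  rw [hS, hS]
  split_ifs with h
  · rw [hF]
  · rw [hF, Bs]

lemma blkaux_Fpow {R : ℕ} {F : Blk Y R →L[ℂ] Blk Y R} {B : Y →L[ℂ] Y}
    (hF : ∀ (f : Blk Y R) (r : Fin R), (F f) r = B (f r)) (k : ℕ) (f : Blk Y R) (r : Fin R) :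
    ((F ^ k) f) r = (B ^ k) (f r) := by
  induction k generalizing f with
  | zero => simp
  | succ k ih =>
    rw [pow_succ, pow_succ, mul_apply_eq_comp, mul_apply_eq_comp, ih, hF]

lemma blkaux_geom {A : Type*} [Ring A] (x : A) (R m : ℕ) :
    ∑ k ∈ Finset.range (m * R), x ^ k =
      (∑ r ∈ Finset.range R, x ^ r) * ∑ a ∈ Finset.range m, (x ^ R) ^ a := by
  induction m with
  | zero => simp
  | succ m ih =>
    rw [add_mul, one_mul, Finset.sum_range_add, ih, Finset.sum_range_succ, mul_add]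
    congr 1
    rw [Finset.sum_mul]
    refine Finset.sum_congr rfl fun r _ => ?_
    rw [← pow_mul, ← pow_add]
    congr 1
    ring

lemma blkaux_powle {X : Type*} [NormedAddCommGroup X] [NormedSpace ℂ X] {S : X →L[ℂ] X}
    (hS : ‖S‖ ≤ 1) (k : ℕ) : ‖S ^ k‖ ≤ 1 := by
  induction k with
  | zero => rw [pow_zero]; exact ContinuousLinearMap.norm_id_le
  | succ k ih =>
    rw [pow_succ]
    refine (norm_mul_le _ _).trans ?_
    nlinarith [norm_nonneg (S ^ k), norm_nonneg S]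

lemma blkaux_Mle {X : Type*} [NormedAddCommGroup X] [NormedSpace ℂ X] {S : X →L[ℂ] X}
    (hS : ‖S‖ ≤ 1) {R : ℕ} (hR : 1 ≤ R) :
    ‖(R : ℂ)⁻¹ • ∑ b ∈ Finset.range R, S ^ b‖ ≤ 1 := by
  have hR0 : (0 : ℝ) < R := by exact_mod_cast hR
  rw [norm_smul, norm_inv, Complex.norm_natCast]
  have h1 : ‖∑ b ∈ Finset.range R, S ^ b‖ ≤ R := by
    refine (norm_sum_le _ _).trans ?_
    refine (Finset.sum_le_sum fun b _ => blkaux_powle hS b).trans ?_
    simp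
  rw [inv_mul_le_iff₀ hR0]
  linarith

/-- the bound needed for the resolvent, abstract part -/
lemma blkaux_hb0 {X : Type*} [NormedAddCommGroup X] [NormedSpace ℂ X] {S F : X →L[ℂ] X}
    {R m : ℕ} (hR : 1 ≤ R) (hS1 : ‖S‖ ≤ 1) (ζ : ℂ) (hζ : ‖ζ‖ ≤ 1)
    (hG : ‖(∑ a ∈ Finset.range m, (ζ ^ R) ^ a • (S ^ R) ^ a) * F‖ ≤ m / 16) :
    ‖(∑ k ∈ Finset.range (m * R), ζ ^ k • S ^ k) *
      ((4 : ℂ) • (F * ((R : ℂ)⁻¹ • ∑ b ∈ Finset.range R, S ^ b)))‖ ≤ ((m * R : ℕ) : ℝ) / 4 := by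
  have hsm : ∀ k, ζ ^ k • S ^ k = (ζ • S) ^ k := fun k => (smul_pow ζ S k).symm
  have hsm' : ∀ a, (ζ ^ R) ^ a • (S ^ R) ^ a = ((ζ • S) ^ R) ^ a := fun a => by
    rw [smul_pow, smul_pow]
  simp only [hsm'] at hG
  simp only [hsm]
  rw [blkaux_geom]
  set M : X →L[ℂ] X := (R : ℂ)⁻¹ • ∑ b ∈ Finset.range R, S ^ b with hM
  set P : X →L[ℂ] X := ∑ r ∈ Finset.range R, (ζ • S) ^ r with hPd
  have e1 : (P * ∑ a ∈ Finset.range m, ((ζ • S) ^ R) ^ a) * ((4 : ℂ) • (F * M)) =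
      (4 : ℂ) • (P * (((∑ a ∈ Finset.range m, ((ζ • S) ^ R) ^ a) * F) * M)) := by
    rw [mul_smul_comm]
    simp only [mul_assoc]
  rw [e1]
  have hzs : ‖ζ • S‖ ≤ 1 := by
    rw [norm_smul]
    nlinarith [norm_nonneg ζ, norm_nonneg S]
  have hPn : ‖P‖ ≤ R := by
    refine (norm_sum_le _ _).trans ?_
    refine (Finset.sum_le_sum fun b _ => blkaux_powle hzs b).trans ?_
    simp
  have hMn : ‖M‖ ≤ 1 := blkaux_Mle hS1 hR
  rw [norm_smul]
  have h4 : ‖(4 : ℂ)‖ = 4 := by simp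
  rw [h4]
  have h5 : ‖P * (((∑ a ∈ Finset.range m, ((ζ • S) ^ R) ^ a) * F) * M)‖ ≤ R * (m / 16 * 1) := by
    refine (norm_mul_le _ _).trans ?_
    refine mul_le_mul hPn ?_ (norm_nonneg _) (by positivity)
    refine (norm_mul_le _ _).trans ?_
    exact mul_le_mul hG hMn (norm_nonneg _) (by positivity)
  push_cast
  linarith

/-- the bound needed for the resolvent -/
lemma blkaux_hb {R m : ℕ} (hR : 1 ≤ R) {σ : Y ≃ₗᵢ[ℂ] Y} {S F : Blk Y R →L[ℂ] Blk Y R}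
    {B : Y →L[ℂ] Y} (hS1 : ‖S‖ ≤ 1)
    (hP : ∀ (b : ℕ), b ≤ R → ∀ (f : Blk Y R) (r : ℕ) (hr : r < R), ((S ^ b) f) ⟨r, hr⟩ =
        if h : r < b then σ (f ⟨r + R - b, by omega⟩) else f ⟨r - b, by omega⟩)
    (hF : ∀ (f : Blk Y R) (r : Fin R), (F f) r = B (f r))
    (av : ∀ Z : ℂ, ‖Z‖ ≤ 1 → ∀ y, ‖∑ a ∈ Finset.range m, Z ^ a • (σ^[a] (B y))‖ ≤ m / 16 * ‖y‖)
    (ζ : ℂ) (hζ : ‖ζ‖ ≤ 1) :
    ‖(∑ k ∈ Finset.range (m * R), ζ ^ k • S ^ k) *
      ((4 : ℂ) • (F * ((R : ℂ)⁻¹ • ∑ b ∈ Finset.range R, S ^ b)))‖ ≤ ((m * R : ℕ) : ℝ) / 4 := by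
  refine blkaux_hb0 hR hS1 ζ hζ ?_
  -- the fibre operator
  set T : Y →L[ℂ] Y := ∑ a ∈ Finset.range m, ((ζ ^ R) ^ a) •
    ((((σ : Y ≃L[ℂ] Y) : Y →L[ℂ] Y) ^ a) * B) with hT
  have hσa : ∀ (a : ℕ) (y : Y), (((σ : Y ≃L[ℂ] Y) : Y →L[ℂ] Y) ^ a) y = σ^[a] y := by
    intro a y
    induction a generalizing y with
    | zero => simp
    | succ a ih =>
      rw [pow_succ, mul_apply_eq_comp, ih, Function.iterate_succ_apply]
      rfl
  have hTy : ∀ y, T y = ∑ a ∈ Finset.range m, (ζ ^ R) ^ a • (σ^[a] (B y)) := by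
    intro y
    rw [hT, sum_apply]
    refine Finset.sum_congr rfl fun a _ => ?_
    rw [smul_apply, mul_apply_eq_comp, hσa]
  obtain ⟨G', hG'n, hG'⟩ := exists_fib R T (m / 16) (by positivity) fun y => by
    rw [hTy]
    exact av (ζ ^ R) (by rw [norm_pow]; exact pow_le_one₀ (norm_nonneg _) hζ) y
  have hGG : (∑ a ∈ Finset.range m, (ζ ^ R) ^ a • (S ^ R) ^ a) * F = G' := by
    refine blkaux_ext fun f r => ?_
    rw [hG', hTy, mul_apply_eq_comp, sum_apply, WithLp.ofLp_sum, Finset.sum_apply]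
    refine Finset.sum_congr rfl fun a _ => ?_
    rw [smul_apply, PiLp.smul_apply, blkaux_SRa hP, hF]
  rw [hGG]
  exact hG'n

/-- `S` fixes constant functions with value `w` with `σ w = w` -/
lemma blkaux_SJ {R : ℕ} {σ : Y ≃ₗᵢ[ℂ] Y} {S : Blk Y R →L[ℂ] Blk Y R}
    (hS : ∀ (f : Blk Y R) (r : ℕ) (hr : r < R), (S f) ⟨r, hr⟩ =
        if 0 < r then f ⟨r - 1, by omega⟩ else σ (f ⟨R - 1, by omega⟩))
    {u : Y} (su : σ u = u) :
    S (WithLp.toLp p43 (fun _ : Fin R => u)) = WithLp.toLp p43 (fun _ : Fin R => u) := by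
  refine PiLp.ext fun r => ?_
  obtain ⟨r, hr⟩ := r
  rw [hS]
  split_ifs with h
  · rfl
  · exact su

lemma blkaux_powfix {X : Type*} [NormedAddCommGroup X] [NormedSpace ℂ X] {S : X →L[ℂ] X}
    {u : X} (hu : S u = u) (k : ℕ) : (S ^ k) u = u := by
  induction k with
  | zero => simp
  | succ k ih => rw [pow_succ, mul_apply_eq_comp, hu, ih]

lemma blkaux_Mfix {X : Type*} [NormedAddCommGroup X] [NormedSpace ℂ X] {S : X →L[ℂ] X}
    {u : X} (hu : S u = u) {R : ℕ} (hR : 1 ≤ R) :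
    ((R : ℂ)⁻¹ • ∑ b ∈ Finset.range R, S ^ b : X →L[ℂ] X) u = u := by
  have hR0 : (R : ℂ) ≠ 0 := by exact_mod_cast (by omega : R ≠ 0)
  rw [smul_apply, sum_apply]
  simp only [blkaux_powfix hu]
  rw [Finset.sum_const, Finset.card_range, ← Nat.cast_smul_eq_nsmul ℂ, smul_smul,
    inv_mul_cancel₀ hR0, one_smul]

/-- sums over the fibres -/
lemma blkaux_sumS {R : ℕ} (hR : 1 ≤ R) {σ : Y ≃ₗᵢ[ℂ] Y} {S : Blk Y R →L[ℂ] Blk Y R}
    (hS : ∀ (f : Blk Y R) (r : ℕ) (hr : r < R), (S f) ⟨r, hr⟩ =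
        if 0 < r then f ⟨r - 1, by omega⟩ else σ (f ⟨R - 1, by omega⟩))
    {E : Type*} [AddCommMonoid E] (τ : Y → E) (ts : ∀ y, τ (σ y) = τ y) (f : Blk Y R) :
    ∑ r, τ ((S f) r) = ∑ r, τ (f r) := by
  obtain ⟨R', rfl⟩ : ∃ R', R = R' + 1 := ⟨R - 1, by omega⟩
  rw [Fin.sum_univ_succ, Fin.sum_univ_castSucc, add_comm]
  congr 1
  · refine Finset.sum_congr rfl fun i _ => ?_
    have := hS f (i.1 + 1) (by omega)
    rw [if_pos (by omega)] at this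
    exact congrArg τ this
  · have := hS f 0 (by omega)
    rw [if_neg (by omega)] at this
    rw [← ts (f (Fin.last R'))]
    exact congrArg τ this

lemma blkaux_rot {R r : ℕ} (hr : r < R) (ψ : ℕ → ℝ) :
    ∑ b ∈ Finset.range R, ψ (if r < b then r + R - b else r - b) =
      ∑ b ∈ Finset.range R, ψ b := by
  refine Finset.sum_nbij' (fun b => if r < b then r + R - b else r - b)
    (fun b => if r < b then r + R - b else r - b) ?_ ?_ ?_ ?_ ?_
  · intro b hb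
    simp only [Finset.mem_range] at hb ⊢
    split_ifs <;> omega
  · intro b hb
    simp only [Finset.mem_range] at hb ⊢
    split_ifs <;> omega
  · intro b hb
    simp only [Finset.mem_range] at hb ⊢
    split_ifs <;> omega
  · intro b hb
    simp only [Finset.mem_range] at hb ⊢
    split_ifs <;> omega
  · intro b _
    rfl

lemma blkaux_Mapp {R : ℕ} (S : Blk Y R →L[ℂ] Blk Y R) (g : Blk Y R) (r : Fin R) :
    (((R : ℂ)⁻¹ • ∑ b ∈ Finset.range R, S ^ b : Blk Y R →L[ℂ] Blk Y R) g) r =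
      (R : ℂ)⁻¹ • ∑ b ∈ Finset.range R, ((S ^ b) g) r := by
  rw [smul_apply, PiLp.smul_apply, sum_apply, WithLp.ofLp_sum, Finset.sum_apply]

/-- values of the average are controlled by the norm -/
lemma blkaux_Mnorm {R : ℕ} (hR : 1 ≤ R) {σ : Y ≃ₗᵢ[ℂ] Y} {S : Blk Y R →L[ℂ] Blk Y R}
    (hP : ∀ (b : ℕ), b ≤ R → ∀ (f : Blk Y R) (r : ℕ) (hr : r < R), ((S ^ b) f) ⟨r, hr⟩ =
        if h : r < b then σ (f ⟨r + R - b, by omega⟩) else f ⟨r - b, by omega⟩)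
    (g : Blk Y R) (r : Fin R) :
    ‖(((R : ℂ)⁻¹ • ∑ b ∈ Finset.range R, S ^ b : Blk Y R →L[ℂ] Blk Y R) g) r‖ ≤
      (R : ℝ) ^ (-(3 / 4) : ℝ) * ‖g‖ := by
  refine le_trans ?_ (blk_avg R hR g)
  rw [blkaux_Mapp, norm_smul, norm_inv, Complex.norm_natCast]
  refine mul_le_mul_of_nonneg_left ?_ (by positivity)
  refine (norm_sum_le _ _).trans (le_of_eq ?_)
  obtain ⟨r, hr⟩ := r
  set ψ : ℕ → ℝ := fun b => if h : b < R then ‖g ⟨b, h⟩‖ else 0 with hψ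
  have e1 : ∑ r, ‖g r‖ = ∑ b ∈ Finset.range R, ψ b := by
    rw [← Fin.sum_univ_eq_sum_range]
    refine Finset.sum_congr rfl fun i _ => ?_
    simp [hψ]
  rw [e1, ← blkaux_rot hr ψ]
  refine Finset.sum_congr rfl fun b hb => ?_
  have hb' := Finset.mem_range.1 hb
  rw [hP b hb'.le g r hr]
  by_cases h : r < b
  · rw [dif_pos h, if_pos h, σ.norm_map, hψ]
    simp only
    rw [dif_pos (by omega)]
  · rw [dif_neg h, if_neg h, hψ]
    simp only
    rw [dif_pos (by omega)]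

omit [NormedSpace ℂ Y] in
lemma blkaux_closed {R : ℕ} {C : Set Y} (hC : IsClosed C) :
    IsClosed {g : Blk Y R | ∀ r, g r ∈ C} := by
  have : {g : Blk Y R | ∀ r, g r ∈ C} = ⋂ r : Fin R, (fun g : Blk Y R => g r) ⁻¹' C := by
    ext g
    simp
  rw [this]
  refine isClosed_iInter fun r => hC.preimage ?_
  fun_prop

lemma blkaux_nilexp {X : Type*} [NormedAddCommGroup X] [NormedSpace ℂ X] [CompleteSpace X]
    (b : X →L[ℂ] X) (L : ℕ) (hb : b ^ L = 0) (t : ℂ) :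
    NormedSpace.exp (t • b) =
      ∑ k ∈ Finset.range L, (t ^ k * ((k.factorial : ℂ)⁻¹)) • b ^ k := by
  have h1 := NormedSpace.exp_series_hasSum_exp' (𝕂 := ℂ) (t • b)
  have h2 : HasSum (fun k : ℕ => ((k.factorial : ℂ)⁻¹) • (t • b) ^ k)
      (∑ k ∈ Finset.range L, ((k.factorial : ℂ)⁻¹) • (t • b) ^ k) := by
    refine hasSum_sum_of_ne_finset_zero fun k hk => ?_
    have hk' : L ≤ k := by simpa using hk
    obtain ⟨j, rfl⟩ := Nat.exists_eq_add_of_le hk'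
    rw [smul_pow, pow_add, pow_add, hb, zero_mul, smul_zero, smul_zero]
  rw [h1.unique h2]
  refine Finset.sum_congr rfl fun k _ => ?_
  rw [smul_pow, smul_smul, mul_comm]

lemma blkaux_theta {X : Type*} [NormedAddCommGroup X] [NormedSpace ℂ X] [CompleteSpace X]
    (S : X →L[ℂ] X) (Θ : X →L[ℂ] ℂ) (y : X) (x : ℝ) (a : ℕ → ℝ)
    (ha : ∀ j, Θ ((S ^ j) y) = (a j : ℂ)) :
    HasSum (fun j : ℕ => ((x ^ j / (j.factorial : ℝ) * a j : ℝ) : ℂ))
      (Θ (NormedSpace.exp ((x : ℂ) • S) y)) := by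
  have h1 := NormedSpace.exp_series_hasSum_exp' (𝕂 := ℂ) ((x : ℂ) • S)
  have h2 := (Θ.comp (ContinuousLinearMap.apply ℂ X y)).hasSum h1
  have e : (fun j : ℕ => ((x ^ j / (j.factorial : ℝ) * a j : ℝ) : ℂ)) =
      fun j : ℕ => (Θ.comp (ContinuousLinearMap.apply ℂ X y))
        (((j.factorial : ℂ)⁻¹) • ((x : ℂ) • S) ^ j) := by
    funext j
    rw [smul_pow, smul_smul]
    simp only [ContinuousLinearMap.comp_apply, ContinuousLinearMap.apply_apply,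
      map_smul, ha, smul_eq_mul]
    push_cast
    ring
  rw [e]
  exact h2

/-- growth of the block semigroup, abstract part -/
lemma blkaux_growth0 {X : Type} [NormedAddCommGroup X] [NormedSpace ℂ X] [CompleteSpace X]
    (S b : X →L[ℂ] X) (N L R : ℕ) (hL : 1 ≤ L) (hcomm : S * b = b * S) (hbL : b ^ L = 0)
    (Θ : X →L[ℂ] ℂ) (f : X) (κ : ℝ) (hκ : 0 ≤ κ) (hR : 2 * (L * N) ≤ R ^ 2)
    (h0 : ∀ k < L - 1, ∀ j, Θ ((S ^ j) ((b ^ k) f)) = 0)
    (h1 : ∀ j, ∃ a : ℝ, Θ ((S ^ j) ((b ^ (L - 1)) f)) = (a : ℂ) ∧ 0 ≤ a ∧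
      (L * N - R ≤ j → j ≤ L * N + R → a = κ)) :
    Real.exp (-L) * ((L : ℝ) ^ (L - 1) / ((L - 1).factorial : ℝ)) * κ / 2 ≤
      ‖Θ (NormedSpace.exp ((L : ℂ) • ((N : ℂ) • (S - 1) + b - 1)) f)‖ := by
  have hA := exp_A S b N hcomm (L : ℝ)
  rw [Complex.ofReal_natCast] at hA
  rw [hA, blkaux_nilexp b L hbL]
  choose a ha ha0 haκ using h1
  have hV := blkaux_theta S Θ ((b ^ (L - 1)) f) ((L : ℝ) * N) a ha
  set x : ℝ := (L : ℝ) * N with hx
  have hZ : ∀ k < L - 1, Θ (NormedSpace.exp ((x : ℂ) • S) ((b ^ k) f)) = 0 := by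
    intro k hk
    have h3 := blkaux_theta S Θ ((b ^ k) f) x (fun _ => 0) (fun j => by
      rw [h0 k hk j]; simp)
    have h4 : HasSum (fun j : ℕ => ((x ^ j / (j.factorial : ℝ) * 0 : ℝ) : ℂ)) 0 := by
      simp only [mul_zero, Complex.ofReal_zero]
      exact hasSum_zero
    exact h3.unique h4
  set V : ℂ := Θ (NormedSpace.exp ((x : ℂ) • S) ((b ^ (L - 1)) f)) with hVd
  have hVre : κ * (Real.exp x / 2) ≤ V.re := by
    have h5 : HasSum (fun j : ℕ => x ^ j / (j.factorial : ℝ) * a j) V.re := by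
      have := Complex.hasSum_re hV
      simpa only [Complex.ofReal_re] using this
    have h6 := sum_le_hasSum (Finset.Icc (L * N - R) (L * N + R)) (fun j _ => by
      have := ha0 j
      positivity) h5
    refine le_trans ?_ h6
    have h7 := poisson_conc (L * N) R hR
    have h8 : ∑ j ∈ Finset.Icc (L * N - R) (L * N + R), x ^ j / (j.factorial : ℝ) * a j =
        κ * ∑ j ∈ Finset.Icc (L * N - R) (L * N + R),
          ((L * N : ℕ) : ℝ) ^ j / (j.factorial : ℝ) := by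
      rw [Finset.mul_sum]
      refine Finset.sum_congr rfl fun j hj => ?_
      rw [Finset.mem_Icc] at hj
      rw [haκ j hj.1 hj.2, hx]
      push_cast
      ring
    rw [h8]
    refine mul_le_mul_of_nonneg_left ?_ hκ
    rw [hx]
    push_cast at h7
    exact_mod_cast h7
  have hfin : Θ ((((Real.exp (-((L : ℝ) * (1 + N))) : ℝ) : ℂ) •
      (NormedSpace.exp ((((L : ℝ) * N : ℝ) : ℂ) • S) *
        ∑ k ∈ Finset.range L, ((L : ℂ) ^ k * ((k.factorial : ℂ)⁻¹)) • b ^ k)) f) =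
      ((Real.exp (-((L : ℝ) * (1 + N))) * ((L : ℝ) ^ (L - 1) / ((L - 1).factorial : ℝ)) : ℝ) : ℂ)
        * V := by
    rw [smul_apply, map_smul, mul_apply_eq_comp, sum_apply, map_sum, map_sum]
    obtain ⟨L', rfl⟩ : ∃ L', L = L' + 1 := ⟨L - 1, by omega⟩
    rw [Finset.sum_range_succ, Finset.sum_eq_zero, zero_add]
    · rw [smul_apply, map_smul, map_smul, hVd, hx]
      simp only [Nat.add_sub_cancel, smul_eq_mul]
      push_cast
      ring
    · intro k hk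
      rw [smul_apply, map_smul, map_smul, ← hx, hZ k (by simpa using hk), smul_zero]
  rw [hfin]
  have hc : 0 ≤ Real.exp (-((L : ℝ) * (1 + N))) * ((L : ℝ) ^ (L - 1) / ((L - 1).factorial : ℝ)) := by
    positivity
  rw [norm_mul, Complex.norm_real, Real.norm_eq_abs, abs_of_nonneg hc]
  have h9 : V.re ≤ ‖V‖ := Complex.re_le_norm V
  have h10 := mul_le_mul_of_nonneg_left (hVre.trans h9) hc
  refine le_trans (le_of_eq ?_) h10
  have e2 : Real.exp (-(L : ℝ)) = Real.exp (-((L : ℝ) * (1 + N))) * Real.exp x := by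
    rw [← Real.exp_add, hx]
    congr 1
    ring
  rw [e2]
  ring

/-- the averaged functional -/
noncomputable def blkaux_Theta (R : ℕ) (H : Y →L[ℂ] ℂ) : Blk Y R →L[ℂ] ℂ :=
  (R : ℂ)⁻¹ • ∑ r : Fin R, H.comp (PiLp.proj p43 (fun _ : Fin R => Y) r)

lemma blkaux_Theta_apply (R : ℕ) (H : Y →L[ℂ] ℂ) (f : Blk Y R) :
    blkaux_Theta R H f = (R : ℂ)⁻¹ * ∑ r, H (f r) := by
  unfold blkaux_Theta
  rw [smul_apply, sum_apply, smul_eq_mul]
  rfl

lemma blkaux_Theta_norm {R : ℕ} (hR : 1 ≤ R) (H : Y →L[ℂ] ℂ) (f : Blk Y R) :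
    ‖blkaux_Theta R H f‖ ≤ ‖H‖ * ((R : ℝ) ^ (-(3 / 4) : ℝ) * ‖f‖) := by
  rw [blkaux_Theta_apply, norm_mul, norm_inv, Complex.norm_natCast]
  refine le_trans ?_ (mul_le_mul_of_nonneg_left (blk_avg R hR f) (norm_nonneg H))
  have h1 : ‖∑ r, H (f r)‖ ≤ ‖H‖ * ∑ r, ‖f r‖ := by
    refine (norm_sum_le _ _).trans ?_
    rw [Finset.mul_sum]
    exact Finset.sum_le_sum fun r _ => H.le_opNorm _
  have h2 := mul_le_mul_of_nonneg_left h1 (by positivity : (0 : ℝ) ≤ (R : ℝ)⁻¹)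
  refine h2.trans (le_of_eq ?_)
  ring

/-- the numerical inequality at the end -/
lemma blkaux_numeric {L : ℕ} (hL : 2 ≤ L) {C0 κ T : ℝ} (hC0 : 1 ≤ C0)
    (hk : (15 / 16 : ℝ) ^ L ≤ κ)
    (h : Real.exp (-L) * ((L : ℝ) ^ (L - 1) / ((L - 1).factorial : ℝ)) * (4 ^ (L - 1) * κ) / 2 ≤
      C0 * (L + 2) * (T * C0)) :
    2 ^ L / (64 * C0 ^ 2) ≤ T := by
  have h1 := pow_div_factorial L (by omega)
  have h2 : (11 / 30 : ℝ) ^ L ≤ Real.exp (-L) := by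
    have e1 : Real.exp (-(L : ℝ)) = (Real.exp (-1)) ^ L := by
      rw [← Real.exp_nat_mul]
      ring_nf
    rw [e1]
    refine pow_le_pow_left₀ (by norm_num) ?_ L
    rw [Real.exp_neg]
    have := Real.exp_one_lt_d9
    rw [le_inv_comm₀ (by norm_num) (Real.exp_pos 1)]
    linarith
  have h3 : (1.375 : ℝ) ^ L ≥ (L + 2) / 4 := by
    have := one_add_mul_le_pow (a := (0.375 : ℝ)) (by norm_num) L
    have e : (1 + 0.375 : ℝ) = 1.375 := by norm_num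
    rw [e] at this
    have hL0 : (0 : ℝ) ≤ L := by positivity
    linarith
  have h4 : (11 / 30 : ℝ) ^ L * 2 ^ (L - 1) * (4 ^ (L - 1) * (15 / 16 : ℝ) ^ L) / 2 ≤
      Real.exp (-L) * ((L : ℝ) ^ (L - 1) / ((L - 1).factorial : ℝ)) * (4 ^ (L - 1) * κ) / 2 := by
    gcongr
  have h5 : (11 / 30 : ℝ) ^ L * 2 ^ (L - 1) * (4 ^ (L - 1) * (15 / 16 : ℝ) ^ L) / 2 =
      2 ^ L * 1.375 ^ L / 16 := by
    obtain ⟨l, rfl⟩ : ∃ l, L = l + 1 := ⟨L - 1, by omega⟩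
    have e : (11 / 30 : ℝ) ^ (l + 1) * 2 ^ l * (4 ^ l * (15 / 16 : ℝ) ^ (l + 1)) / 2 =
        ((11 / 30) * 2 * 4 * (15 / 16)) ^ l * ((11 / 30) * (15 / 16) / 2) := by
      rw [mul_pow, mul_pow, mul_pow, pow_succ, pow_succ]
      ring
    rw [Nat.add_sub_cancel, e, ← mul_pow, pow_succ]
    norm_num
    ring
  have h6 : 2 ^ L * ((L + 2) / 4) / 16 ≤ C0 * (L + 2) * (T * C0) := by
    refine le_trans ?_ ((h5 ▸ h4).trans h)
    have : (0 : ℝ) < 2 ^ L := by positivity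
    gcongr
  have hC2 : 0 < C0 ^ 2 := by positivity
  rw [div_le_iff₀ (by positivity)]
  have hL2 : (0 : ℝ) < (L : ℝ) + 2 := by positivity
  have h7 : (L + 2 : ℝ) * 2 ^ L ≤ (L + 2) * (T * (64 * C0 ^ 2)) := by
    linarith
  exact le_of_mul_le_mul_left h7 hL2

lemma blkaux_bpow0 {X : Type*} [NormedAddCommGroup X] [NormedSpace ℂ X] {F M : X →L[ℂ] X}
    (hFM : Commute F M) (k : ℕ) :
    ((4 : ℂ) • (F * M)) ^ k = ((4 : ℂ) ^ k) • (M ^ k * F ^ k) := by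
  rw [smul_pow, hFM.mul_pow, (hFM.pow_pow k k).eq]

/-- powers of `4 F M` on constants -/
lemma blkaux_bpow {R : ℕ} {F M : Blk Y R →L[ℂ] Blk Y R} {B : Y →L[ℂ] Y}
    (hF : ∀ (f : Blk Y R) (r : Fin R), (F f) r = B (f r)) (hFM : Commute F M) (k : ℕ) (v : Y) :
    (((4 : ℂ) • (F * M)) ^ k) (WithLp.toLp p43 (fun _ : Fin R => v)) =
      ((4 : ℂ) ^ k) • ((M ^ k) (WithLp.toLp p43 (fun _ : Fin R => (B ^ k) v))) := by
  rw [blkaux_bpow0 hFM, smul_apply, mul_apply_eq_comp]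
  congr 2
  refine PiLp.ext fun r => ?_
  rw [blkaux_Fpow hF]

/-- growth of the block semigroup -/
lemma blkaux_growth [CompleteSpace Y] {C : Set Y} {u : Y} {τ : Y →L[ℂ] ℂ} {C0 : ℝ} {L : ℕ}
    {ε : ℝ} {m : ℕ} {σ : Y ≃ₗᵢ[ℂ] Y} {B : Y →L[ℂ] Y} {v : Y} {h : ℕ → (Y →L[ℂ] ℂ)} {κ : ℝ}
    (hB : Base C u τ C0 L ε m σ B v h κ) (hL : 2 ≤ L) (hC0 : 1 ≤ C0)
    {R : ℕ} (hR : R = 2 * L * m) {S F M b : Blk Y R →L[ℂ] Blk Y R}
    (hS : ∀ (f : Blk Y R) (r : ℕ) (hr : r < R), (S f) ⟨r, hr⟩ =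
        if 0 < r then f ⟨r - 1, by omega⟩ else σ (f ⟨R - 1, by omega⟩))
    (hF : ∀ (f : Blk Y R) (r : Fin R), (F f) r = B (f r))
    (hM : M = (R : ℂ)⁻¹ • ∑ b ∈ Finset.range R, S ^ b)
    (hFM : Commute F M) (hb : b = (4 : ℂ) • (F * M)) (hcomm : S * b = b * S)
    (hbL : b ^ L = 0) :
    2 ^ L / (64 * C0 ^ 2) ≤
      ‖NormedSpace.exp ((L : ℂ) • (((m * R : ℕ) : ℂ) • (S - 1) + b - 1))‖ := by
  have hm1 : 1 ≤ m := by have := hB.hm; omega
  have hR1 : 1 ≤ R := by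
    rw [hR]
    exact Nat.mul_pos (by omega) hm1
  have hm := hB.hm
  set W : Finset ℕ := insert (m - 1) (Finset.range (L + 1)) with hW
  have hWm : W ⊆ Finset.range m := by
    intro a ha
    rw [hW, Finset.mem_insert, Finset.mem_range] at ha
    rw [Finset.mem_range]
    omega
  have hWc : W.card = L + 2 := by
    rw [hW, Finset.card_insert_of_notMem, Finset.card_range]
    rw [Finset.mem_range]
    omega
  set H : Y →L[ℂ] ℂ := ∑ a ∈ W, h a with hH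
  have hHn : ‖H‖ ≤ C0 * (L + 2) := by
    have := hB.hW W hWm
    rw [hWc] at this
    push_cast at this
    exact this
  have hκ0 : 0 ≤ κ := le_trans (by positivity) hB.hk
  -- values of the functional
  have hH0 : ∀ k < L - 1, ∀ j, H (σ^[j] ((B ^ k) v)) = 0 := by
    intro k hk j
    rw [hH, sum_apply]
    refine Finset.sum_eq_zero fun a ha => ?_
    exact hB.h1 a (Finset.mem_range.1 (hWm ha)) j k hk
  have hH1 : ∀ j, H (σ^[j] ((B ^ (L - 1)) v)) = if j % m ∈ W then (κ : ℂ) else 0 := by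
    intro j
    rw [hH, sum_apply]
    have : ∀ a ∈ W, h a (σ^[j] ((B ^ (L - 1)) v)) = if j % m = a then (κ : ℂ) else 0 := fun a ha =>
      hB.h2 a (Finset.mem_range.1 (hWm ha)) j
    rw [Finset.sum_congr rfl this, Finset.sum_ite_eq]
  set Θ := blkaux_Theta R H with hΘ
  have hbp : ∀ k, (b ^ k) (WithLp.toLp p43 (fun _ : Fin R => v)) =
      ((4 : ℂ) ^ k) • ((M ^ k) (WithLp.toLp p43 (fun _ : Fin R => (B ^ k) v))) := fun k => by
    rw [hb]
    exact blkaux_bpow hF hFM k v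
  have g0 : ∀ k < L - 1, ∀ j,
      Θ ((S ^ j) ((b ^ k) (WithLp.toLp p43 (fun _ : Fin R => v)))) = 0 := by
    intro k hk j
    obtain ⟨a, ha, _, ha2⟩ := window R hR1 σ S hS M hM H ((B ^ k) v) (fun _ => 0)
      (fun i => by rw [hH0 k hk i]; simp) (fun _ => le_rfl) 0 0 (j + k * (R - 1) + (R - 1))
      (fun _ _ _ => rfl) j k
    have ha3 : a = 0 := by
      refine ha2 (by simp) ?_
      have : j + k * (R - 1) + (R - 1) + 1 ≤ (j + k * (R - 1) + (R - 1) + 1) * R :=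
        Nat.le_mul_of_pos_right _ hR1
      omega
    rw [hbp k, map_smul, map_smul, hΘ, blkaux_Theta_apply, ha, ha3]
    simp
  have g1 : ∀ j, ∃ a : ℝ, Θ ((S ^ j) ((b ^ (L - 1))
      (WithLp.toLp p43 (fun _ : Fin R => v)))) = (a : ℂ) ∧ 0 ≤ a ∧
      (L * (m * R) - R ≤ j → j ≤ L * (m * R) + R → a = 4 ^ (L - 1) * κ) := by
    intro j
    obtain ⟨a, ha, ha1, ha2⟩ := window R hR1 σ S hS M hM H ((B ^ (L - 1)) v)
      (fun i => if i % m ∈ W then κ else 0)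
      (fun i => by rw [hH1 i]; split_ifs <;> simp)
      (fun i => by
        split_ifs
        · exact hκ0
        · exact le_rfl) κ (L * m - 1) (L * m + L)
      (fun i hi1 hi2 => by
        rw [if_pos]
        rw [hW, Finset.mem_insert, Finset.mem_range]
        have hLm : 1 ≤ L * m := Nat.mul_pos (by omega) hm1
        rcases Nat.lt_or_ge i (L * m) with h3 | h3
        · left
          have h4 : i = (m - 1) + m * (L - 1) := by
            obtain ⟨l, rfl⟩ : ∃ l, L = l + 1 := ⟨L - 1, by omega⟩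
            rw [Nat.add_sub_cancel]
            have : (l + 1) * m = m * l + m := by ring
            omega
          rw [h4, Nat.add_mul_mod_self_left, Nat.mod_eq_of_lt (by omega)]
        · right
          obtain ⟨t, rfl⟩ := Nat.exists_eq_add_of_le h3
          rw [mul_comm L m, Nat.mul_add_mod, Nat.mod_eq_of_lt (by omega)]
          omega) j (L - 1)
    refine ⟨4 ^ (L - 1) * a, ?_, by positivity, fun hj1 hj2 => ?_⟩
    · rw [hbp (L - 1), map_smul, map_smul, hΘ, blkaux_Theta_apply, ha]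
      push_cast
      rw [smul_eq_mul]
    · rw [ha2 ?_ ?_]
      · have e1 : (L * m - 1) * R = L * (m * R) - R := by
          rw [Nat.sub_mul, one_mul, mul_assoc]
        rw [e1]
        exact hj1
      · obtain ⟨l, rfl⟩ : ∃ l, L = l + 1 := ⟨L - 1, by omega⟩
        obtain ⟨q, rfl⟩ : ∃ q, R = q + 1 := ⟨R - 1, by omega⟩
        simp only [Nat.add_sub_cancel]
        nlinarith
  have hgr := blkaux_growth0 S b (m * R) L R (by omega) hcomm hbL Θ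
    (WithLp.toLp p43 (fun _ : Fin R => v)) (4 ^ (L - 1) * κ) (by positivity) (by
      rw [hR]
      refine le_of_eq ?_
      ring) g0 g1
  set T := ‖NormedSpace.exp ((L : ℂ) • (((m * R : ℕ) : ℂ) • (S - 1) + b - 1))‖ with hT
  refine blkaux_numeric hL hC0 hB.hk (hgr.trans ?_)
  refine (blkaux_Theta_norm hR1 H _).trans ?_
  have hv := blk_const R v
  have e1 : (R : ℝ) ^ (-(3 / 4) : ℝ) * (R : ℝ) ^ (3 / 4 : ℝ) = 1 := by
    have hR0 : (0 : ℝ) < R := by exact_mod_cast hR1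
    rw [← Real.rpow_add hR0]
    norm_num
  have h2 : ‖(NormedSpace.exp ((L : ℂ) • (((m * R : ℕ) : ℂ) • (S - 1) + b - 1)))
      (WithLp.toLp p43 (fun _ : Fin R => v))‖ ≤ T * ((R : ℝ) ^ (3 / 4 : ℝ) * C0) := by
    refine (ContinuousLinearMap.le_opNorm _ _).trans ?_
    rw [hv]
    gcongr
    exact hB.vn
  have h3 : (R : ℝ) ^ (-(3 / 4) : ℝ) * ‖(NormedSpace.exp ((L : ℂ) •
      (((m * R : ℕ) : ℂ) • (S - 1) + b - 1))) (WithLp.toLp p43 (fun _ : Fin R => v))‖ ≤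
      T * C0 := by
    refine (mul_le_mul_of_nonneg_left h2 (by positivity)).trans (le_of_eq ?_)
    linear_combination (T * C0) * e1
  exact mul_le_mul hHn h3 (by positivity) (by positivity)

lemma blkaux_commM {X : Type*} [NormedAddCommGroup X] [NormedSpace ℂ X] {S T : X →L[ℂ] X}
    (h : Commute T S) (R : ℕ) : Commute T ((R : ℂ)⁻¹ • ∑ b ∈ Finset.range R, S ^ b) :=
  (Commute.sum_right _ _ _ fun b _ => h.pow_right b).smul_right _

lemma blkaux_commb {X : Type*} [NormedAddCommGroup X] [NormedSpace ℂ X] {S F M : X →L[ℂ] X}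
    (h : Commute S F) (h' : Commute S M) : S * ((4 : ℂ) • (F * M)) = ((4 : ℂ) • (F * M)) * S :=
  ((h.mul_right h').smul_right (4 : ℂ)).eq

lemma blkaux_bn {X : Type*} [NormedAddCommGroup X] [NormedSpace ℂ X] {F M : X →L[ℂ] X}
    {C0 : ℝ} (hF : ‖F‖ ≤ C0) (hM : ‖M‖ ≤ 1) : ‖(4 : ℂ) • (F * M)‖ ≤ 4 * C0 := by
  rw [norm_smul]
  have h4 : ‖(4 : ℂ)‖ = 4 := by simp
  rw [h4]
  have h0 : 0 ≤ C0 := (norm_nonneg F).trans hF
  have h1 : ‖F * M‖ ≤ C0 * 1 := by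
    refine (norm_mul_le _ _).trans ?_
    exact mul_le_mul hF hM (norm_nonneg _) h0
  linarith

lemma blkaux_bL {X : Type*} [NormedAddCommGroup X] [NormedSpace ℂ X] {F M : X →L[ℂ] X}
    (hFM : Commute F M) {L : ℕ} (hL : F ^ L = 0) : ((4 : ℂ) • (F * M)) ^ L = 0 := by
  rw [blkaux_bpow0 hFM, hL, mul_zero, smul_zero]

lemma blkaux_Au {X : Type*} [NormedAddCommGroup X] [NormedSpace ℂ X] {S b : X →L[ℂ] X}
    {w : X} (hS : S w = w) (hb : b w = 0) (N : ℂ) :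
    (N • (S - 1) + b - 1) w = - w := by
  rw [sub_apply, add_apply, smul_apply, sub_apply, hS, hb]
  simp

end blockaux

theorem block {Y : Type} [NormedAddCommGroup Y] [NormedSpace ℂ Y] [CompleteSpace Y] {C : Set Y}
    {u : Y} {τ : Y →L[ℂ] ℂ} {C0 : ℝ} {L : ℕ} {ε : ℝ} {m : ℕ} {σ : Y ≃ₗᵢ[ℂ] Y} {B : Y →L[ℂ] Y}
    {v : Y} {h : ℕ → (Y →L[ℂ] ℂ)} {κ : ℝ} (hC : Cone C u)
    (hB : Base C u τ C0 L ε m σ B v h κ) (hL : 2 ≤ L) (hC0 : 1 ≤ C0) (hε : 0 ≤ ε)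
    (hε1 : ε ≤ 1 / 4) :
    ∃ R : ℕ, 1 ≤ R ∧ ∃ A : Blk Y R →L[ℂ] Blk Y R,
      (∀ t : ℝ, 0 ≤ t → ‖NormedSpace.exp ((t : ℂ) • A)‖ ≤ Real.exp (4 * C0 * t)) ∧
      (∀ z : ℂ, 0 < z.re → ∃ Q : Blk Y R →L[ℂ] Blk Y R,
        Q * (z • 1 - A) = 1 ∧ (z • 1 - A) * Q = 1 ∧ ‖Q‖ ≤ 2) ∧
      A (WithLp.toLp p43 (fun _ => u)) = - WithLp.toLp p43 (fun _ => u) ∧
      (∀ f, ∑ r, τ ((A f) r) = - ∑ r, τ (f r)) ∧
      (∀ g : Blk Y R, (∀ r, g r ∈ C) → ∀ t : ℝ, 0 ≤ t → ∀ r,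
        (NormedSpace.exp ((t : ℂ) • A) g) r +
          ((4 * ε * (R : ℝ) ^ (-(3 / 4) : ℝ) * (2 * (4 * C0 + 1)) ^ L * ‖g‖ *
            Real.exp (-t / 2) : ℝ) : ℂ) • u ∈ C) ∧
      2 ^ L / (64 * C0 ^ 2) ≤ ‖NormedSpace.exp ((L : ℂ) • A)‖ := by
  have hm := hB.hm
  obtain ⟨R, hRd⟩ : ∃ R, R = 2 * L * m := ⟨_, rfl⟩
  have hR : 1 ≤ R := by
    rw [hRd]
    exact Nat.mul_pos (by omega) (by omega)
  obtain ⟨S, hS1, hS, hP⟩ := exists_shift R hR σ
  have hC00 : 0 ≤ C0 := by linarith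
  obtain ⟨F, hFn, hF⟩ := exists_fib R B C0 hC00 (fun y => (B.le_opNorm y).trans
    (mul_le_mul_of_nonneg_right hB.Bn (norm_nonneg _)))
  obtain ⟨M, hM⟩ : ∃ M : Blk Y R →L[ℂ] Blk Y R,
    M = (R : ℂ)⁻¹ • ∑ b ∈ Finset.range R, S ^ b := ⟨_, rfl⟩
  obtain ⟨b, hb⟩ : ∃ b : Blk Y R →L[ℂ] Blk Y R, b = (4 : ℂ) • (F * M) := ⟨_, rfl⟩
  have hSF : Commute S F := blkaux_SF hS hF hB.Bs
  have hSM : Commute S M := by
    rw [hM]
    exact blkaux_commM (Commute.refl S) R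
  have hFM : Commute F M := by
    rw [hM]
    exact blkaux_commM hSF.symm R
  have hcomm : S * b = b * S := by
    rw [hb]
    exact blkaux_commb hSF hSM
  have hSN : S ^ (m * R) = 1 := blkaux_SN hP hB.sm
  have hMn : ‖M‖ ≤ 1 := by
    rw [hM]
    exact blkaux_Mle hS1 hR
  have hbn : ‖b‖ ≤ 4 * C0 := by
    rw [hb]
    exact blkaux_bn hFn hMn
  have hFL : F ^ L = 0 := by
    refine blkaux_ext fun f r => ?_
    rw [blkaux_Fpow hF, hB.nil]
    rfl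
  have hbL : b ^ L = 0 := by
    rw [hb]
    exact blkaux_bL hFM hFL
  have hm1 : 1 ≤ m := by omega
  have hN1 : 1 ≤ m * R := Nat.mul_pos hm1 hR
  -- the constant function
  have hSJ : S (WithLp.toLp p43 (fun _ : Fin R => u)) = WithLp.toLp p43 (fun _ : Fin R => u) :=
    blkaux_SJ hS hB.su
  have hMJ : M (WithLp.toLp p43 (fun _ : Fin R => u)) = WithLp.toLp p43 (fun _ : Fin R => u) := by
    rw [hM]
    exact blkaux_Mfix hSJ hR
  have hbapp : ∀ (g : Blk Y R) (r : Fin R), (b g) r = (4 : ℂ) • B ((M g) r) := by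
    intro g r
    rw [hb, smul_apply, PiLp.smul_apply, mul_apply_eq_comp, hF]
  have hbJ : b (WithLp.toLp p43 (fun _ : Fin R => u)) = 0 := by
    refine PiLp.ext fun r => ?_
    rw [hbapp, hMJ]
    change (4 : ℂ) • B u = 0
    rw [hB.Bu, smul_zero]
  refine ⟨R, hR, ((m * R : ℕ) : ℂ) • (S - 1) + b - 1, ?_, ?_, ?_, ?_, ?_, ?_⟩
  · intro t ht
    exact exp_A_norm S b (m * R) hcomm hS1 (4 * C0) hbn t ht
  · intro z hz
    refine resolvent_lemma S b (m * R) hN1 hS1 hSN hcomm (fun ζ hζ => ?_) z hz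
    rw [hb, hM]
    exact blkaux_hb hR hS1 hP hF hB.av ζ hζ
  · exact blkaux_Au hSJ hbJ _
  · intro f
    have h1 : ∑ r, τ ((S f) r) = ∑ r, τ (f r) := blkaux_sumS hR hS (fun y => τ y) hB.ts f
    have h2 : ∀ r, τ (((((m * R : ℕ) : ℂ) • (S - 1) + b - 1) f) r) =
        ((m * R : ℕ) : ℂ) * (τ ((S f) r) - τ (f r)) - τ (f r) := by
      intro r
      have e1 : ((((m * R : ℕ) : ℂ) • (S - 1) + b - 1) f) r =
          ((m * R : ℕ) : ℂ) • ((S f) r - f r) + (b f) r - f r := by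
        rw [sub_apply, add_apply, smul_apply, sub_apply]
        rfl
      rw [e1, hbapp, map_sub, map_add, map_smul, map_smul, hB.tB, map_sub, smul_zero, add_zero,
        smul_eq_mul]
    rw [Finset.sum_congr rfl fun r _ => h2 r, Finset.sum_sub_distrib, ← Finset.mul_sum,
      Finset.sum_sub_distrib, h1]
    simp
  · intro g hg t ht
    have hR0 : (0 : ℝ) < R := by exact_mod_cast hR
    have hSK : ∀ x ∈ {g : Blk Y R | ∀ r, g r ∈ C}, S x ∈ {g : Blk Y R | ∀ r, g r ∈ C} := by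
      intro x hx r
      obtain ⟨r, hr⟩ := r
      rw [hS]
      split_ifs
      · exact hx _
      · exact hB.sC _ (hx _)
    have hSkK : ∀ (k : ℕ), ∀ x ∈ {g : Blk Y R | ∀ r, g r ∈ C},
        (S ^ k) x ∈ {g : Blk Y R | ∀ r, g r ∈ C} := by
      intro k
      induction k with
      | zero => intro x hx; simpa using hx
      | succ k ih =>
        intro x hx
        rw [pow_succ, mul_apply_eq_comp]
        exact ih _ (hSK x hx)
    have hMK : ∀ x : Blk Y R, (∀ r, x r ∈ C) → ∀ r, (M x) r ∈ C := by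
      intro x hx r
      rw [hM, blkaux_Mapp]
      have h3 : ∀ n, ∑ b ∈ Finset.range n, ((S ^ b) x) r ∈ C := by
        intro n
        induction n with
        | zero => simpa using hC.zero
        | succ n ih =>
          rw [Finset.sum_range_succ]
          exact hC.add _ ih _ (hSkK n x hx r)
      have h4 := hC.smul _ (h3 R) ((R : ℝ)⁻¹) (by positivity)
      have h5 : (((R : ℝ)⁻¹ : ℝ) : ℂ) = (R : ℂ)⁻¹ := by push_cast; rfl
      rw [h5] at h4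
      exact h4
    have h6 := near_pos {g : Blk Y R | ∀ r, g r ∈ C} (blkaux_closed hC.closed)
      (fun _ => hC.zero) (fun x hx y hy r => hC.add _ (hx r) _ (hy r))
      (fun x hx s hs r => hC.smul _ (hx r) s hs) S b (m * R) hcomm
      (WithLp.toLp p43 (fun _ : Fin R => u)) (fun _ => hC.unit) hSK hSJ hbJ L hbL (4 * C0)
      (by linarith) hbn (4 * ε * (R : ℝ) ^ (-(3 / 4) : ℝ)) (by positivity) ?_ ?_ g hg t ht
    · intro r
      exact h6 r
    · rw [blk_const]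
      have e1 : (R : ℝ) ^ (-(3 / 4) : ℝ) * (R : ℝ) ^ (3 / 4 : ℝ) = 1 := by
        rw [← Real.rpow_add hR0]
        norm_num
      have e2 : 4 * ε * (R : ℝ) ^ (-(3 / 4) : ℝ) * ((R : ℝ) ^ (3 / 4 : ℝ) * ‖u‖) =
          4 * ε * ‖u‖ := by linear_combination (4 * ε * ‖u‖) * e1
      rw [e2]
      have := hC.norm_unit
      nlinarith [norm_nonneg u]
    · intro x hx r
      have h7 : (b x + ((4 * ε * (R : ℝ) ^ (-(3 / 4) : ℝ) * ‖x‖ : ℝ) : ℂ) •
          (WithLp.toLp p43 (fun _ : Fin R => u) : Blk Y R)) r =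
          (b x) r + ((4 * ε * (R : ℝ) ^ (-(3 / 4) : ℝ) * ‖x‖ : ℝ) : ℂ) • u := rfl
      rw [h7, hbapp]
      have h8 := hB.np ((M x) r) (hMK x hx r)
      have h9 := hC.smul _ h8 4 (by norm_num)
      have h10 : ‖(M x) r‖ ≤ (R : ℝ) ^ (-(3 / 4) : ℝ) * ‖x‖ := by
        rw [hM]
        exact blkaux_Mnorm hR hP x r
      have h11 := hC.smul u hC.unit
        (4 * ε * (R : ℝ) ^ (-(3 / 4) : ℝ) * ‖x‖ - 4 * (ε * ‖(M x) r‖)) (by nlinarith)
      have h12 := hC.add _ h9 _ h11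
      have h13 : ((4 : ℝ) : ℂ) • (B ((M x) r) + ((ε * ‖(M x) r‖ : ℝ) : ℂ) • u) +
          ((4 * ε * (R : ℝ) ^ (-(3 / 4) : ℝ) * ‖x‖ - 4 * (ε * ‖(M x) r‖) : ℝ) : ℂ) • u =
          (4 : ℂ) • B ((M x) r) + ((4 * ε * (R : ℝ) ^ (-(3 / 4) : ℝ) * ‖x‖ : ℝ) : ℂ) • u := by
        rw [Complex.ofReal_sub, sub_smul, smul_add, smul_smul, ← Complex.ofReal_mul]
        rw [Complex.ofReal_ofNat]
        abel
      rw [h13] at h12
      exact h12
  · exact blkaux_growth hB hL hC0 hRd hS hF hM hFM hb hcomm hbL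

end Pool.Agent.Helper86.NC
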