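import Mathlib

set_option autoImplicit false

open scoped ENNReal NNReal InnerProductSpace Topology
open Filter

namespace Pool.Agent.Helper86.NC

/-! ### `C₀`-semigroups -/

section Semigroup

variable {E : Type*} [NormedAddCommGroup E] [NormedSpace ℂ E]

/-- `T` (restricted to `t ≥ 0`) is a `C₀`-semigroup. -/
structure IsC0 (T : ℝ → E →L[ℂ] E) : Prop where
  zero : T 0 = 1
  add : ∀ s t : ℝ, 0 ≤ s → 0 ≤ t → T (s + t) = T s * T t
  cont : ∀ f : E, Tendsto (fun t => T t f) (𝓝[>] (0 : ℝ)) (𝓝 f)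

/-- `f` lies in the domain of the generator `A` of `T`, and `A f = g`. -/
def IsGen (T : ℝ → E →L[ℂ] E) (f g : E) : Prop :=
  Tendsto (fun t : ℝ => (t : ℂ)⁻¹ • (T t f - f)) (𝓝[>] (0 : ℝ)) (𝓝 g)

/-- `z` lies in the resolvent set of the generator of `T`: the operator `z - A` from the domain
of `A` onto `E` has the bounded inverse `R`. -/
def InResolvent (T : ℝ → E →L[ℂ] E) (z : ℂ) : Prop :=
  ∃ R : E →L[ℂ] E, (∀ f, IsGen T (R f) (z • R f - f)) ∧
    ∀ f g, IsGen T f g → R (z • f - g) = f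

/-- The spectral bound of the generator of `T` (`-∞` if the spectrum is empty). -/
noncomputable def spectralBound (T : ℝ → E →L[ℂ] E) : EReal :=
  sSup {r : EReal | ∃ z : ℂ, ¬ InResolvent T z ∧ r = ((z.re : ℝ) : EReal)}

/-- The growth bound of `T`. -/
noncomputable def growthBound (T : ℝ → E →L[ℂ] E) : EReal :=
  sInf {r : EReal | ∃ w : ℝ, r = (w : EReal) ∧
    ∃ M : ℝ, ∀ t : ℝ, 0 ≤ t → ‖T t‖ ≤ M * Real.exp (w * t)}

/-- Individual eventual positivity with respect to the cone `K`. -/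
def IndEvPos (K : Set E) (T : ℝ → E →L[ℂ] E) : Prop :=
  ∀ f ∈ K, ∃ t₀ : ℝ, 0 ≤ t₀ ∧ ∀ t : ℝ, t₀ ≤ t → T t f ∈ K

end Semigroup

/-! ### Noncommutative `L^p`-spaces of a finite von Neumann algebra -/

section NCLp

variable {H : Type*} [NormedAddCommGroup H] [InnerProductSpace ℂ H] [CompleteSpace H]

/-- The functional `τ(x) = ⟪Ω, x Ω⟫` is a faithful tracial state of the von Neumann algebra `M`
(it is normal since it is a vector state). -/
structure IsTracialVector (M : VonNeumannAlgebra H) (Ω : H) : Prop where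
  norm_eq_one : ‖Ω‖ = 1
  trace : ∀ x ∈ M, ∀ y ∈ M, ⟪Ω, (x * y) Ω⟫_ℂ = ⟪Ω, (y * x) Ω⟫_ℂ
  faithful : ∀ x ∈ M, ⟪Ω, (star x * x) Ω⟫_ℂ = 0 → x = 0

/-- `‖x‖_p = τ(|x|^p)^{1/p}`, where `τ(x) = ⟪Ω, x Ω⟫`. -/
noncomputable def lpNorm (Ω : H) (p : ℝ) (x : H →L[ℂ] H) : ℝ :=
  (⟪Ω, (CFC.abs x ^ p) Ω⟫_ℂ).re ^ (1 / p)

/-- The Banach space `E`, with the map `ι`, is the noncommutative `L^p`-space `L^p(M, τ)`, i.e.
the completion of `M` for the norm `‖x‖_p`. -/
structure IsLp (M : VonNeumannAlgebra H) (Ω : H) (p : ℝ) {E : Type*} [NormedAddCommGroup E]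
    [NormedSpace ℂ E] (ι : M.toStarSubalgebra →ₗ[ℂ] E) : Prop where
  complete : CompleteSpace E
  norm_map : ∀ x : M.toStarSubalgebra, ‖ι x‖ = lpNorm Ω p (x : H →L[ℂ] H)
  dense : DenseRange ι

/-- The positive cone of `L^p(M, τ)`: the closure of the positive elements of `M`. -/
def lpCone {M : VonNeumannAlgebra H} {E : Type*} [NormedAddCommGroup E]
    [NormedSpace ℂ E] (ι : M.toStarSubalgebra →ₗ[ℂ] E) : Set E :=
  closure {f | ∃ x : M.toStarSubalgebra, 0 ≤ (x : H →L[ℂ] H) ∧ ι x = f}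

end NCLp

end Pool.Agent.Helper86.NC
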