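import Mathlib
import Pool.Agent.Helper86.NC.Defs

set_option autoImplicit false

open scoped ENNReal NNReal InnerProductSpace Topology
open Filter

namespace Pool.Agent.Helper86.NC

section Semigroup

variable {E : Type*} [NormedAddCommGroup E] [NormedSpace ℂ E]

/-- rank one modification of a semigroup -/
noncomputable def rankOne (S : ℝ → E →L[ℂ] E) (α : E →L[ℂ] ℂ) (W : E) (t : ℝ) : E →L[ℂ] E :=
  S t + ((1 - Real.exp (-t) : ℝ) : ℂ) • (α.smulRight W)

end Semigroup

end Pool.Agent.Helper86.NC
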