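import Mathlib
import Pool.Agent.Helper86.NC.SemiDefs

set_option autoImplicit false

open scoped ENNReal NNReal InnerProductSpace Topology

open Filter

namespace Pool.Agent.Helper86.NC

section Semigroup

variable {E : Type*} [NormedAddCommGroup E] [NormedSpace ℂ E]

end Semigroup

section lpPart

variable {X : ℕ → Type} [∀ n, NormedAddCommGroup (X n)] [∀ n, NormedSpace ℂ (X n)]
  {p : ℝ≥0∞} [Fact (1 ≤ p)]

/-- dominated convergence in `ℓ^p`-sums -/
theorem lp_tendsto (hp : p ≠ ∞) {l : Filter ℝ} {u : ℝ → lp X p} {v : lp X p}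
    (h1 : ∀ n, Tendsto (fun t => (u t : ∀ n, X n) n) l (𝓝 ((v : ∀ n, X n) n)))
    (w : lp X p) (c : ℝ)
    (h2 : ∀ᶠ t in l, ∀ n, ‖(u t : ∀ n, X n) n‖ ≤ c * ‖(w : ∀ n, X n) n‖) :
    Tendsto u l (𝓝 v) := by
  rcases eq_or_neBot l with hl | hl
  · rw [hl]; exact tendsto_bot
  have hp1 : 0 < p := lt_of_lt_of_le one_pos (Fact.out : (1 : ℝ≥0∞) ≤ p)
  have hp0 : 0 < p.toReal := ENNReal.toReal_pos hp1.ne' hp
  have hv : ∀ n, ‖(v : ∀ n, X n) n‖ ≤ c * ‖(w : ∀ n, X n) n‖ := fun n =>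
    le_of_tendsto (h1 n).norm (h2.mono fun t h => h n)
  have hws : Summable fun n => ‖(w : ∀ n, X n) n‖ ^ p.toReal := (lp.memℓp w).summable hp0
  have hsum : Summable fun n => (2 * |c| * ‖(w : ∀ n, X n) n‖) ^ p.toReal := by
    have : (fun n => (2 * |c| * ‖(w : ∀ n, X n) n‖) ^ p.toReal) =
        fun n => (2 * |c|) ^ p.toReal * ‖(w : ∀ n, X n) n‖ ^ p.toReal := by
      funext n
      rw [Real.mul_rpow (by positivity) (norm_nonneg _)]
    rw [this]
    exact hws.mul_left _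
  have key : Tendsto (fun t => ∑' n, ‖((u t - v : lp X p) : ∀ n, X n) n‖ ^ p.toReal) l
      (𝓝 (∑' _ : ℕ, (0 : ℝ))) := by
    apply tendsto_tsum_of_dominated_convergence hsum
    · intro n
      have h3 : Tendsto (fun t => ‖(u t : ∀ n, X n) n - (v : ∀ n, X n) n‖) l (𝓝 0) := by
        rw [← tendsto_iff_norm_sub_tendsto_zero]
        exact h1 n
      have h4 := h3.rpow_const (p := p.toReal) (Or.inr hp0.le)
      rw [Real.zero_rpow hp0.ne'] at h4
      exact h4
    · filter_upwards [h2] with t ht n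
      rw [Real.norm_of_nonneg (by positivity)]
      apply Real.rpow_le_rpow (norm_nonneg _) _ hp0.le
      rw [lp.coeFn_sub, Pi.sub_apply]
      calc ‖(u t : ∀ n, X n) n - (v : ∀ n, X n) n‖ ≤
            ‖(u t : ∀ n, X n) n‖ + ‖(v : ∀ n, X n) n‖ := norm_sub_le _ _
        _ ≤ c * ‖(w : ∀ n, X n) n‖ + c * ‖(w : ∀ n, X n) n‖ := add_le_add (ht n) (hv n)
        _ ≤ |c| * ‖(w : ∀ n, X n) n‖ + |c| * ‖(w : ∀ n, X n) n‖ := by
            gcongr <;> exact le_abs_self c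
        _ = _ := by ring
  rw [tsum_zero] at key
  have h5 := key.rpow_const (p := 1 / p.toReal) (Or.inr (by positivity))
  rw [Real.zero_rpow (by positivity)] at h5
  rw [tendsto_iff_norm_sub_tendsto_zero]
  refine h5.congr fun t => ?_
  rw [lp.norm_eq_tsum_rpow hp0]

/-- diagonal operators on `ℓ^p`-sums -/
theorem exists_diag (hp : p ≠ ∞) (T : ∀ n, X n →L[ℂ] X n) (c : ℝ) (hc : 0 ≤ c)
    (hT : ∀ n, ‖T n‖ ≤ c) :
    ∃ D : lp X p →L[ℂ] lp X p, ‖D‖ ≤ c ∧
      ∀ (f : lp X p) (n : ℕ), (D f : ∀ n, X n) n = T n ((f : ∀ n, X n) n) := by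
  have hp1 : 0 < p := lt_of_lt_of_le one_pos (Fact.out : (1 : ℝ≥0∞) ≤ p)
  have hp0 : 0 < p.toReal := ENNReal.toReal_pos hp1.ne' hp
  have hb : ∀ (f : lp X p) (n : ℕ), ‖T n ((f : ∀ n, X n) n)‖ ^ p.toReal ≤
      c ^ p.toReal * ‖(f : ∀ n, X n) n‖ ^ p.toReal := by
    intro f n
    rw [← Real.mul_rpow hc (norm_nonneg _)]
    apply Real.rpow_le_rpow (norm_nonneg _) _ hp0.le
    exact ((T n).le_opNorm _).trans (by gcongr; exact hT n)
  have hmem : ∀ f : lp X p, Memℓp (fun n => T n ((f : ∀ n, X n) n)) p := by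
    intro f
    apply memℓp_gen
    exact Summable.of_nonneg_of_le (fun n => by positivity) (hb f)
      (((lp.memℓp f).summable hp0).mul_left _)
  let L : lp X p →ₗ[ℂ] lp X p :=
    { toFun := fun f => ⟨fun n => T n ((f : ∀ n, X n) n), hmem f⟩
      map_add' := fun f g => by
        apply Subtype.ext
        funext n
        show T n (((f + g : lp X p) : ∀ n, X n) n) = _
        rw [lp.coeFn_add, Pi.add_apply, map_add]
        rfl
      map_smul' := fun a f => by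
        apply Subtype.ext
        funext n
        show T n (((a • f : lp X p) : ∀ n, X n) n) = _
        rw [lp.coeFn_smul, Pi.smul_apply, map_smul]
        rfl }
  have hL : ∀ (f : lp X p) (n : ℕ), (L f : ∀ n, X n) n = T n ((f : ∀ n, X n) n) := fun f n => rfl
  have hbound : ∀ f : lp X p, ‖L f‖ ≤ c * ‖f‖ := by
    intro f
    apply lp.norm_le_of_forall_sum_le hp0 (by positivity)
    intro s
    calc ∑ i ∈ s, ‖(L f : ∀ n, X n) i‖ ^ p.toReal
        ≤ ∑ i ∈ s, c ^ p.toReal * ‖(f : ∀ n, X n) i‖ ^ p.toReal :=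
          Finset.sum_le_sum fun i _ => hb f i
      _ = c ^ p.toReal * ∑ i ∈ s, ‖(f : ∀ n, X n) i‖ ^ p.toReal := by rw [Finset.mul_sum]
      _ ≤ c ^ p.toReal * ‖f‖ ^ p.toReal := by
          gcongr
          exact lp.sum_rpow_le_norm_rpow hp0 f s
      _ = (c * ‖f‖) ^ p.toReal := by rw [Real.mul_rpow hc (norm_nonneg _)]
  exact ⟨L.mkContinuous c hbound, L.mkContinuous_norm_le hc hbound, fun f n => hL f n⟩

end lpPart

section diagPart

variable {X : ℕ → Type} [∀ n, NormedAddCommGroup (X n)] [∀ n, NormedSpace ℂ (X n)]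
  [∀ n, CompleteSpace (X n)] {p : ℝ≥0∞} [Fact (1 ≤ p)]

end diagPart

end Pool.Agent.Helper86.NC
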