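import Mathlib
import Pool.Agent.Helper86.NC.LpSum

set_option autoImplicit false

open scoped ENNReal NNReal InnerProductSpace Topology

open Filter

namespace Pool.Agent.Helper86.NC

section Semigroup

variable {E : Type*} [NormedAddCommGroup E] [NormedSpace ℂ E]

end Semigroup

section lpPart

variable {X : ℕ → Type} [∀ n, NormedAddCommGroup (X n)] [∀ n, NormedSpace ℂ (X n)]
  {p : ℝ≥0∞} [Fact (1 ≤ p)]

end lpPart

section diagPart

variable {X : ℕ → Type} [∀ n, NormedAddCommGroup (X n)] [∀ n, NormedSpace ℂ (X n)]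
  [∀ n, CompleteSpace (X n)] {p : ℝ≥0∞} [Fact (1 ≤ p)]

theorem exp_hasDeriv {Y : Type} [NormedAddCommGroup Y] [NormedSpace ℂ Y] [CompleteSpace Y]
    (A : Y →L[ℂ] Y) (g : Y) (t : ℝ) :
    HasDerivAt (fun s : ℝ => NormedSpace.exp ((s : ℂ) • A) g)
      (NormedSpace.exp ((t : ℂ) • A) (A g)) t := by
  have h1 : HasDerivAt (fun u : ℂ => NormedSpace.exp (u • A))
      (NormedSpace.exp ((t:ℂ) • A) * A) (t:ℂ) := hasDerivAt_exp_smul_const A (t:ℂ)
  have h2 : HasDerivAt (fun u : ℂ => NormedSpace.exp (u • A) g)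
      ((NormedSpace.exp ((t:ℂ) • A) * A) g) (t:ℂ) := by
    have := h1.clm_apply (hasDerivAt_const (t:ℂ) g)
    simpa using this
  have h3 : HasDerivAt (fun s : ℝ => (s : ℂ)) 1 t := by
    have h5 := Complex.ofRealCLM.hasDerivAt (x := t)
    rw [Complex.ofRealCLM_apply, Complex.ofReal_one] at h5
    exact h5
  have h4 := HasDerivAt.scomp t h2 h3
  rw [one_smul] at h4
  exact h4

theorem exp_zero_apply {Y : Type} [NormedAddCommGroup Y] [NormedSpace ℂ Y] [CompleteSpace Y]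
    (A : Y →L[ℂ] Y) (g : Y) : NormedSpace.exp (((0:ℝ) : ℂ) • A) g = g := by
  rw [Complex.ofReal_zero, zero_smul, NormedSpace.exp_zero]
  rfl

theorem exp_le {c0 t : ℝ} (h0 : 0 ≤ t) (h1 : t ≤ 1) : Real.exp (c0 * t) ≤ Real.exp |c0| := by
  refine Real.exp_le_exp.2 ?_
  nlinarith [le_abs_self c0, abs_nonneg c0, mul_le_mul_of_nonneg_right (le_abs_self c0) h0]

theorem exp_bound {Y : Type} [NormedAddCommGroup Y] [NormedSpace ℂ Y] [CompleteSpace Y]
    (A : Y →L[ℂ] Y) (c0 : ℝ)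
    (h1 : ∀ t : ℝ, 0 ≤ t → ‖NormedSpace.exp ((t : ℂ) • A)‖ ≤ Real.exp (c0 * t)) (g : Y) {t : ℝ}
    (ht0 : 0 ≤ t) (ht1 : t ≤ 1) : ‖NormedSpace.exp ((t : ℂ) • A) g‖ ≤ Real.exp |c0| * ‖g‖ := by
  refine (ContinuousLinearMap.le_opNorm _ _).trans ?_
  exact mul_le_mul_of_nonneg_right ((h1 t ht0).trans (exp_le ht0 ht1)) (norm_nonneg _)

theorem exp_sub_bound {Y : Type} [NormedAddCommGroup Y] [NormedSpace ℂ Y] [CompleteSpace Y]
    (A : Y →L[ℂ] Y) (c0 : ℝ)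
    (h1 : ∀ t : ℝ, 0 ≤ t → ‖NormedSpace.exp ((t : ℂ) • A)‖ ≤ Real.exp (c0 * t)) (g : Y) {t : ℝ}
    (ht0 : 0 ≤ t) (ht1 : t ≤ 1) :
    ‖NormedSpace.exp ((t : ℂ) • A) g - g‖ ≤ Real.exp |c0| * ‖A g‖ * t := by
  have h2 := norm_image_sub_le_of_norm_deriv_le_segment'
    (f := fun s : ℝ => NormedSpace.exp ((s : ℂ) • A) g)
    (f' := fun s : ℝ => NormedSpace.exp ((s : ℂ) • A) (A g)) (C := Real.exp |c0| * ‖A g‖)
    (a := 0) (b := 1) (fun x _ => (exp_hasDeriv A g x).hasDerivWithinAt)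
    (fun x hx => exp_bound A c0 h1 (A g) hx.1 hx.2.le) t ⟨ht0, ht1⟩
  simp only [exp_zero_apply, sub_zero] at h2
  exact h2

theorem diag_isC0 (hp : p ≠ ∞) (A : ∀ n, X n →L[ℂ] X n) (c0 : ℝ)
    (h1 : ∀ n, ∀ t : ℝ, 0 ≤ t → ‖NormedSpace.exp ((t : ℂ) • A n)‖ ≤ Real.exp (c0 * t))
    (S : ℝ → lp X p →L[ℂ] lp X p)
    (hS : ∀ t : ℝ, 0 ≤ t → ∀ (f : lp X p) (n : ℕ),
      (S t f : ∀ n, X n) n = NormedSpace.exp ((t : ℂ) • A n) ((f : ∀ n, X n) n)) :
    IsC0 S := by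
  refine ⟨?_, ?_, ?_⟩
  · ext f n
    rw [hS 0 le_rfl, exp_zero_apply]
    rfl
  · intro s t hs ht
    ext f n
    rw [hS _ (add_nonneg hs ht)]
    have h2 : ((S s * S t) f : ∀ n, X n) n = (S s (S t f) : ∀ n, X n) n := rfl
    rw [h2, hS s hs, hS t ht]
    let _ : NormedAlgebra ℚ (X n →L[ℂ] X n) := NormedAlgebra.restrictScalars ℚ ℂ _
    have h3 : NormedSpace.exp (((s + t : ℝ) : ℂ) • A n) =
        NormedSpace.exp ((s : ℂ) • A n) * NormedSpace.exp ((t : ℂ) • A n) := by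
      rw [Complex.ofReal_add, add_smul]
      exact NormedSpace.exp_add_of_commute (((Commute.refl (A n)).smul_left _).smul_right _)
    rw [h3]
    rfl
  · intro f
    refine lp_tendsto hp (u := fun t => S t f) (v := f) ?_ f (Real.exp |c0|) ?_
    · intro n
      have h2 : Tendsto (fun t : ℝ => NormedSpace.exp ((t : ℂ) • A n) ((f : ∀ n, X n) n))
          (𝓝[>] (0:ℝ)) (𝓝 ((f : ∀ n, X n) n)) := by
        have h3 := (exp_hasDeriv (A n) ((f : ∀ n, X n) n) 0).continuousAt.tendsto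
        simp only [exp_zero_apply] at h3
        exact h3.mono_left nhdsWithin_le_nhds
      refine h2.congr' ?_
      filter_upwards [self_mem_nhdsWithin] with t ht
      rw [hS t (le_of_lt ht)]
    · filter_upwards [Ioc_mem_nhdsGT (zero_lt_one' ℝ)] with t ht n
      rw [hS t ht.1.le]
      exact exp_bound (A n) c0 (h1 n) _ ht.1.le ht.2

theorem slope_tendsto {Y : Type} [NormedAddCommGroup Y] [NormedSpace ℂ Y] [CompleteSpace Y]
    (A : Y →L[ℂ] Y) (g : Y) :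
    Tendsto (fun t : ℝ => (t : ℂ)⁻¹ • (NormedSpace.exp ((t : ℂ) • A) g - g)) (𝓝[>] (0:ℝ))
      (𝓝 (A g)) := by
  have h := exp_hasDeriv A g 0
  rw [hasDerivAt_iff_tendsto_slope_zero] at h
  simp only [zero_add, exp_zero_apply] at h
  refine (h.mono_left (nhdsWithin_mono _ (fun x hx => ne_of_gt hx))).congr fun t => ?_
  rw [← Complex.ofReal_inv, Complex.coe_smul t⁻¹]

theorem diag_resolvent (hp : p ≠ ∞) (A : ∀ n, X n →L[ℂ] X n) (c0 : ℝ)
    (h1 : ∀ n, ∀ t : ℝ, 0 ≤ t → ‖NormedSpace.exp ((t : ℂ) • A n)‖ ≤ Real.exp (c0 * t))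
    (S : ℝ → lp X p →L[ℂ] lp X p)
    (hS : ∀ t : ℝ, 0 ≤ t → ∀ (f : lp X p) (n : ℕ),
      (S t f : ∀ n, X n) n = NormedSpace.exp ((t : ℂ) • A n) ((f : ∀ n, X n) n))
    (z : ℂ) (c1 : ℝ) (Q : ∀ n, X n →L[ℂ] X n) (hQ : ∀ n, ‖Q n‖ ≤ c1)
    (hQ1 : ∀ n, Q n * (z • 1 - A n) = 1) (hQ2 : ∀ n, (z • 1 - A n) * Q n = 1) :
    InResolvent S z := by
  have hc1 : 0 ≤ c1 := (norm_nonneg _).trans (hQ 0)
  obtain ⟨R, _, hR⟩ := exists_diag hp Q c1 hc1 hQ
  refine ⟨R, ?_, ?_⟩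
  · intro f
    obtain ⟨v, hv⟩ : ∃ v : lp X p, v = z • R f - f := ⟨_, rfl⟩
    have hvn : ∀ n, (v : ∀ n, X n) n = A n ((R f : ∀ n, X n) n) := by
      intro n
      have h2 : ((z • 1 - A n) * Q n) ((f : ∀ n, X n) n) = (f : ∀ n, X n) n := by
        rw [hQ2 n]; rfl
      have h3 : ((z • 1 - A n) * Q n) ((f : ∀ n, X n) n) =
          z • Q n ((f : ∀ n, X n) n) - A n (Q n ((f : ∀ n, X n) n)) := by
        simp [sub_mul]
      rw [h3, ← hR f n] at h2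
      have h4 : (v : ∀ n, X n) n = z • ((R f : ∀ n, X n) n) - (f : ∀ n, X n) n := by
        rw [hv]; rfl
      rw [h4]
      rw [sub_eq_iff_eq_add] at h2 ⊢
      rw [h2, add_comm]
    rw [← hv]
    unfold IsGen
    refine lp_tendsto hp (u := fun t : ℝ => (t : ℂ)⁻¹ • (S t (R f) - R f)) (v := v) ?_ v
      (Real.exp |c0|) ?_
    · intro n
      rw [hvn n]
      refine (slope_tendsto (A n) ((R f : ∀ n, X n) n)).congr' ?_
      filter_upwards [self_mem_nhdsWithin] with t ht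
      have h2 : (((t : ℂ)⁻¹ • (S t (R f) - R f) : lp X p) : ∀ n, X n) n =
        (t : ℂ)⁻¹ • ((S t (R f) : ∀ n, X n) n - (R f : ∀ n, X n) n) := rfl
      rw [h2, hS t (le_of_lt ht)]
    · filter_upwards [Ioc_mem_nhdsGT (zero_lt_one' ℝ)] with t ht n
      have h2 : (((t : ℂ)⁻¹ • (S t (R f) - R f) : lp X p) : ∀ n, X n) n =
        (t : ℂ)⁻¹ • ((S t (R f) : ∀ n, X n) n - (R f : ∀ n, X n) n) := rfl
      rw [h2, hS t ht.1.le, hvn n, norm_smul, norm_inv, Complex.norm_real, Real.norm_eq_abs,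
        abs_of_pos ht.1, inv_mul_le_iff₀ ht.1]
      have := exp_sub_bound (A n) c0 (h1 n) ((R f : ∀ n, X n) n) ht.1.le ht.2
      linarith
  · intro f g hfg
    ext n
    have hn : A n ((f : ∀ n, X n) n) = (g : ∀ n, X n) n := by
      have h2 : Tendsto (fun t : ℝ => (((t : ℂ)⁻¹ • (S t f - f) : lp X p) : ∀ n, X n) n)
          (𝓝[>] (0:ℝ)) (𝓝 ((g : ∀ n, X n) n)) := by
        have h3 : Continuous (fun x : lp X p => (x : ∀ n, X n) n) :=
          (continuous_apply n).comp lp.uniformContinuous_coe.continuous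
        exact (h3.tendsto g).comp hfg
      have h4 : Tendsto (fun t : ℝ => (((t : ℂ)⁻¹ • (S t f - f) : lp X p) : ∀ n, X n) n)
          (𝓝[>] (0:ℝ)) (𝓝 (A n ((f : ∀ n, X n) n))) := by
        refine (slope_tendsto (A n) ((f : ∀ n, X n) n)).congr' ?_
        filter_upwards [self_mem_nhdsWithin] with t ht
        have h2 : (((t : ℂ)⁻¹ • (S t f - f) : lp X p) : ∀ n, X n) n =
          (t : ℂ)⁻¹ • ((S t f : ∀ n, X n) n - (f : ∀ n, X n) n) := rfl
        rw [h2, hS t (le_of_lt ht)]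
      exact tendsto_nhds_unique h4 h2
    rw [hR]
    have h5 : ((z • f - g : lp X p) : ∀ n, X n) n = z • ((f : ∀ n, X n) n) - (g : ∀ n, X n) n := rfl
    rw [h5, ← hn]
    have h6 : (Q n * (z • 1 - A n)) ((f : ∀ n, X n) n) = (f : ∀ n, X n) n := by
      rw [hQ1 n]; rfl
    have h7 : (Q n * (z • 1 - A n)) ((f : ∀ n, X n) n) =
        Q n (z • ((f : ∀ n, X n) n) - A n ((f : ∀ n, X n) n)) := by
      rfl
    rw [← h7, h6]

end diagPart

end Pool.Agent.Helper86.NC
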