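import Mathlib
import Pool.Agent.Helper86.NC.SemiDefs

set_option autoImplicit false

open scoped ENNReal NNReal InnerProductSpace Topology

open Filter

namespace Pool.Agent.Helper86.NC

section Semigroup

variable {E : Type*} [NormedAddCommGroup E] [NormedSpace ℂ E]

theorem nc_lim : Tendsto (fun t : ℝ => (t : ℂ)⁻¹ * ((1 - Real.exp (-t) : ℝ) : ℂ))
    (𝓝[>] (0 : ℝ)) (𝓝 1) := by
  have h1 : HasDerivAt (fun t : ℝ => -Real.exp (-t)) 1 0 := by
    have h2 : HasDerivAt (fun t : ℝ => Real.exp (-t)) (Real.exp (-0) * (-1)) 0 :=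
      (Real.hasDerivAt_exp (-0)).comp 0 (hasDerivAt_neg 0)
    have h3 := h2.neg
    have e : -(Real.exp (-0) * (-1)) = (1:ℝ) := by rw [neg_zero, Real.exp_zero]; ring
    rw [e] at h3
    exact h3
  rw [hasDerivAt_iff_tendsto_slope_zero] at h1
  have h4 : Tendsto (fun t : ℝ => t⁻¹ * (1 - Real.exp (-t))) (𝓝[>] (0 : ℝ)) (𝓝 1) := by
    refine (h1.mono_left (nhdsWithin_mono _ (fun x hx => ne_of_gt hx))).congr (fun t => ?_)
    simp only [smul_eq_mul, zero_add, neg_zero, Real.exp_zero]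
    ring
  have h5 := (Complex.continuous_ofReal.tendsto 1).comp h4
  rw [Complex.ofReal_one] at h5
  refine h5.congr (fun t => ?_)
  simp only [Function.comp]
  push_cast
  ring

theorem rankOne_apply (S : ℝ → E →L[ℂ] E) (α : E →L[ℂ] ℂ) (W : E) (t : ℝ) (f : E) :
    rankOne S α W t f = S t f + (((1 - Real.exp (-t) : ℝ) : ℂ) * α f) • W := by
  unfold rankOne
  simp [smul_smul]

theorem isGen_rankOne (S : ℝ → E →L[ℂ] E) (α : E →L[ℂ] ℂ) (W : E) (f g : E) :
    IsGen (rankOne S α W) f g ↔ IsGen S f (g - α f • W) := by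
  have hlim : Tendsto (fun t : ℝ => ((t : ℂ)⁻¹ * ((1 - Real.exp (-t) : ℝ) : ℂ)) • (α f • W))
      (𝓝[>] (0 : ℝ)) (𝓝 ((1 : ℂ) • (α f • W))) := nc_lim.smul_const _
  rw [one_smul] at hlim
  have he : ∀ t : ℝ, (t : ℂ)⁻¹ • (rankOne S α W t f - f) = (t : ℂ)⁻¹ • (S t f - f) +
      ((t : ℂ)⁻¹ * ((1 - Real.exp (-t) : ℝ) : ℂ)) • (α f • W) := by
    intro t
    rw [rankOne_apply, add_sub_right_comm, smul_add, smul_smul, smul_smul, mul_assoc]
  unfold IsGen
  simp_rw [he]
  constructor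
  · intro h
    have := h.sub hlim
    simpa using this
  · intro h
    have := h.add hlim
    simpa using this

theorem IsGen.add' {S : ℝ → E →L[ℂ] E} {f g f' g' : E} (h : IsGen S f g) (h' : IsGen S f' g') :
    IsGen S (f + f') (g + g') := by
  unfold IsGen at *
  refine (h.add h').congr (fun t => ?_)
  rw [← smul_add, map_add]
  congr 1
  abel

theorem IsGen.smul' {S : ℝ → E →L[ℂ] E} {f g : E} (h : IsGen S f g) (c : ℂ) :
    IsGen S (c • f) (c • g) := by
  unfold IsGen at *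
  refine (h.const_smul c).congr (fun t => ?_)
  rw [map_smul, ← smul_sub, smul_comm]

theorem IsGen.alpha {S : ℝ → E →L[ℂ] E} (α : E →L[ℂ] ℂ)
    (hα : ∀ t : ℝ, 0 ≤ t → ∀ f, α (S t f) = ((Real.exp (-t) : ℝ) : ℂ) * α f)
    {f g : E} (h : IsGen S f g) : α g = - α f := by
  have h1 : Tendsto (fun t : ℝ => α ((t : ℂ)⁻¹ • (S t f - f))) (𝓝[>] (0 : ℝ)) (𝓝 (α g)) :=
    (α.continuous.tendsto g).comp h
  have h2 : Tendsto (fun t : ℝ => ((t : ℂ)⁻¹ * ((1 - Real.exp (-t) : ℝ) : ℂ)) * (- α f))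
      (𝓝[>] (0 : ℝ)) (𝓝 (1 * (- α f))) := nc_lim.mul_const _
  rw [one_mul] at h2
  refine tendsto_nhds_unique h1 (h2.congr' ?_)
  filter_upwards [self_mem_nhdsWithin] with t ht
  rw [map_smul, map_sub, hα t (le_of_lt ht), smul_eq_mul]
  push_cast
  ring

theorem isGen_W {S : ℝ → E →L[ℂ] E} (W : E)
    (hW : ∀ t : ℝ, 0 ≤ t → S t W = ((Real.exp (-t) : ℝ) : ℂ) • W) : IsGen S W (-W) := by
  have h2 : Tendsto (fun t : ℝ => ((t : ℂ)⁻¹ * ((1 - Real.exp (-t) : ℝ) : ℂ)) • (- W))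
      (𝓝[>] (0 : ℝ)) (𝓝 ((1 : ℂ) • (- W))) := nc_lim.smul_const _
  rw [one_smul] at h2
  refine h2.congr' ?_
  filter_upwards [self_mem_nhdsWithin] with t ht
  rw [hW t (le_of_lt ht)]
  have : ((Real.exp (-t) : ℝ) : ℂ) • W - W = ((1 - Real.exp (-t) : ℝ) : ℂ) • (-W) := by
    push_cast
    rw [sub_smul, one_smul, smul_neg]
    abel
  rw [this, smul_smul]

theorem rankOne_isC0 {S : ℝ → E →L[ℂ] E} (hS : IsC0 S) (α : E →L[ℂ] ℂ) (W : E)
    (hW : ∀ t : ℝ, 0 ≤ t → S t W = ((Real.exp (-t) : ℝ) : ℂ) • W)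
    (hα : ∀ t : ℝ, 0 ≤ t → ∀ f, α (S t f) = ((Real.exp (-t) : ℝ) : ℂ) * α f)
    (hαW : α W = 1) : IsC0 (rankOne S α W) := by
  refine ⟨?_, ?_, ?_⟩
  · ext f
    rw [rankOne_apply, hS.zero]
    simp
  · intro s t hs ht
    ext f
    show rankOne S α W (s + t) f = rankOne S α W s (rankOne S α W t f)
    have hmul : (S s * S t) f = S s (S t f) := rfl
    rw [rankOne_apply, rankOne_apply, rankOne_apply, hS.add s t hs ht,
      hmul, map_add, map_smul, map_add, map_smul, hW s hs, hα t ht f, hαW,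
      smul_smul, add_assoc, ← add_smul]
    congr 2
    have : Real.exp (-(s + t)) = Real.exp (-s) * Real.exp (-t) := by
      rw [← Real.exp_add]; congr 1; ring
    rw [this, smul_eq_mul]
    push_cast
    ring
  · intro f
    have h1 := hS.cont f
    have h2 : Tendsto (fun t : ℝ => (((1 - Real.exp (-t) : ℝ) : ℂ) * α f) • W) (𝓝[>] (0 : ℝ))
        (𝓝 ((((1 - Real.exp (-0) : ℝ) : ℂ) * α f) • W)) := by
      have hc : Continuous (fun t : ℝ => (((1 - Real.exp (-t) : ℝ) : ℂ) * α f) • W) := by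
        fun_prop
      exact (hc.tendsto 0).mono_left nhdsWithin_le_nhds
    have h3 := h1.add h2
    have e : f + (((1 - Real.exp (-0) : ℝ) : ℂ) * α f) • W = f := by simp
    rw [e] at h3
    refine h3.congr (fun t => ?_)
    rw [rankOne_apply]

theorem rankOne_resolvent {S : ℝ → E →L[ℂ] E} (α : E →L[ℂ] ℂ) (W : E)
    (hW : ∀ t : ℝ, 0 ≤ t → S t W = ((Real.exp (-t) : ℝ) : ℂ) • W)
    (hα : ∀ t : ℝ, 0 ≤ t → ∀ f, α (S t f) = ((Real.exp (-t) : ℝ) : ℂ) * α f)
    (hαW : α W = 1) (z : ℂ) (hz : 0 < z.re) (h : InResolvent S z) :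
    InResolvent (rankOne S α W) z := by
  obtain ⟨R, hR1, hR2⟩ := h
  have hz0 : z ≠ 0 := by
    rintro rfl
    simp at hz
  have hz1 : z + 1 ≠ 0 := by
    intro h0
    have := congrArg Complex.re h0
    simp at this
    linarith
  have hgW := isGen_W (S := S) W hW
  have hRT : ∀ f, (R.comp (ContinuousLinearMap.id ℂ E - α.smulRight W) + z⁻¹ • α.smulRight W) f =
      R (f - α f • W) + (z⁻¹ * α f) • W := by
    intro f
    simp [smul_smul]
  refine ⟨R.comp (ContinuousLinearMap.id ℂ E - α.smulRight W) + z⁻¹ • α.smulRight W, ?_, ?_⟩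
  · intro f
    rw [hRT, isGen_rankOne]
    set f' := f - α f • W with hf'
    have hαf' : α f' = 0 := by
      rw [hf', map_sub, map_smul, hαW, smul_eq_mul, mul_one, sub_self]
    have g1 := hR1 f'
    have hαR : α (R f') = 0 := by
      have := g1.alpha α hα
      rw [map_sub, map_smul, hαf', sub_zero, smul_eq_mul] at this
      have h2 : (z + 1) * α (R f') = 0 := by linear_combination this
      exact (mul_eq_zero.mp h2).resolve_left hz1
    have g2 := g1.add' (hgW.smul' (z⁻¹ * α f))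
    convert g2 using 1
    rw [map_add, map_smul, hαR, hαW, hf', smul_eq_mul, mul_one, zero_add, smul_add, smul_smul,
      ← mul_assoc, mul_inv_cancel₀ hz0, one_mul, smul_neg]
    abel
  · intro f g hfg
    rw [isGen_rankOne] at hfg
    have hαg : α g = 0 := by
      have := hfg.alpha α hα
      rw [map_sub, map_smul, hαW, smul_eq_mul, mul_one] at this
      linear_combination this
    have g1 : IsGen S (f - α f • W) g := by
      have := hfg.add' (hgW.smul' (-α f))
      convert this using 1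
      · rw [neg_smul, sub_eq_add_neg]
      · rw [smul_neg, neg_smul, neg_neg, sub_add_cancel]
    have h2 := hR2 _ _ g1
    have ha : α (z • f - g) = z * α f := by rw [map_sub, map_smul, hαg, sub_zero, smul_eq_mul]
    rw [hRT, ha, ← mul_assoc, inv_mul_cancel₀ hz0, one_mul]
    have e : z • f - g - (z * α f) • W = z • (f - α f • W) - g := by
      rw [smul_sub, smul_smul]; abel
    rw [e, h2]
    abel

end Semigroup

section lpPart

variable {X : ℕ → Type} [∀ n, NormedAddCommGroup (X n)] [∀ n, NormedSpace ℂ (X n)]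
  {p : ℝ≥0∞} [Fact (1 ≤ p)]

end lpPart

section diagPart

variable {X : ℕ → Type} [∀ n, NormedAddCommGroup (X n)] [∀ n, NormedSpace ℂ (X n)]
  [∀ n, CompleteSpace (X n)] {p : ℝ≥0∞} [Fact (1 ≤ p)]

end diagPart

end Pool.Agent.Helper86.NC
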