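import Mathlib
import Pool.Agent.Helper86.NC.RankOne
import Pool.Agent.Helper86.NC.Diag

set_option autoImplicit false

open scoped ENNReal NNReal InnerProductSpace Topology
open Filter

namespace Pool.Agent.Helper86.NC

variable {X : ℕ → Type} [∀ n, NormedAddCommGroup (X n)] [∀ n, NormedSpace ℂ (X n)]
  [∀ n, CompleteSpace (X n)] {p : ℝ≥0∞} [Fact (1 ≤ p)]

theorem exp_apply_eigen {Z : Type} [NormedAddCommGroup Z] [NormedSpace ℂ Z] [CompleteSpace Z]
    (T : Z →L[ℂ] Z) (v : Z) (μ : ℂ) (h : T v = μ • v) :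
    NormedSpace.exp T v = Complex.exp μ • v := by
  have hs := NormedSpace.exp_series_hasSum_exp' (𝕂 := ℂ) T
  have h1 := hs.mapL (ContinuousLinearMap.apply ℂ Z v)
  have h2 := (NormedSpace.exp_series_hasSum_exp' (𝕂 := ℂ) μ).smul_const v
  have hp : ∀ n : ℕ, (T ^ n) v = μ ^ n • v := by
    intro n
    induction n with
    | zero => simp
    | succ n ih => rw [pow_succ', ContinuousLinearMap.mul_apply, ih, map_smul, h, smul_smul,
        pow_succ]
  have h3 : (fun n : ℕ => ((n.factorial : ℂ)⁻¹ • μ ^ n) • v) =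
      fun n : ℕ => (ContinuousLinearMap.apply ℂ Z v) ((n.factorial : ℂ)⁻¹ • T ^ n) := by
    funext n
    rw [map_smul, ContinuousLinearMap.apply_apply, hp, smul_assoc]
  rw [h3] at h2
  have h4 := h1.unique h2
  rw [ContinuousLinearMap.apply_apply] at h4
  rw [h4, Complex.exp_eq_exp_ℂ]

theorem exp_functional {Z : Type} [NormedAddCommGroup Z] [NormedSpace ℂ Z] [CompleteSpace Z]
    (T : Z →L[ℂ] Z) (b : Z →L[ℂ] ℂ) (μ : ℂ) (h : ∀ f, b (T f) = μ * b f) (f : Z) :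
    b (NormedSpace.exp T f) = Complex.exp μ * b f := by
  have hs := NormedSpace.exp_series_hasSum_exp' (𝕂 := ℂ) T
  have h1 := (hs.mapL (ContinuousLinearMap.apply ℂ Z f)).mapL b
  have h2 := (NormedSpace.exp_series_hasSum_exp' (𝕂 := ℂ) μ).mul_right (b f)
  have hp : ∀ n : ℕ, b ((T ^ n) f) = μ ^ n * b f := by
    intro n
    induction n with
    | zero => simp
    | succ n ih => rw [pow_succ', ContinuousLinearMap.mul_apply, h, ih, pow_succ]; ring
  have h3 : (fun n : ℕ => ((n.factorial : ℂ)⁻¹ • μ ^ n) * b f) =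
      fun n : ℕ => b ((ContinuousLinearMap.apply ℂ Z f) ((n.factorial : ℂ)⁻¹ • T ^ n)) := by
    funext n
    rw [map_smul, map_smul, ContinuousLinearMap.apply_apply, hp, smul_eq_mul, smul_eq_mul,
      mul_assoc]
  rw [h3] at h2
  have h4 := h1.unique h2
  rw [ContinuousLinearMap.apply_apply] at h4
  rw [h4, Complex.exp_eq_exp_ℂ]

/-- The global theorem: from a sequence of block generators to a `C₀`-semigroup on the
`ℓ^p`-sum. -/
theorem global (hp : p ≠ ∞) (A : ∀ n, X n →L[ℂ] X n) (C : ∀ n, Set (X n)) (u : ∀ n, X n)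
    (c0 : ℝ) (h1 : ∀ n, ∀ t : ℝ, 0 ≤ t → ‖NormedSpace.exp ((t : ℂ) • A n)‖ ≤ Real.exp (c0 * t))
    (h2 : ∀ n, ∀ z : ℂ, 0 < z.re → ∃ Q : X n →L[ℂ] X n,
      Q * (z • 1 - A n) = 1 ∧ (z • 1 - A n) * Q = 1 ∧ ‖Q‖ ≤ 2)
    (h3 : ∀ n, A n (u n) = - u n)
    (W : lp X p) (w : ℕ → ℝ) (hw : ∀ n, (W : ∀ n, X n) n = (w n : ℂ) • u n)
    (hw0 : ∀ n, 0 ≤ w n)
    (α : lp X p →L[ℂ] ℂ) (β : ∀ n, X n →L[ℂ] ℂ)
    (hα : ∀ f : lp X p, HasSum (fun n => β n ((f : ∀ n, X n) n)) (α f))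
    (hβ : ∀ n f, β n (A n f) = - β n f) (hαW : α W = 1)
    (hCa : ∀ n, ∀ x ∈ C n, ∀ y ∈ C n, x + y ∈ C n)
    (hCs : ∀ n, ∀ x ∈ C n, ∀ r : ℝ, 0 ≤ r → (r : ℂ) • x ∈ C n)
    (hCu : ∀ n, u n ∈ C n)
    (hpos : ∀ f : lp X p, (∀ n, (f : ∀ n, X n) n ∈ C n) →
      ∃ a : ℝ, 0 ≤ a ∧ α f = (a : ℂ) ∧ (a = 0 → f = 0))
    (h4 : ∀ n, ∀ g ∈ C n, ∀ t : ℝ, 0 ≤ t → NormedSpace.exp ((t : ℂ) • A n) g +
      ((w n * ‖g‖ * Real.exp (-t / 2) : ℝ) : ℂ) • u n ∈ C n)
    (L : ℕ → ℕ) (hL : ∀ n, n ≤ L n) (c : ℝ) (hc : 0 < c)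
    (h5 : ∀ n, c * 2 ^ (L n) ≤ ‖NormedSpace.exp (((L n : ℕ) : ℂ) • A n)‖) :
    ∃ T : ℝ → lp X p →L[ℂ] lp X p, IsC0 T ∧ (∀ z : ℂ, 0 < z.re → InResolvent T z) ∧
      (∀ f : lp X p, (∀ n, (f : ∀ n, X n) n ∈ C n) → ∃ t₀ : ℝ, 0 ≤ t₀ ∧ ∀ t : ℝ, t₀ ≤ t →
        ∀ n, (T t f : ∀ n, X n) n ∈ C n) ∧
      ∀ r M : ℝ, (∀ t : ℝ, 0 ≤ t → ‖T t‖ ≤ M * Real.exp (r * t)) → Real.log 2 ≤ r := by
  classical
  -- the diagonal semigroup
  have hSex : ∀ t : ℝ, ∃ S : lp X p →L[ℂ] lp X p, 0 ≤ t → ∀ (f : lp X p) (n : ℕ),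
      (S f : ∀ n, X n) n = NormedSpace.exp ((t : ℂ) • A n) ((f : ∀ n, X n) n) := by
    intro t
    by_cases ht : 0 ≤ t
    · obtain ⟨S, _, hS⟩ := exists_diag hp (fun n => NormedSpace.exp ((t : ℂ) • A n))
        (Real.exp (c0 * t)) (Real.exp_pos _).le (fun n => h1 n t ht)
      exact ⟨S, fun _ => hS⟩
    · exact ⟨0, fun h => absurd h ht⟩
  choose S hS using hSex
  have hS' : ∀ t : ℝ, 0 ≤ t → ∀ (f : lp X p) (n : ℕ),
      (S t f : ∀ n, X n) n = NormedSpace.exp ((t : ℂ) • A n) ((f : ∀ n, X n) n) := hS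
  have hC0 : IsC0 S := diag_isC0 hp A c0 h1 S hS'
  -- exponential on eigenvectors
  have hexpu : ∀ n (t : ℝ), NormedSpace.exp ((t : ℂ) • A n) (u n) =
      ((Real.exp (-t) : ℝ) : ℂ) • u n := by
    intro n t
    rw [exp_apply_eigen ((t : ℂ) • A n) (u n) (-(t : ℂ)) (by
      rw [ContinuousLinearMap.smul_apply, h3, smul_neg, neg_smul])]
    push_cast
    rfl
  have hexpβ : ∀ n (t : ℝ) f, β n (NormedSpace.exp ((t : ℂ) • A n) f) =
      ((Real.exp (-t) : ℝ) : ℂ) * β n f := by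
    intro n t f
    rw [exp_functional ((t : ℂ) • A n) (β n) (-(t : ℂ)) (fun g => by
      rw [ContinuousLinearMap.smul_apply, map_smul, hβ, smul_eq_mul]; ring)]
    push_cast
    rfl
  have hSW : ∀ t : ℝ, 0 ≤ t → S t W = ((Real.exp (-t) : ℝ) : ℂ) • W := by
    intro t ht
    ext n
    rw [hS' t ht, lp.coeFn_smul, Pi.smul_apply, hw, map_smul, hexpu, smul_comm]
  have hαS : ∀ t : ℝ, 0 ≤ t → ∀ f, α (S t f) = ((Real.exp (-t) : ℝ) : ℂ) * α f := by
    intro t ht f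
    have e1 := hα (S t f)
    have e2 := (hα f).mul_left ((Real.exp (-t) : ℝ) : ℂ)
    have e3 : (fun n => β n ((S t f : ∀ n, X n) n)) =
        fun n => ((Real.exp (-t) : ℝ) : ℂ) * β n ((f : ∀ n, X n) n) := by
      funext n
      rw [hS' t ht, hexpβ]
    rw [e3] at e1
    exact e1.unique e2
  refine ⟨rankOne S α W, rankOne_isC0 hC0 α W hSW hαS hαW, ?_, ?_, ?_⟩
  · intro z hz
    choose Q hQ1 hQ2 hQ3 using fun n => h2 n z hz
    exact rankOne_resolvent α W hSW hαS hαW z hz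
      (diag_resolvent hp A c0 h1 S hS' z 2 Q hQ3 hQ1 hQ2)
  · intro f hf
    obtain ⟨a, ha0, haf, hafz⟩ := hpos f hf
    have hzero : ∀ n, (0 : X n) ∈ C n := by
      intro n
      have := hCs n (u n) (hCu n) 0 le_rfl
      simpa using this
    rcases ha0.eq_or_lt with ha | ha
    · refine ⟨0, le_rfl, fun t _ n => ?_⟩
      rw [hafz ha.symm, map_zero]
      exact hzero n
    · -- choose t₀
      have hlim : Tendsto (fun t : ℝ => (1 - Real.exp (-t)) * a - ‖f‖ * Real.exp (-t / 2))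
          atTop (𝓝 ((1 - 0) * a - ‖f‖ * 0)) := by
        have e1 : Tendsto (fun t : ℝ => Real.exp (-t)) atTop (𝓝 0) :=
          Real.tendsto_exp_neg_atTop_nhds_zero
        have e2 : Tendsto (fun t : ℝ => Real.exp (-t / 2)) atTop (𝓝 0) := by
          have : (fun t : ℝ => Real.exp (-t / 2)) = fun t => Real.exp (-(t / 2)) := by
            funext t; congr 1; ring
          rw [this]
          exact Real.tendsto_exp_neg_atTop_nhds_zero.comp (tendsto_id.atTop_div_const (by norm_num))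
        exact ((tendsto_const_nhds.sub e1).mul_const a).sub (e2.const_mul ‖f‖)
      have hpos' : (0 : ℝ) < (1 - 0) * a - ‖f‖ * 0 := by simpa using ha
      obtain ⟨t₁, ht₁⟩ := Filter.eventually_atTop.1 (hlim.eventually (lt_mem_nhds hpos'))
      refine ⟨max t₁ 0, le_max_right _ _, fun t ht n => ?_⟩
      have ht0 : 0 ≤ t := le_trans (le_max_right _ _) ht
      have hb := ht₁ t (le_trans (le_max_left _ _) ht)
      have e1 : (rankOne S α W t f : ∀ n, X n) n =
          (NormedSpace.exp ((t : ℂ) • A n) ((f : ∀ n, X n) n) +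
            ((w n * ‖(f : ∀ n, X n) n‖ * Real.exp (-t / 2) : ℝ) : ℂ) • u n) +
          ((w n * ((1 - Real.exp (-t)) * a - ‖(f : ∀ n, X n) n‖ * Real.exp (-t / 2)) : ℝ) : ℂ) •
            u n := by
        unfold rankOne
        rw [ContinuousLinearMap.add_apply, lp.coeFn_add, Pi.add_apply, hS' t ht0,
          ContinuousLinearMap.smul_apply, ContinuousLinearMap.smulRight_apply, haf,
          lp.coeFn_smul, Pi.smul_apply, lp.coeFn_smul, Pi.smul_apply, hw, add_assoc, ← add_smul,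
          smul_smul, smul_smul]
        congr 2
        push_cast
        ring
      rw [e1]
      apply hCa n _ (h4 n _ (hf n) t ht0)
      apply hCs n _ (hCu n)
      apply mul_nonneg (hw0 n)
      have e2 : ‖(f : ∀ n, X n) n‖ ≤ ‖f‖ :=
        lp.norm_apply_le_norm (ne_of_gt (lt_of_lt_of_le one_pos Fact.out)) f n
      have e3 := mul_le_mul_of_nonneg_right e2 (Real.exp_pos (-t / 2)).le
      linarith
  · intro r M hM
    by_contra hr
    push Not at hr
    -- lower bound for the norms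
    have hlow : ∀ n, c * 2 ^ (L n) - ‖α‖ * ‖W‖ ≤ ‖rankOne S α W (L n)‖ := by
      intro n
      have e1 : ‖NormedSpace.exp (((L n : ℕ) : ℂ) • A n)‖ ≤ ‖S (L n)‖ := by
        apply ContinuousLinearMap.opNorm_le_bound _ (norm_nonneg _)
        intro x
        have e2 := (S (L n)).le_opNorm (lp.single p n x)
        have e3 : ‖(S (L n) (lp.single p n x) : ∀ n, X n) n‖ ≤ ‖S (L n) (lp.single p n x)‖ :=
          lp.norm_apply_le_norm (ne_of_gt (lt_of_lt_of_le one_pos Fact.out)) _ n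
        rw [hS' _ (Nat.cast_nonneg _), lp.single_apply_self] at e3
        rw [lp.norm_single (lt_of_lt_of_le one_pos Fact.out)] at e2
        have e4 : (((L n : ℕ) : ℝ) : ℂ) = ((L n : ℕ) : ℂ) := by push_cast; rfl
        rw [e4] at e3
        exact e3.trans e2
      have e2 : ‖(((1 - Real.exp (-(L n : ℝ)) : ℝ) : ℂ) • (α.smulRight W))‖ ≤ ‖α‖ * ‖W‖ := by
        rw [norm_smul, ContinuousLinearMap.norm_smulRight_apply, Complex.norm_real]
        have e3 : ‖(1 - Real.exp (-(L n : ℝ)))‖ ≤ 1 := by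
          rw [Real.norm_eq_abs, abs_le]
          have := Real.exp_pos (-(L n : ℝ))
          have h7 : Real.exp (-(L n : ℝ)) ≤ 1 := Real.exp_le_one_iff.2 (by
            have := Nat.cast_nonneg (α := ℝ) (L n); linarith)
          constructor <;> linarith
        calc _ ≤ 1 * (‖α‖ * ‖W‖) := by gcongr
          _ = _ := one_mul _
      have e3 : ‖S (L n)‖ ≤ ‖rankOne S α W (L n)‖ +
          ‖(((1 - Real.exp (-(L n : ℝ)) : ℝ) : ℂ) • (α.smulRight W))‖ := by
        have : S (L n) = rankOne S α W (L n) -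
            (((1 - Real.exp (-(L n : ℝ)) : ℝ) : ℂ) • (α.smulRight W)) := by
          unfold rankOne; abel
        calc ‖S (L n)‖ = ‖rankOne S α W (L n) -
            (((1 - Real.exp (-(L n : ℝ)) : ℝ) : ℂ) • (α.smulRight W))‖ := by rw [← this]
          _ ≤ _ := norm_sub_le _ _
      linarith [h5 n]
    have hlim : Tendsto (fun k : ℕ => ‖α‖ * ‖W‖ * (1 / 2 : ℝ) ^ k + M * (Real.exp r / 2) ^ k)
        atTop (𝓝 (‖α‖ * ‖W‖ * 0 + M * 0)) := by
      have e1 : Tendsto (fun k : ℕ => (1 / 2 : ℝ) ^ k) atTop (𝓝 0) :=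
        tendsto_pow_atTop_nhds_zero_of_lt_one (by norm_num) (by norm_num)
      have e2 : Tendsto (fun k : ℕ => (Real.exp r / 2) ^ k) atTop (𝓝 0) := by
        apply tendsto_pow_atTop_nhds_zero_of_lt_one (by positivity)
        have : Real.exp r < 2 := by
          calc Real.exp r < Real.exp (Real.log 2) := Real.exp_lt_exp.2 hr
            _ = 2 := Real.exp_log (by norm_num)
        linarith
      exact (e1.const_mul _).add (e2.const_mul _)
    have hLt : Tendsto L atTop atTop := tendsto_atTop_mono hL tendsto_id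
    have hlim2 := hlim.comp hLt
    rw [mul_zero, mul_zero, add_zero] at hlim2
    have hge : ∀ n, c ≤ ‖α‖ * ‖W‖ * (1 / 2 : ℝ) ^ (L n) + M * (Real.exp r / 2) ^ (L n) := by
      intro n
      have e1 := hlow n
      have e2 := hM (L n) (Nat.cast_nonneg _)
      have e3 : Real.exp (r * (L n : ℝ)) = Real.exp r ^ (L n) := by
        rw [mul_comm, Real.exp_nat_mul]
      rw [e3] at e2
      have e4 : c * 2 ^ (L n) ≤ ‖α‖ * ‖W‖ + M * Real.exp r ^ (L n) := by linarith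
      have e5 : (0 : ℝ) < 2 ^ (L n) := by positivity
      rw [div_pow, div_pow, one_pow, mul_one_div, mul_div_assoc', ← add_div, le_div_iff₀ e5]
      exact e4
    have := ge_of_tendsto hlim2 (Eventually.of_forall hge)
    linarith

end Pool.Agent.Helper86.NC
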