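import Mathlib
import Pool.Agent.NCLp.Defs
import Pool.Agent.Helper86.NC.Global
import Pool.Agent.Helper86.NC.Block

set_option autoImplicit false

open scoped ENNReal NNReal InnerProductSpace Topology
open Filter

namespace Pool.Agent.Helper86.NC

theorem hasSum_half : HasSum (fun n : ℕ => (1 / 2 : ℝ) ^ (n + 1)) 1 := by
  have h := (hasSum_geometric_of_lt_one (r := (1 / 2 : ℝ)) (by norm_num) (by norm_num)).mul_left
    (1 / 2 : ℝ)
  have e : (fun n : ℕ => (1 / 2 : ℝ) ^ (n + 1)) = fun n => (1 / 2 : ℝ) * (1 / 2) ^ n := by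
    funext n; rw [pow_succ]; ring
  rw [e]
  have e2 : (1 / 2 : ℝ) * (1 - 1 / 2)⁻¹ = 1 := by norm_num
  rw [e2] at h
  exact h

/-- the sum of the traces over the fibres, as a functional on the block -/
theorem exists_trBlk {Y : Type} [NormedAddCommGroup Y] [NormedSpace ℂ Y] (τ : Y →L[ℂ] ℂ)
    (R : ℕ) (hR : 1 ≤ R) : ∃ b : Blk Y R →L[ℂ] ℂ, (∀ f, b f = ∑ r, τ (f r)) ∧
      ‖b‖ ≤ (R : ℝ) ^ (1 / 4 : ℝ) * ‖τ‖ := by
  have hR0 : (0 : ℝ) < R := by exact_mod_cast hR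
  let b : Blk Y R →ₗ[ℂ] ℂ :=
    { toFun := fun f => ∑ r, τ (f r)
      map_add' := by intro f g; simp [Finset.sum_add_distrib]
      map_smul' := by intro c f; simp [Finset.mul_sum] }
  have hb : ∀ f : Blk Y R, ‖b f‖ ≤ ((R : ℝ) ^ (1 / 4 : ℝ) * ‖τ‖) * ‖f‖ := by
    intro f
    have h1 := blk_avg R hR f
    have h2 : ∑ r, ‖f r‖ ≤ (R : ℝ) ^ (1 / 4 : ℝ) * ‖f‖ := by
      have h3 := mul_le_mul_of_nonneg_left h1 hR0.le
      rw [← mul_assoc, mul_inv_cancel₀ hR0.ne', one_mul, ← mul_assoc] at h3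
      have h4 : (R : ℝ) * (R : ℝ) ^ (-(3 / 4) : ℝ) = (R : ℝ) ^ (1 / 4 : ℝ) := by
        nth_rewrite 1 [← Real.rpow_one (R : ℝ)]
        rw [← Real.rpow_add hR0]
        norm_num
      rwa [h4] at h3
    calc ‖b f‖ = ‖∑ r, τ (f r)‖ := rfl
      _ ≤ ∑ r, ‖τ (f r)‖ := norm_sum_le _ _
      _ ≤ ∑ r, ‖τ‖ * ‖f r‖ := Finset.sum_le_sum fun r _ => τ.le_opNorm _
      _ = ‖τ‖ * ∑ r, ‖f r‖ := by rw [Finset.mul_sum]
      _ ≤ ‖τ‖ * ((R : ℝ) ^ (1 / 4 : ℝ) * ‖f‖) := by gcongr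
      _ = _ := by ring
  exact ⟨b.mkContinuous _ hb, fun f => rfl, b.mkContinuous_norm_le (by positivity) hb⟩

theorem assemble {Y : Type} [NormedAddCommGroup Y] [NormedSpace ℂ Y] [CompleteSpace Y]
    (C : Set Y) (u : Y) (τ : Y →L[ℂ] ℂ) (hC : Cone C u) (hτu : τ u = 1)
    (hτ : ∀ f ∈ C, ∃ a : ℝ, 0 ≤ a ∧ τ f = (a : ℂ) ∧ (a = 0 → f = 0))
    (C0 : ℝ) (hC0 : 1 ≤ C0)
    (hbase : ∀ L : ℕ, 2 ≤ L → ∀ ε : ℝ, 0 < ε → ∃ (m : ℕ) (σ : Y ≃ₗᵢ[ℂ] Y) (B : Y →L[ℂ] Y)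
      (v : Y) (h : ℕ → (Y →L[ℂ] ℂ)) (κ : ℝ), Base C u τ C0 L ε m σ B v h κ) :
    ∃ R : ℕ → ℕ, (∀ n, 1 ≤ R n) ∧
      ∃ S : NCLp.C0Semigroup (lp (fun n => Blk Y (R n)) p43),
        S.IndEvPos {f | ∀ n r, (f : ∀ n, Blk Y (R n)) n r ∈ C} ∧
        S.spectralBound ≤ 0 ∧ ((Real.log 2 : ℝ) : EReal) ≤ S.growthBound := by
  classical
  -- the blocks
  set μ : ℕ → ℝ := fun n => (1 / 2 : ℝ) ^ (n + 1) with hμ
  have hμ0 : ∀ n, 0 < μ n := fun n => by positivity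
  have hμ1 : ∀ n, μ n ≤ 1 := fun n => pow_le_one₀ (by norm_num) (by norm_num)
  have hblk : ∀ n : ℕ, ∃ R : ℕ, 1 ≤ R ∧ ∃ A : Blk Y R →L[ℂ] Blk Y R,
      (∀ t : ℝ, 0 ≤ t → ‖NormedSpace.exp ((t : ℂ) • A)‖ ≤ Real.exp (4 * C0 * t)) ∧
      (∀ z : ℂ, 0 < z.re → ∃ Q : Blk Y R →L[ℂ] Blk Y R,
        Q * (z • 1 - A) = 1 ∧ (z • 1 - A) * Q = 1 ∧ ‖Q‖ ≤ 2) ∧
      A (WithLp.toLp p43 (fun _ => u)) = - WithLp.toLp p43 (fun _ => u) ∧
      (∀ f, ∑ r, τ ((A f) r) = - ∑ r, τ (f r)) ∧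
      (∀ g : Blk Y R, (∀ r, g r ∈ C) → ∀ t : ℝ, 0 ≤ t → ∀ r,
        (NormedSpace.exp ((t : ℂ) • A) g) r +
          (((μ n * (R : ℝ) ^ (-(3 / 4) : ℝ)) * ‖g‖ *
            Real.exp (-t / 2) : ℝ) : ℂ) • u ∈ C) ∧
      2 ^ (n + 2) / (64 * C0 ^ 2) ≤ ‖NormedSpace.exp (((n + 2 : ℕ) : ℂ) • A)‖ := by
    intro n
    have hK : (0 : ℝ) < 4 * (2 * (4 * C0 + 1)) ^ (n + 2) := by positivity
    set K : ℝ := 4 * (2 * (4 * C0 + 1)) ^ (n + 2) with hKdef
    obtain ⟨m, σ, B, v, h, κ, hB⟩ := hbase (n + 2) (by omega) (min (1 / 4) (μ n / K))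
      (lt_min (by norm_num) (div_pos (hμ0 n) hK))
    obtain ⟨R, hR, A, h1, h2, h3, h4, h5, h6⟩ := block hC hB (by omega) hC0
      (le_of_lt (lt_min (by norm_num) (div_pos (hμ0 n) hK))) (min_le_left _ _)
    refine ⟨R, hR, A, h1, h2, h3, h4, ?_, h6⟩
    intro g hg t ht r
    have h7 := h5 g hg t ht r
    have hR0 : (0 : ℝ) < R := by exact_mod_cast hR
    have h8 : 4 * min (1 / 4) (μ n / K) * (R : ℝ) ^ (-(3 / 4) : ℝ) *
        (2 * (4 * C0 + 1)) ^ (n + 2) * ‖g‖ * Real.exp (-t / 2) ≤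
        (μ n * (R : ℝ) ^ (-(3 / 4) : ℝ)) * ‖g‖ * Real.exp (-t / 2) := by
      have h9 : min (1 / 4) (μ n / K) * K ≤ μ n := by
        calc min (1 / 4) (μ n / K) * K ≤ (μ n / K) * K := by
              gcongr; exact min_le_right _ _
          _ = μ n := by field_simp
      have h10 : 0 ≤ (R : ℝ) ^ (-(3 / 4) : ℝ) * ‖g‖ * Real.exp (-t / 2) := by positivity
      calc _ = (min (1 / 4) (μ n / K) * K) *
            ((R : ℝ) ^ (-(3 / 4) : ℝ) * ‖g‖ * Real.exp (-t / 2)) := by rw [hKdef]; ring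
        _ ≤ μ n * ((R : ℝ) ^ (-(3 / 4) : ℝ) * ‖g‖ * Real.exp (-t / 2)) := by gcongr
        _ = _ := by ring
    have h11 := hC.add _ h7 _ (hC.smul u hC.unit _ (sub_nonneg.2 h8))
    rw [add_assoc, ← add_smul, ← Complex.ofReal_add, add_sub_cancel] at h11
    exact h11
  choose R hR A h1 h2 h3 h4 h5 h6 using hblk
  refine ⟨R, hR, ?_⟩
  have hR0 : ∀ n, (0 : ℝ) < R n := fun n => by exact_mod_cast hR n
  -- weights
  set w : ℕ → ℝ := fun n => (μ n / R n) ^ (3 / 4 : ℝ) with hw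
  have hw0 : ∀ n, 0 ≤ w n := fun n => by
    have := hμ0 n; have := hR0 n; positivity
  have hp0 : 0 < p43.toReal := by rw [p43_toReal]; norm_num
  have hWmem : Memℓp (fun n => (w n : ℂ) • (WithLp.toLp p43 (fun _ : Fin (R n) => u) :
      Blk Y (R n))) p43 := by
    rw [memℓp_gen_iff hp0]
    have hle : ∀ n, ‖(w n : ℂ) • (WithLp.toLp p43 (fun _ : Fin (R n) => u) :
        Blk Y (R n))‖ ^ p43.toReal ≤ μ n := by
      intro n
      rw [norm_smul, blk_const, p43_toReal, Complex.norm_real, Real.norm_of_nonneg (hw0 n)]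
      have e1 : w n * ((R n : ℝ) ^ (3 / 4 : ℝ) * ‖u‖) = μ n ^ (3 / 4 : ℝ) * ‖u‖ := by
        rw [hw]
        simp only
        rw [← mul_assoc, ← Real.mul_rpow (div_nonneg (hμ0 n).le (hR0 n).le) (hR0 n).le,
          div_mul_cancel₀ _ (hR0 n).ne']
      rw [e1]
      calc (μ n ^ (3 / 4 : ℝ) * ‖u‖) ^ (4 / 3 : ℝ) ≤ (μ n ^ (3 / 4 : ℝ) * 1) ^ (4 / 3 : ℝ) := by
            have := hμ0 n
            gcongr
            exact hC.norm_unit
        _ = μ n := by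
            rw [mul_one, ← Real.rpow_mul (hμ0 n).le]; norm_num
    exact Summable.of_nonneg_of_le (fun n => by positivity) hle hasSum_half.summable
  set W : lp (fun n => Blk Y (R n)) p43 := ⟨_, hWmem⟩ with hWdef
  -- the trace
  choose b hb hbn using fun n => exists_trBlk τ (R n) (hR n)
  set β : ∀ n, Blk Y (R n) →L[ℂ] ℂ := fun n => (((μ n / R n) ^ (1 / 4 : ℝ) : ℝ) : ℂ) • b n with hβ
  have hβn : ∀ n, ‖β n‖ ≤ μ n ^ (1 / 4 : ℝ) * ‖τ‖ := by
    intro n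
    rw [hβ]
    simp only
    rw [norm_smul, Complex.norm_real, Real.norm_of_nonneg
      (Real.rpow_nonneg (div_nonneg (hμ0 n).le (hR0 n).le) _)]
    calc (μ n / R n) ^ (1 / 4 : ℝ) * ‖b n‖ ≤
          (μ n / R n) ^ (1 / 4 : ℝ) * ((R n : ℝ) ^ (1 / 4 : ℝ) * ‖τ‖) := by
          have := hμ0 n; have := hR0 n
          gcongr
          exact hbn n
      _ = _ := by
          rw [← mul_assoc, ← Real.mul_rpow (div_nonneg (hμ0 n).le (hR0 n).le) (hR0 n).le,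
            div_mul_cancel₀ _ (hR0 n).ne']
  set γ : ℕ → (lp (fun n => Blk Y (R n)) p43 →L[ℂ] ℂ) := fun n =>
    (β n).comp (lp.evalCLM ℂ (fun n => Blk Y (R n)) p43 n) with hγ
  have hγn : ∀ n, ‖γ n‖ ≤ μ n ^ (1 / 4 : ℝ) * ‖τ‖ := by
    intro n
    apply ContinuousLinearMap.opNorm_le_bound _ (by have := hμ0 n; positivity)
    intro f
    have e1 : γ n f = β n ((f : ∀ n, Blk Y (R n)) n) := rfl
    rw [e1]
    calc _ ≤ ‖β n‖ * ‖(f : ∀ n, Blk Y (R n)) n‖ := (β n).le_opNorm _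
      _ ≤ (μ n ^ (1 / 4 : ℝ) * ‖τ‖) * ‖f‖ := by
          gcongr
          · exact hβn n
          · exact lp.norm_apply_le_norm (ne_of_gt (lt_of_lt_of_le one_pos Fact.out)) f n
  have hsumγ : Summable γ := by
    apply Summable.of_norm_bounded (g := fun n => μ n ^ (1 / 4 : ℝ) * ‖τ‖) _ hγn
    apply Summable.mul_right
    have e : (fun n => μ n ^ (1 / 4 : ℝ)) = fun n : ℕ => ((1 / 2 : ℝ) ^ (1 / 4 : ℝ)) *
        ((1 / 2 : ℝ) ^ (1 / 4 : ℝ)) ^ n := by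
      funext n
      rw [hμ]
      simp only
      rw [← pow_succ', ← Real.rpow_natCast, ← Real.rpow_natCast, ← Real.rpow_mul (by norm_num),
        ← Real.rpow_mul (by norm_num), mul_comm]
    rw [e]
    apply Summable.mul_left
    apply summable_geometric_of_lt_one (by positivity)
    exact Real.rpow_lt_one (by norm_num) (by norm_num) (by norm_num)
  set α : lp (fun n => Blk Y (R n)) p43 →L[ℂ] ℂ := ∑' n, γ n with hαdef
  have hα : ∀ f : lp (fun n => Blk Y (R n)) p43,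
      HasSum (fun n => β n ((f : ∀ n, Blk Y (R n)) n)) (α f) := by
    intro f
    exact hsumγ.hasSum.mapL (ContinuousLinearMap.apply ℂ ℂ f)
  have hαW : α W = 1 := by
    have e1 := hα W
    have e2 : (fun n => β n ((W : ∀ n, Blk Y (R n)) n)) = fun n => ((μ n : ℝ) : ℂ) := by
      funext n
      have e3 : (W : ∀ n, Blk Y (R n)) n = (w n : ℂ) • (WithLp.toLp p43
        (fun _ : Fin (R n) => u) : Blk Y (R n)) := rfl
      rw [e3, map_smul, hβ]
      simp only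
      rw [ContinuousLinearMap.smul_apply, hb]
      simp only [hτu, Finset.sum_const, Finset.card_univ, Fintype.card_fin, nsmul_eq_mul, mul_one,
        smul_eq_mul]
      rw [← Complex.ofReal_natCast, ← Complex.ofReal_mul, ← Complex.ofReal_mul]
      congr 1
      rw [hw]
      simp only
      have e4 : 0 < μ n / R n := div_pos (hμ0 n) (hR0 n)
      rw [← mul_assoc, ← Real.rpow_add e4]
      norm_num
      have := hR0 n
      field_simp
    rw [e2] at e1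
    have e5 : HasSum (fun n => ((μ n : ℝ) : ℂ)) ((1 : ℝ) : ℂ) :=
      hasSum_half.mapL Complex.ofRealCLM
    rw [Complex.ofReal_one] at e5
    exact e1.unique e5
  have k1 : ∀ n f, β n (A n f) = - β n f := by
    intro n f
    rw [hβ]
    simp only
    rw [ContinuousLinearMap.smul_apply, ContinuousLinearMap.smul_apply, hb, hb, h4, smul_neg]
  have k2 : ∀ n, ∀ x ∈ {f : Blk Y (R n) | ∀ r, f r ∈ C}, ∀ y ∈ {f : Blk Y (R n) | ∀ r, f r ∈ C},
      x + y ∈ {f : Blk Y (R n) | ∀ r, f r ∈ C} := by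
    intro n x hx y hy r
    exact hC.add _ (hx r) _ (hy r)
  have k3 : ∀ n, ∀ x ∈ {f : Blk Y (R n) | ∀ r, f r ∈ C}, ∀ s : ℝ, 0 ≤ s →
      (s : ℂ) • x ∈ {f : Blk Y (R n) | ∀ r, f r ∈ C} := by
    intro n x hx s hs r
    exact hC.smul _ (hx r) s hs
  have k4 : ∀ n, (WithLp.toLp p43 (fun _ => u) : Blk Y (R n)) ∈
      {f : Blk Y (R n) | ∀ r, f r ∈ C} := by
    intro n r
    exact hC.unit
  have k5 : ∀ f : lp (fun n => Blk Y (R n)) p43,
      (∀ n, (f : ∀ n, Blk Y (R n)) n ∈ {f : Blk Y (R n) | ∀ r, f r ∈ C}) →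
      ∃ a : ℝ, 0 ≤ a ∧ α f = (a : ℂ) ∧ (a = 0 → f = 0) := by
    intro f hf
    choose a ha1 ha2 ha3 using fun n r => hτ _ (hf n r)
    have e1 : ∀ n, β n ((f : ∀ n, Blk Y (R n)) n) =
        ((((μ n / R n) ^ (1 / 4 : ℝ) * ∑ r, a n r : ℝ)) : ℂ) := by
      intro n
      rw [hβ]
      simp only
      rw [ContinuousLinearMap.smul_apply, hb]
      simp only [ha2]
      push_cast
      rw [smul_eq_mul]
    have e2 : ∀ n, 0 ≤ (μ n / R n) ^ (1 / 4 : ℝ) * ∑ r, a n r := by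
      intro n
      have := hμ0 n; have := hR0 n
      have := Finset.sum_nonneg (s := Finset.univ) fun r (_ : r ∈ Finset.univ) => ha1 n r
      positivity
    have e3 := hα f
    simp only [e1] at e3
    have e4 := e3.mapL Complex.reCLM
    simp only [Complex.reCLM_apply, Complex.ofReal_re] at e4
    have e5 := e3.mapL Complex.imCLM
    simp only [Complex.imCLM_apply, Complex.ofReal_im] at e5
    have e6 : (α f).im = 0 := e5.unique hasSum_zero
    refine ⟨(α f).re, e4.nonneg e2, ?_, ?_⟩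
    · apply Complex.ext
      · simp
      · simpa using e6
    · intro h0
      rw [h0] at e4
      have e7 := (hasSum_zero_iff_of_nonneg e2).1 e4
      apply Subtype.ext
      funext n
      apply PiLp.ext
      intro r
      have e8 := congrFun e7 n
      simp only [Pi.zero_apply] at e8
      have e9 : ∑ r, a n r = 0 := by
        rcases mul_eq_zero.1 e8 with h | h
        · exfalso
          have := Real.rpow_pos_of_pos (div_pos (hμ0 n) (hR0 n)) (1 / 4)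
          linarith
        · exact h
      have e10 := (Finset.sum_eq_zero_iff_of_nonneg fun r _ => ha1 n r).1 e9 r (Finset.mem_univ _)
      exact ha3 n r e10
  have k6 : ∀ n, ∀ g ∈ {f : Blk Y (R n) | ∀ r, f r ∈ C}, ∀ t : ℝ, 0 ≤ t →
      NormedSpace.exp ((t : ℂ) • A n) g +
      ((w n * ‖g‖ * Real.exp (-t / 2) : ℝ) : ℂ) • (WithLp.toLp p43 (fun _ => u) : Blk Y (R n)) ∈
        {f : Blk Y (R n) | ∀ r, f r ∈ C} := by
    intro n g hg t ht r
    have e1 := h5 n g hg t ht r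
    have e2 : μ n * (R n : ℝ) ^ (-(3 / 4) : ℝ) ≤ w n := by
      rw [hw]
      simp only
      rw [Real.div_rpow (hμ0 n).le (hR0 n).le, Real.rpow_neg (hR0 n).le, ← div_eq_mul_inv]
      have e3 : μ n ≤ μ n ^ (3 / 4 : ℝ) := by
        nth_rewrite 1 [← Real.rpow_one (μ n)]
        exact Real.rpow_le_rpow_of_exponent_ge (hμ0 n) (hμ1 n) (by norm_num)
      have := hR0 n
      gcongr
    have e4 : μ n * (R n : ℝ) ^ (-(3 / 4) : ℝ) * ‖g‖ * Real.exp (-t / 2) ≤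
        w n * ‖g‖ * Real.exp (-t / 2) := by gcongr
    have h11 := hC.add _ e1 _ (hC.smul u hC.unit _ (sub_nonneg.2 e4))
    rw [add_assoc, ← add_smul, ← Complex.ofReal_add, add_sub_cancel] at h11
    exact h11
  have k7 : ∀ n, 1 / (64 * C0 ^ 2) * 2 ^ (n + 2) ≤
      ‖NormedSpace.exp (((n + 2 : ℕ) : ℂ) • A n)‖ := by
    intro n
    have := h6 n
    rw [one_div, ← div_eq_inv_mul]
    exact this
  obtain ⟨T, hT1, hT2, hT3, hT4⟩ := global (X := fun n => Blk Y (R n)) p43_ne_top A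
    (fun n => {f | ∀ r, f r ∈ C}) (fun n => WithLp.toLp p43 (fun _ => u)) (4 * C0) h1 h2 h3
    W w (fun n => rfl) hw0 α β hα k1 hαW k2 k3 k4 k5 k6 (fun n => n + 2) (fun n => by omega)
    (1 / (64 * C0 ^ 2)) (by positivity) k7
  refine ⟨⟨T, hT1.zero, hT1.add, hT1.cont⟩, ?_, ?_, ?_⟩
  · intro f hf
    obtain ⟨t₀, ht₀, h⟩ := hT3 f hf
    exact ⟨t₀, ht₀, fun t ht n r => h t ht n r⟩
  · apply sSup_le
    rintro _ ⟨z, hz, rfl⟩
    simp only
    by_contra hcon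
    push Not at hcon
    have hz0 : 0 < z.re := by exact_mod_cast hcon
    apply hz
    obtain ⟨Q, hQ1, hQ2⟩ := hT2 z hz0
    refine ⟨Q, ?_, ?_⟩
    · intro g
      have := hQ1 g
      unfold IsGen at this
      unfold NCLp.C0Semigroup.IsGen
      simp only [Complex.ofReal_inv]
      exact this
    · intro f g hfg
      apply hQ2 f g
      unfold IsGen
      unfold NCLp.C0Semigroup.IsGen at hfg
      simp only [Complex.ofReal_inv] at hfg
      exact hfg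
  · apply le_sInf
    rintro _ ⟨r, rfl, K, hK⟩
    exact_mod_cast hT4 r K hK

end Pool.Agent.Helper86.NC
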