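import Mathlib
import Pool.Agent.Helper86.NC.Defs

set_option autoImplicit false

open scoped ENNReal NNReal InnerProductSpace Topology
open Filter

namespace Pool.Agent.Helper86.NC

/-- the trace -/
noncomputable def tau {H : Type} [NormedAddCommGroup H] [InnerProductSpace ℂ H] [CompleteSpace H]
    (Ω : H) (x : H →L[ℂ] H) : ℂ := ⟪Ω, x Ω⟫_ℂ

/-- the `L^4` norm `τ((x* x)^2)^{1/4} = ‖x* x Ω‖^{1/2}` -/
noncomputable def N4 {H : Type} [NormedAddCommGroup H] [InnerProductSpace ℂ H] [CompleteSpace H]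
    (Ω : H) (x : H →L[ℂ] H) : ℝ := √‖(star x * x) Ω‖

/-- the von Neumann algebra of operators commuting with all elements of a set and their
adjoints -/
noncomputable def vnOf {H : Type} [NormedAddCommGroup H] [InnerProductSpace ℂ H]
    [CompleteSpace H] (s : Set (H →L[ℂ] H)) : VonNeumannAlgebra H where
  toStarSubalgebra := StarSubalgebra.centralizer ℂ s
  centralizer_centralizer' := by
    change Set.centralizer (Set.centralizer ((StarSubalgebra.centralizer ℂ s :
      StarSubalgebra ℂ (H →L[ℂ] H)) : Set (H →L[ℂ] H))) = (StarSubalgebra.centralizer ℂ s :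
      StarSubalgebra ℂ (H →L[ℂ] H))
    rw [StarSubalgebra.coe_centralizer, Set.centralizer_centralizer_centralizer]

theorem mem_vnOf {H : Type} [NormedAddCommGroup H] [InnerProductSpace ℂ H]
    [CompleteSpace H] (s : Set (H →L[ℂ] H)) (x : H →L[ℂ] H) :
    x ∈ vnOf s ↔ ∀ g ∈ s, g * x = x * g ∧ star g * x = x * star g := by
  change x ∈ StarSubalgebra.centralizer ℂ s ↔ _
  rw [StarSubalgebra.mem_centralizer_iff]

/-- `ℓ²(α)` -/
abbrev L2 (α : Type) : Type := lp (fun _ : α => ℂ) 2

/-- the unit vector at `a` -/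
noncomputable def delta {α : Type} [DecidableEq α] (a : α) : L2 α := lp.single 2 a (1 : ℂ)

theorem memlp_comp {α β : Type} (e : β ≃ α) (f : L2 α) :
    Memℓp (fun b => (f : α → ℂ) (e b)) 2 := by
  have h := lp.memℓp f
  rw [memℓp_gen_iff (by norm_num)] at h ⊢
  exact (e.summable_iff (f := fun a => ‖(f : α → ℂ) a‖ ^ (2 : ℝ≥0∞).toReal)).2 h

/-- the unitary permuting the coordinates -/
noncomputable def permU {α β : Type} (e : α ≃ β) : L2 α ≃ₗᵢ[ℂ] L2 β where
  toFun f := ⟨fun b => (f : α → ℂ) (e.symm b), memlp_comp e.symm f⟩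
  map_add' f g := by ext; rfl
  map_smul' c f := by ext; rfl
  invFun f := ⟨fun a => (f : β → ℂ) (e a), memlp_comp e f⟩
  left_inv f := by ext; simp
  right_inv f := by ext; simp
  norm_map' f := by
    rw [lp.norm_eq_tsum_rpow (by norm_num), lp.norm_eq_tsum_rpow (by norm_num)]
    congr 1
    exact (e.symm.tsum_eq (fun a => ‖(f : α → ℂ) a‖ ^ (2 : ℝ≥0∞).toReal))

theorem permU_apply {α β : Type} (e : α ≃ β) (f : L2 α) (b : β) :
    (permU e f : β → ℂ) b = (f : α → ℂ) (e.symm b) := rfl

theorem permU_symm {α β : Type} (e : α ≃ β) : (permU e).symm = permU e.symm := by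
  ext f
  rfl

theorem permU_delta {α β : Type} [DecidableEq α] [DecidableEq β] (e : α ≃ β) (a : α) :
    permU e (delta a) = delta (e a) := by
  ext b
  rw [permU_apply]
  unfold delta
  rw [lp.single_apply, lp.single_apply, Pi.single_apply, Pi.single_apply]
  by_cases h : b = e a
  · subst h; simp
  · have h' : e.symm b ≠ a := by
      intro h2; apply h; rw [← h2]; simp
    simp [h, h']

/-- `permU` as an operator on `ℓ²(α)`. -/
noncomputable def permOp {α : Type} (e : α ≃ α) : L2 α →L[ℂ] L2 α :=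
  (permU e).toContinuousLinearEquiv.toContinuousLinearMap

theorem permOp_apply {α : Type} (e : α ≃ α) (f : L2 α) (b : α) :
    (permOp e f : α → ℂ) b = (f : α → ℂ) (e.symm b) := rfl

theorem permOp_star {α : Type} (e : α ≃ α) : star (permOp e) = permOp e.symm := by
  rw [ContinuousLinearMap.star_eq_adjoint]
  symm
  rw [ContinuousLinearMap.eq_adjoint_iff]
  intro x y
  have h := (permU e).inner_map_map (permU e.symm x) y
  have h2 : permU e (permU e.symm x) = x := by
    rw [← permU_symm]; simp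
  rw [h2] at h
  exact h.symm

theorem permOp_mul {α : Type} (e f : α ≃ α) : permOp e * permOp f = permOp (f.trans e) := by
  ext x b
  rfl

theorem permOp_one {α : Type} : permOp (Equiv.refl α) = 1 := by
  ext x b
  rfl

theorem permOp_delta {α : Type} [DecidableEq α] (e : α ≃ α) (a : α) :
    permOp e (delta a) = delta (e a) := permU_delta e a

/-- left translation on `ℓ²(G)` -/
noncomputable def lam {G : Type} [Group G] (g : G) : L2 G →L[ℂ] L2 G := permOp (Equiv.mulLeft g)

/-- right translation on `ℓ²(G)` -/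
noncomputable def rho {G : Type} [Group G] (g : G) : L2 G →L[ℂ] L2 G := permOp (Equiv.mulRight g)

/-- the group von Neumann algebra `L(G)`: all operators on `ℓ²(G)` commuting with the right
translations -/
noncomputable def LG (G : Type) [Group G] : VonNeumannAlgebra (L2 G) := vnOf (Set.range rho)

/-- Finite subgroups `F i` of order `(n i)^4` of a group `G` with ping-pong sets `S i`. -/
structure PingPong {G : Type} [Group G] {ι : Type} (n : ι → ℕ) (F : ι → Finset G)
    (S : ι → Set G) : Prop where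
  one_mem : ∀ i, 1 ∈ F i
  mul_mem : ∀ i, ∀ x ∈ F i, ∀ y ∈ F i, x * y ∈ F i
  inv_mem : ∀ i, ∀ x ∈ F i, x⁻¹ ∈ F i
  card : ∀ i, (F i).card = n i ^ 4
  pos : ∀ i, 1 ≤ n i
  disj : ∀ i j, i ≠ j → Disjoint (S i) (S j)
  one_notMem : ∀ i, (1 : G) ∉ S i
  pp : ∀ i, ∀ k ∈ F i, k ≠ 1 → ∀ w, w ∉ S i → k * w ∈ S i

/-- the projection in `L(G)` given by a finite subgroup -/
noncomputable def proj {G : Type} [Group G] (F : Finset G) : L2 G →L[ℂ] L2 G :=
  (F.card : ℂ)⁻¹ • ∑ k ∈ F, lam k

end Pool.Agent.Helper86.NC
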