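import Mathlib
import Pool.Agent.Helper86.NC.LGDefs

set_option autoImplicit false

set_option linter.unusedSectionVars false

open scoped ENNReal NNReal InnerProductSpace Topology

open Filter

namespace Pool.Agent.Helper86.NC

theorem inner_deltaF {α : Type} [DecidableEq α] (a b : α) :
    ⟪delta a, delta b⟫_ℂ = if a = b then (1 : ℂ) else 0 := by
  unfold delta
  rw [lp.inner_single_left, lp.single_apply, Pi.single_apply]
  by_cases h : a = b
  · simp [h]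
  · simp [h]

theorem norm_sq_sum {α X : Type} [DecidableEq α] (M : Finset X) (f : X → α) (c : X → ℂ)
    (hf : ∀ x ∈ M, ∀ y ∈ M, f x = f y → x = y) :
    ‖∑ x ∈ M, c x • delta (f x)‖ ^ 2 = ∑ x ∈ M, ‖c x‖ ^ 2 := by
  classical
  have h1 : ((‖∑ x ∈ M, c x • delta (f x)‖ ^ 2 : ℝ) : ℂ) =
      ⟪∑ x ∈ M, c x • delta (f x), ∑ x ∈ M, c x • delta (f x)⟫_ℂ := by
    rw [inner_self_eq_norm_sq_to_K]
    push_cast
    rfl
  have h2 : ⟪∑ x ∈ M, c x • delta (f x), ∑ x ∈ M, c x • delta (f x)⟫_ℂ =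
      ((∑ x ∈ M, ‖c x‖ ^ 2 : ℝ) : ℂ) := by
    rw [sum_inner]
    push_cast
    refine Finset.sum_congr rfl fun x hx => ?_
    rw [inner_sum, Finset.sum_eq_single x]
    · rw [inner_smul_left, inner_smul_right, inner_deltaF, if_pos rfl, mul_one]
      exact Complex.conj_mul' (c x)
    · intro y hy hyx
      rw [inner_smul_left, inner_smul_right, inner_deltaF, if_neg (fun h => hyx (hf x hx y hy h).symm)]
      ring
    · intro h; exact absurd hx h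
  rw [h2] at h1
  exact_mod_cast h1

section pp

variable {G : Type} [Group G] [DecidableEq G] {ι : Type} [DecidableEq ι] {n : ι → ℕ}
  {F : ι → Finset G} {S : ι → Set G}

theorem lam_one : (lam (1 : G)) = 1 := by
  unfold lam
  rw [Equiv.mulLeft_one]
  exact permOp_one

theorem lam_star (g : G) : star (lam g) = lam g⁻¹ := by
  unfold lam
  rw [permOp_star, Equiv.mulLeft_symm]

theorem lam_delta (g a : G) : lam g (delta a) = delta (g * a) := by
  unfold lam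
  rw [permOp_delta]
  rfl

theorem PingPong.mem_S (h : PingPong n F S) {i : ι} {k : G} (hk : k ∈ F i) (hk1 : k ≠ 1) :
    k ∈ S i := by
  have := h.pp i k hk hk1 1 (h.one_notMem i)
  rwa [mul_one] at this

theorem PingPong.eq_of_S (h : PingPong n F S) {i j : ι} {g : G} (hi : g ∈ S i) (hj : g ∈ S j) :
    i = j := by
  by_contra hij
  exact Set.disjoint_left.mp (h.disj i j hij) hi hj

theorem PingPong.inter (h : PingPong n F S) {i j : ι} {k : G} (hi : k ∈ F i) (hj : k ∈ F j)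
    (hk : k ≠ 1) : i = j :=
  h.eq_of_S (h.mem_S hi hk) (h.mem_S hj hk)

theorem PingPong.mixed (h : PingPong n F S) {i j : ι} {a c : G} (hij : i ≠ j) (ha : a ∈ F i)
    (ha1 : a ≠ 1) (hc : c ∈ F j) (hc1 : c ≠ 1) : a⁻¹ * c ∈ S i := by
  apply h.pp i a⁻¹ (h.inv_mem i a ha) (inv_ne_one.mpr ha1)
  intro hci
  exact hij (h.eq_of_S hci (h.mem_S hc hc1))

theorem PingPong.mixed_notMem (h : PingPong n F S) {i j k : ι} {a c : G} (hij : i ≠ j)
    (ha : a ∈ F i) (ha1 : a ≠ 1) (hc : c ∈ F j) (hc1 : c ≠ 1) : a⁻¹ * c ∉ F k := by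
  intro hd
  by_cases h1 : a⁻¹ * c = 1
  · have : c = a := by
      rw [inv_mul_eq_one] at h1; exact h1.symm
    subst this
    exact hij (h.inter ha hc hc1)
  · have hki := h.eq_of_S (h.mem_S hd h1) (h.mixed hij ha ha1 hc hc1)
    subst hki
    have : c ∈ F k := by
      have := h.mul_mem k a ha _ hd
      rwa [mul_inv_cancel_left] at this
    exact hij (h.inter this hc hc1)

theorem PingPong.mixed_inj (h : PingPong n F S) {i j i' j' : ι} {a c a' c' : G} (hij : i ≠ j)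
    (ha : a ∈ F i) (ha1 : a ≠ 1) (hc : c ∈ F j) (hc1 : c ≠ 1) (hij' : i' ≠ j')
    (ha' : a' ∈ F i') (ha1' : a' ≠ 1) (hc' : c' ∈ F j') (hc1' : c' ≠ 1)
    (he : a⁻¹ * c = a'⁻¹ * c') : i = i' ∧ a = a' ∧ j = j' ∧ c = c' := by
  have hii : i = i' := h.eq_of_S (h.mixed hij ha ha1 hc hc1)
    (he ▸ h.mixed hij' ha' ha1' hc' hc1')
  subst hii
  have he2 : c' = a' * a⁻¹ * c := by
    rw [mul_assoc, he, mul_inv_cancel_left]
  have haa : a' * a⁻¹ = 1 := by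
    by_contra hne
    have hcS : c ∉ S i := fun hh => hij (h.eq_of_S hh (h.mem_S hc hc1))
    have h2 := h.pp i (a' * a⁻¹) (h.mul_mem i _ ha' _ (h.inv_mem i _ ha)) hne c hcS
    rw [← he2] at h2
    exact hij' (h.eq_of_S h2 (h.mem_S hc' hc1'))
  have hcc : c' = c := by rw [he2, haa, one_mul]
  subst hcc
  refine ⟨rfl, ?_, h.inter hc hc' hc1, rfl⟩
  rw [mul_inv_eq_one] at haa
  exact haa.symm

/-- coefficients -/
noncomputable def beta (n : ι → ℕ) (b : ι → ℂ) (i : ι) : ℂ := b i * n i * ((n i : ℂ) ^ 4)⁻¹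

/-- letters -/
def letters (F : ι → Finset G) (T : Finset ι) : Finset (Σ _ : ι, G) :=
  T.sigma fun i => (F i).erase 1

theorem mem_letters {T : Finset ι} {p : Σ _ : ι, G} :
    p ∈ letters F T ↔ p.1 ∈ T ∧ p.2 ∈ F p.1 ∧ p.2 ≠ 1 := by
  unfold letters
  rw [Finset.mem_sigma, Finset.mem_erase]
  tauto

theorem phi_eq (h : PingPong n F S) (b : ι → ℂ) (T : Finset ι) :
    (∑ i ∈ T, (b i * n i) • (proj (F i) - (((n i : ℂ) ^ 4)⁻¹) • (1 : L2 G →L[ℂ] L2 G))) =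
      ∑ p ∈ letters F T, beta n b p.1 • lam p.2 := by
  unfold letters
  rw [Finset.sum_sigma]
  refine Finset.sum_congr rfl fun i _ => ?_
  show _ = ∑ s ∈ (F i).erase 1, beta n b i • lam s
  rw [← Finset.smul_sum]
  unfold proj beta
  rw [h.card i, ← Finset.add_sum_erase _ _ (h.one_mem i), lam_one, smul_add]
  push_cast
  rw [add_sub_cancel_left, smul_smul]

theorem same_sum (h : PingPong n F S) (i : ι) :
    ∑ a ∈ (F i).erase 1, ∑ c ∈ (F i).erase 1, delta (a⁻¹ * c) =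
      ((n i : ℂ) ^ 4 - 1) • delta (1 : G) + ((n i : ℂ) ^ 4 - 2) • ∑ g ∈ (F i).erase 1, delta g := by
  have hcard : ((F i).erase 1).card = n i ^ 4 - 1 := by
    rw [Finset.card_erase_of_mem (h.one_mem i), h.card i]
  have hpos : 1 ≤ n i ^ 4 := Nat.one_le_pow _ _ (h.pos i)
  have h1 : ∀ a ∈ (F i).erase 1, ∑ c ∈ (F i).erase 1, delta (a⁻¹ * c) =
      ∑ g ∈ F i, delta g - delta a⁻¹ := by
    intro a ha
    have ha' := (Finset.mem_erase.mp ha).2
    rw [eq_sub_iff_add_eq, add_comm]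
    have h2 := Finset.add_sum_erase (F i) (fun c => delta (a⁻¹ * c)) (h.one_mem i)
    simp only [mul_one] at h2
    rw [h2]
    refine Finset.sum_bij (fun c _ => a⁻¹ * c) ?_ ?_ ?_ ?_
    · intro c hc; exact h.mul_mem i _ (h.inv_mem i _ ha') _ hc
    · intro c _ c' _ hcc; exact mul_left_cancel hcc
    · intro g hg
      exact ⟨a * g, h.mul_mem i _ ha' _ hg, inv_mul_cancel_left a g⟩
    · intro c _; rfl
  rw [Finset.sum_congr rfl h1, Finset.sum_sub_distrib, Finset.sum_const, hcard]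
  have h3 : ∑ a ∈ (F i).erase 1, delta a⁻¹ = ∑ g ∈ (F i).erase 1, delta g := by
    refine Finset.sum_bij (fun a _ => a⁻¹) ?_ ?_ ?_ ?_
    · intro a ha
      have := Finset.mem_erase.mp ha
      exact Finset.mem_erase.mpr ⟨inv_ne_one.mpr this.1, h.inv_mem i _ this.2⟩
    · intro a _ a' _ haa; exact inv_injective haa
    · intro g hg
      have := Finset.mem_erase.mp hg
      exact ⟨g⁻¹, Finset.mem_erase.mpr ⟨inv_ne_one.mpr this.1, h.inv_mem i _ this.2⟩, inv_inv g⟩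
    · intro a _; rfl
  rw [h3, ← Finset.add_sum_erase _ _ (h.one_mem i), ← Nat.cast_smul_eq_nsmul ℂ, Nat.cast_sub hpos]
  push_cast
  module

theorem vec_eq (h : PingPong n F S) (b : ι → ℂ) (T : Finset ι) :
    (star (∑ p ∈ letters F T, beta n b p.1 • lam p.2) *
      (∑ p ∈ letters F T, beta n b p.1 • lam p.2)) (delta (1 : G)) =
    ∑ x ∈ (letters F T ×ˢ letters F T).filter (fun x => x.1.1 ≠ x.2.1),
      ((starRingEnd ℂ) (beta n b x.1.1) * beta n b x.2.1) • delta (x.1.2⁻¹ * x.2.2) +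
    (∑ p ∈ letters F T, (((‖beta n b p.1‖ ^ 2 : ℝ) : ℂ) * ((n p.1 : ℂ) ^ 4 - 2)) • delta p.2 +
    (∑ i ∈ T, ((‖beta n b i‖ ^ 2 : ℝ) : ℂ) * ((n i : ℂ) ^ 4 - 1)) • delta (1 : G)) := by
  classical
  set B := beta n b with hB
  set H : (Σ _ : ι, G) × (Σ _ : ι, G) → L2 G := fun x =>
    ((starRingEnd ℂ) (B x.1.1) * B x.2.1) • delta (x.1.2⁻¹ * x.2.2) with hH
  have h1 : (star (∑ p ∈ letters F T, B p.1 • lam p.2) *
      (∑ p ∈ letters F T, B p.1 • lam p.2)) (delta (1 : G)) =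
      ∑ x ∈ letters F T ×ˢ letters F T, H x := by
    rw [Finset.sum_product, mul_apply_eq_comp, star_sum,
      sum_apply, sum_apply]
    refine Finset.sum_congr rfl fun p _ => ?_
    rw [map_sum]
    refine Finset.sum_congr rfl fun q _ => ?_
    rw [star_smul, lam_star, smul_apply, smul_apply,
      map_smul, lam_delta, lam_delta, mul_one, smul_smul]
    rfl
  have h2 : ∑ x ∈ (letters F T ×ˢ letters F T).filter (fun x => ¬ x.1.1 ≠ x.2.1), H x =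
      ∑ i ∈ T, ((‖B i‖ ^ 2 : ℝ) : ℂ) • ∑ a ∈ (F i).erase 1, ∑ c ∈ (F i).erase 1,
        delta (a⁻¹ * c) := by
    rw [Finset.sum_filter, Finset.sum_product]
    unfold letters
    rw [Finset.sum_sigma]
    refine Finset.sum_congr rfl fun i hi => ?_
    rw [Finset.smul_sum]
    refine Finset.sum_congr rfl fun a _ => ?_
    rw [Finset.sum_sigma, Finset.sum_eq_single i, Finset.smul_sum]
    · refine Finset.sum_congr rfl fun c _ => ?_
      rw [if_pos (by simp)]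
      show ((starRingEnd ℂ) (B i) * B i) • delta (a⁻¹ * c) = _
      rw [Complex.conj_mul']
      push_cast
      rfl
    · intro j _ hji
      refine Finset.sum_eq_zero fun c _ => ?_
      rw [if_neg]
      intro hh
      exact hh (fun e => hji e.symm)
    · intro hh; exact absurd hi hh
  rw [h1, ← Finset.sum_filter_add_sum_filter_not _ (fun x => x.1.1 ≠ x.2.1), h2]
  congr 1
  rw [Finset.sum_congr rfl (fun i _ => by rw [same_sum h i])]
  unfold letters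
  rw [Finset.sum_sigma, Finset.sum_smul, ← Finset.sum_add_distrib]
  refine Finset.sum_congr rfl fun i _ => ?_
  rw [smul_add, smul_smul, smul_smul, add_comm, Finset.smul_sum]

theorem beta_sq (h : PingPong n F S) (b : ι → ℂ) (i : ι) :
    ‖beta n b i‖ ^ 2 * (n i : ℝ) ^ 4 = ‖b i‖ ^ 2 / (n i : ℝ) ^ 2 := by
  have hn : (n i : ℝ) ≠ 0 := by
    have := h.pos i
    exact_mod_cast Nat.one_le_iff_ne_zero.mp this
  unfold beta
  rw [norm_mul, norm_mul, norm_inv, norm_pow, Complex.norm_natCast]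
  field_simp

theorem proj_F4 (h : PingPong n F S) (b : ι → ℂ) (T : Finset ι) :
    N4 (delta (1 : G)) (∑ i ∈ T, (b i * n i) • (proj (F i) - (((n i : ℂ) ^ 4)⁻¹) • 1)) ^ 4 ≤
      ∑ i ∈ T, ‖b i‖ ^ 4 + 2 * (∑ i ∈ T, ‖b i‖ ^ 2 / (n i : ℝ) ^ 2) ^ 2 := by
  classical
  rw [phi_eq h b T]
  unfold N4
  have hs4 : ∀ x : ℝ, 0 ≤ x → (√x) ^ 4 = x ^ 2 := by
    intro x hx
    calc (√x) ^ 4 = ((√x) ^ 2) ^ 2 := by ring
      _ = x ^ 2 := by rw [Real.sq_sqrt hx]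
  rw [hs4 _ (norm_nonneg _), vec_eq h b T]
  set B := beta n b with hB
  set Λ := letters F T with hΛ
  set M1 := (Λ ×ˢ Λ).filter (fun x => x.1.1 ≠ x.2.1) with hM1
  set K : ℂ := ∑ i ∈ T, ((‖B i‖ ^ 2 : ℝ) : ℂ) * ((n i : ℂ) ^ 4 - 1) with hK
  -- one orthogonal family
  set f : ((Σ _ : ι, G) × (Σ _ : ι, G)) ⊕ ((Σ _ : ι, G) ⊕ Unit) → G :=
    Sum.elim (fun x => x.1.2⁻¹ * x.2.2) (Sum.elim (fun p => p.2) (fun _ => 1)) with hf
  set c : ((Σ _ : ι, G) × (Σ _ : ι, G)) ⊕ ((Σ _ : ι, G) ⊕ Unit) → ℂ :=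
    Sum.elim (fun x => (starRingEnd ℂ) (B x.1.1) * B x.2.1)
      (Sum.elim (fun p => ((‖B p.1‖ ^ 2 : ℝ) : ℂ) * ((n p.1 : ℂ) ^ 4 - 2)) (fun _ => K)) with hc
  set M := M1.disjSum (Λ.disjSum ({()} : Finset Unit)) with hM
  have hsum : ∑ x ∈ M1, ((starRingEnd ℂ) (B x.1.1) * B x.2.1) • delta (x.1.2⁻¹ * x.2.2) +
      (∑ p ∈ Λ, (((‖B p.1‖ ^ 2 : ℝ) : ℂ) * ((n p.1 : ℂ) ^ 4 - 2)) • delta p.2 +
        K • delta (1 : G)) = ∑ x ∈ M, c x • delta (f x) := by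
    rw [hM, Finset.sum_disjSum, Finset.sum_disjSum, Finset.sum_singleton]
    rfl
  have hinj : ∀ x ∈ M, ∀ y ∈ M, f x = f y → x = y := by
    have hL : ∀ p ∈ Λ, p.2 ∈ F p.1 ∧ p.2 ≠ 1 := fun p hp => (mem_letters.mp hp).2
    have hMx : ∀ x ∈ M1, x.1.1 ≠ x.2.1 ∧ (x.1.2 ∈ F x.1.1 ∧ x.1.2 ≠ 1) ∧
        (x.2.2 ∈ F x.2.1 ∧ x.2.2 ≠ 1) := by
      intro x hx
      rw [hM1, Finset.mem_filter, Finset.mem_product] at hx
      exact ⟨hx.2, hL _ hx.1.1, hL _ hx.1.2⟩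
    have hnot : ∀ x ∈ M1, ∀ k, x.1.2⁻¹ * x.2.2 ∉ F k := by
      intro x hx k
      obtain ⟨h1, ⟨h2, h3⟩, h4, h5⟩ := hMx x hx
      exact h.mixed_notMem h1 h2 h3 h4 h5
    rintro (x | p | u) hx (y | q | w) hy hxy
    · rw [hM, Finset.inl_mem_disjSum] at hx hy
      obtain ⟨h1, ⟨h2, h3⟩, h4, h5⟩ := hMx x hx
      obtain ⟨h1', ⟨h2', h3'⟩, h4', h5'⟩ := hMx y hy
      obtain ⟨e1, e2, e3, e4⟩ := h.mixed_inj h1 h2 h3 h4 h5 h1' h2' h3' h4' h5' hxy
      obtain ⟨⟨i, a⟩, ⟨j, c⟩⟩ := x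
      obtain ⟨⟨i', a'⟩, ⟨j', c'⟩⟩ := y
      simp only at e1 e2 e3 e4
      subst e1 e2 e3 e4
      rfl
    · rw [hM, Finset.inl_mem_disjSum] at hx
      rw [hM, Finset.inr_mem_disjSum, Finset.inl_mem_disjSum] at hy
      exfalso
      apply hnot x hx q.1
      have : x.1.2⁻¹ * x.2.2 = q.2 := hxy
      rw [this]
      exact (hL q hy).1
    · rw [hM, Finset.inl_mem_disjSum] at hx
      exfalso
      obtain ⟨h1, ⟨h2, h3⟩, h4, h5⟩ := hMx x hx
      apply hnot x hx x.1.1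
      have : x.1.2⁻¹ * x.2.2 = 1 := hxy
      rw [this]
      exact h.one_mem _
    · rw [hM, Finset.inl_mem_disjSum] at hy
      rw [hM, Finset.inr_mem_disjSum, Finset.inl_mem_disjSum] at hx
      exfalso
      apply hnot y hy p.1
      have : p.2 = y.1.2⁻¹ * y.2.2 := hxy
      rw [← this]
      exact (hL p hx).1
    · rw [hM, Finset.inr_mem_disjSum, Finset.inl_mem_disjSum] at hx hy
      have e : p.2 = q.2 := hxy
      have hp := hL p hx
      have hq := hL q hy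
      have e2 : p.1 = q.1 := h.inter hp.1 (by rw [e]; exact hq.1) hp.2
      obtain ⟨i, a⟩ := p
      obtain ⟨j, c⟩ := q
      simp only at e e2
      subst e e2
      rfl
    · rw [hM, Finset.inr_mem_disjSum, Finset.inl_mem_disjSum] at hx
      exfalso
      exact (hL p hx).2 hxy
    · rw [hM, Finset.inl_mem_disjSum] at hy
      exfalso
      apply hnot y hy y.1.1
      have : 1 = y.1.2⁻¹ * y.2.2 := hxy
      rw [← this]
      exact h.one_mem _
    · rw [hM, Finset.inr_mem_disjSum, Finset.inl_mem_disjSum] at hy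
      exfalso
      exact (hL q hy).2 hxy.symm
    · rfl
  rw [hsum, norm_sq_sum M f c hinj, hM, Finset.sum_disjSum, Finset.sum_disjSum,
    Finset.sum_singleton]
  -- bounds
  have hn1 : ∀ i, (1 : ℝ) ≤ (n i : ℝ) ^ 4 := by
    intro i
    have : (1 : ℝ) ≤ (n i : ℝ) := by exact_mod_cast h.pos i
    exact one_le_pow₀ this
  have hcard : ∀ i, (((F i).erase 1).card : ℝ) = (n i : ℝ) ^ 4 - 1 := by
    intro i
    rw [Finset.card_erase_of_mem (h.one_mem i), h.card i,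
      Nat.cast_sub (Nat.one_le_pow _ _ (h.pos i))]
    push_cast
    rfl
  set R : ℝ := ∑ i ∈ T, ‖b i‖ ^ 2 / (n i : ℝ) ^ 2 with hR
  have hΛsum : ∑ p ∈ Λ, ‖B p.1‖ ^ 2 ≤ R := by
    rw [hΛ]
    unfold letters
    rw [Finset.sum_sigma, hR]
    refine Finset.sum_le_sum fun i _ => ?_
    show ∑ s ∈ (F i).erase 1, ‖B i‖ ^ 2 ≤ _
    rw [Finset.sum_const, nsmul_eq_mul, hcard i, ← beta_sq h b i]
    have := sq_nonneg ‖B i‖
    nlinarith
  have hΛ0 : 0 ≤ ∑ p ∈ Λ, ‖B p.1‖ ^ 2 := Finset.sum_nonneg fun p _ => sq_nonneg _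
  have hR0 : 0 ≤ R := hΛ0.trans hΛsum
  have b1 : ∑ x ∈ M1, ‖c (Sum.inl x)‖ ^ 2 ≤ R ^ 2 := by
    calc ∑ x ∈ M1, ‖c (Sum.inl x)‖ ^ 2 ≤ ∑ x ∈ Λ ×ˢ Λ, ‖c (Sum.inl x)‖ ^ 2 :=
          Finset.sum_le_sum_of_subset_of_nonneg (Finset.filter_subset _ _)
            (fun _ _ _ => sq_nonneg _)
      _ = (∑ p ∈ Λ, ‖B p.1‖ ^ 2) * (∑ p ∈ Λ, ‖B p.1‖ ^ 2) := by
          rw [Finset.sum_mul_sum, Finset.sum_product]
          refine Finset.sum_congr rfl fun p _ => Finset.sum_congr rfl fun q _ => ?_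
          show ‖(starRingEnd ℂ) (B p.1) * B q.1‖ ^ 2 = _
          rw [norm_mul, RCLike.norm_conj, mul_pow]
      _ ≤ R * R := mul_le_mul hΛsum hΛsum hΛ0 hR0
      _ = R ^ 2 := by ring
  have b2 : ∑ p ∈ Λ, ‖c (Sum.inr (Sum.inl p))‖ ^ 2 ≤ ∑ i ∈ T, ‖b i‖ ^ 4 := by
    rw [hΛ]
    unfold letters
    rw [Finset.sum_sigma]
    refine Finset.sum_le_sum fun i _ => ?_
    have e1 : ∀ a : G, ‖c (Sum.inr (Sum.inl ⟨i, a⟩))‖ ^ 2 =
        (‖B i‖ ^ 2 * |(n i : ℝ) ^ 4 - 2|) ^ 2 := by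
      intro a
      show ‖((‖B i‖ ^ 2 : ℝ) : ℂ) * ((n i : ℂ) ^ 4 - 2)‖ ^ 2 = _
      have : ((n i : ℂ) ^ 4 - 2) = (((n i : ℝ) ^ 4 - 2 : ℝ) : ℂ) := by push_cast; rfl
      rw [this, norm_mul, Complex.norm_real, Complex.norm_real, Real.norm_eq_abs,
        Real.norm_eq_abs, abs_of_nonneg (sq_nonneg ‖B i‖)]
    simp_rw [e1]
    rw [Finset.sum_const, nsmul_eq_mul, hcard i, mul_pow, sq_abs]
    have hN := hn1 i
    set N : ℝ := (n i : ℝ) ^ 4 with hNdef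
    have hb4 : (‖B i‖ ^ 2) ^ 2 * N ^ 3 = ‖b i‖ ^ 4 := by
      have h1 := beta_sq h b i
      have hn : (n i : ℝ) ≠ 0 := by
        have := h.pos i
        exact_mod_cast Nat.one_le_iff_ne_zero.mp this
      have h2 : (‖B i‖ ^ 2 * N) ^ 2 * N = (‖b i‖ ^ 2 / (n i : ℝ) ^ 2) ^ 2 * N := by
        rw [h1]
      calc (‖B i‖ ^ 2) ^ 2 * N ^ 3 = (‖B i‖ ^ 2 * N) ^ 2 * N := by ring
        _ = (‖b i‖ ^ 2 / (n i : ℝ) ^ 2) ^ 2 * N := h2
        _ = ‖b i‖ ^ 4 := by rw [hNdef]; field_simp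
    rw [← hb4]
    have h3 : (N - 1) * (N - 2) ^ 2 ≤ N ^ 3 := by nlinarith [mul_nonneg (by linarith : (0:ℝ) ≤ N) (by linarith : (0:ℝ) ≤ N - 1)]
    have h4 : 0 ≤ (‖B i‖ ^ 2) ^ 2 := sq_nonneg _
    nlinarith
  have b3 : ‖c (Sum.inr (Sum.inr ()))‖ ^ 2 ≤ R ^ 2 := by
    have e1 : c (Sum.inr (Sum.inr ())) = ((∑ p ∈ Λ, ‖B p.1‖ ^ 2 : ℝ) : ℂ) := by
      show K = _
      rw [hK, hΛ]
      unfold letters
      rw [Finset.sum_sigma]
      push_cast
      refine Finset.sum_congr rfl fun i _ => ?_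
      rw [Finset.sum_const, nsmul_eq_mul, mul_comm]
      congr 1
      have := hcard i
      have h2 : ((((F i).erase 1).card : ℝ) : ℂ) = (((n i : ℝ) ^ 4 - 1 : ℝ) : ℂ) := by rw [this]
      push_cast at h2
      exact h2.symm
    rw [e1, Complex.norm_real, Real.norm_eq_abs, abs_of_nonneg hΛ0]
    gcongr
  linarith

end pp

end Pool.Agent.Helper86.NC
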