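import Mathlib
import Pool.Agent.Helper86.NC.LGDefs

set_option autoImplicit false

open scoped ENNReal NNReal InnerProductSpace Topology

open Filter

namespace Pool.Agent.Helper86.NC

section pp

variable {G : Type} [Group G] [DecidableEq G] {ι : Type} [DecidableEq ι] {n : ι → ℕ}
  {F : ι → Finset G} {S : ι → Set G}

end pp

/-- the factors -/
abbrev ppM (i : ℕ × ℕ) : Type := Multiplicative (ZMod (16 ^ (i.1 + 1)))

instance ppNe (k : ℕ) : NeZero (16 ^ k) := ⟨by positivity⟩

/-- the free product -/
abbrev ppG : Type := Monoid.CoprodI ppM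

/-- endomorphism of the free product given by a map of indices -/
noncomputable def ppPhi (f : ℕ → ℕ) : ppG →* ppG :=
  Monoid.CoprodI.lift (fun i : ℕ × ℕ => (Monoid.CoprodI.of (M := ppM) (i := (i.1, f i.2)) : ppM (i.1, f i.2) →* ppG))

theorem ppPhi_of (f : ℕ → ℕ) (i : ℕ × ℕ) (x : ppM i) :
    ppPhi f (Monoid.CoprodI.of x) = Monoid.CoprodI.of (M := ppM) (i := (i.1, f i.2)) x := by
  unfold ppPhi
  rw [Monoid.CoprodI.lift_of]

theorem ppPhi_comp (f g : ℕ → ℕ) : (ppPhi f).comp (ppPhi g) = ppPhi (fun u => f (g u)) := by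
  apply Monoid.CoprodI.ext_hom
  intro i
  refine MonoidHom.ext fun x => ?_
  show ppPhi f (ppPhi g (Monoid.CoprodI.of x)) = ppPhi (fun u => f (g u)) (Monoid.CoprodI.of x)
  rw [ppPhi_of, ppPhi_of, ppPhi_of]

theorem ppPhi_id : ppPhi (fun u => u) = MonoidHom.id ppG := by
  apply Monoid.CoprodI.ext_hom
  intro i
  refine MonoidHom.ext fun x => ?_
  show ppPhi (fun u => u) (Monoid.CoprodI.of x) = Monoid.CoprodI.of x
  rw [ppPhi_of]

theorem ppPhi_iter (f : ℕ → ℕ) (m : ℕ) (g : ppG) : (ppPhi f)^[m] g = ppPhi (f^[m]) g := by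
  induction m generalizing g with
  | zero =>
    show g = ppPhi (fun u => u) g
    rw [ppPhi_id]; rfl
  | succ m ih =>
    rw [Function.iterate_succ_apply', ih]
    have h := DFunLike.congr_fun (ppPhi_comp f (f^[m])) g
    rw [MonoidHom.comp_apply] at h
    rw [h]
    congr 2
    funext u
    rw [Function.iterate_succ_apply']

theorem pp_rot_iter (m : ℕ) (k u : ℕ) (hu : u < m) :
    (fun u => if u < m then (u + 1) % m else u)^[k] u = (u + k) % m := by
  induction k with
  | zero => simp [Nat.mod_eq_of_lt hu]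
  | succ k ih =>
    rw [Function.iterate_succ_apply', ih]
    have h : (u + k) % m < m := Nat.mod_lt _ (by omega)
    simp only [h, if_true]
    rw [Nat.mod_add_mod, add_assoc]

theorem pp_rot_iter_self (m : ℕ) (u : ℕ) :
    (fun u => if u < m then (u + 1) % m else u)^[m] u = u := by
  by_cases hu : u < m
  · rw [pp_rot_iter m m u hu, Nat.add_mod_right, Nat.mod_eq_of_lt hu]
  · have h : ∀ k, (fun u => if u < m then (u + 1) % m else u)^[k] u = u := by
      intro k
      induction k with
      | zero => rfl
      | succ k ih => rw [Function.iterate_succ_apply', ih]; simp [hu]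
    exact h m

open Classical in
/-- existence of the free product with its ping-pong structure and symmetries -/
theorem exists_pingpong : ∃ (G : Type) (_ : Group G) (F : ℕ × ℕ → Finset G)
    (S : ℕ × ℕ → Set G), PingPong (fun i : ℕ × ℕ => 2 ^ (i.1 + 1)) F S ∧
      ∀ m : ℕ, 1 ≤ m → ∃ σ : G ≃* G, (∀ g, σ^[m] g = g) ∧
        ∀ s u : ℕ, u < m → ∀ g, g ∈ F (s, u) → σ g ∈ F (s, (u + 1) % m) := by
  refine ⟨ppG, inferInstance, fun i => Finset.univ.image (fun x : ppM i => (Monoid.CoprodI.of x : ppG)),
    fun i => {g | (Monoid.CoprodI.Word.equiv g).fstIdx = some i}, ?_, ?_⟩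
  · refine ⟨?_, ?_, ?_, ?_, ?_, ?_, ?_, ?_⟩
    · intro i
      rw [Finset.mem_image]
      exact ⟨1, Finset.mem_univ _, map_one _⟩
    · intro i x hx y hy
      rw [Finset.mem_image] at hx hy ⊢
      obtain ⟨a, _, rfl⟩ := hx
      obtain ⟨b, _, rfl⟩ := hy
      exact ⟨a * b, Finset.mem_univ _, map_mul _ _ _⟩
    · intro i x hx
      rw [Finset.mem_image] at hx ⊢
      obtain ⟨a, _, rfl⟩ := hx
      exact ⟨a⁻¹, Finset.mem_univ _, map_inv _ _⟩
    · intro i
      rw [Finset.card_image_of_injective _ (Monoid.CoprodI.of_injective i), Finset.card_univ]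
      have : Fintype.card (ppM i) = 16 ^ (i.1 + 1) := by
        show Fintype.card (Multiplicative (ZMod (16 ^ (i.1 + 1)))) = _
        rw [Fintype.card_multiplicative, ZMod.card]
      rw [this, ← pow_mul, show (16 : ℕ) = 2 ^ 4 by norm_num, ← pow_mul]
      congr 1
      ring
    · intro i
      exact Nat.one_le_two_pow
    · intro i j hij
      rw [Set.disjoint_left]
      intro g h1 h2
      have h1' : (Monoid.CoprodI.Word.equiv g).fstIdx = some i := h1
      have h2' : (Monoid.CoprodI.Word.equiv g).fstIdx = some j := h2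
      rw [h1'] at h2'
      exact hij (Option.some_injective _ h2')
    · intro i h
      have h' : (Monoid.CoprodI.Word.equiv (1 : ppG)).fstIdx = some i := h
      have h1 : Monoid.CoprodI.Word.equiv (1 : ppG) = Monoid.CoprodI.Word.empty := by
        show (1 : ppG) • (Monoid.CoprodI.Word.empty : Monoid.CoprodI.Word ppM) = _
        rw [one_smul]
      rw [h1] at h'
      exact absurd h' (by simp [Monoid.CoprodI.Word.fstIdx, Monoid.CoprodI.Word.empty])
    · intro i k hk hk1 w hw
      rw [Finset.mem_image] at hk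
      obtain ⟨a, _, rfl⟩ := hk
      have ha : a ≠ 1 := by
        rintro rfl
        exact hk1 (map_one _)
      have hw' : (Monoid.CoprodI.Word.equiv w).fstIdx ≠ some i := hw
      show (Monoid.CoprodI.Word.equiv (Monoid.CoprodI.of a * w)).fstIdx = some i
      have h1 : Monoid.CoprodI.Word.equiv (Monoid.CoprodI.of a * w) =
          (Monoid.CoprodI.of a : ppG) • Monoid.CoprodI.Word.equiv w := by
        show (Monoid.CoprodI.of a * w : ppG) • (Monoid.CoprodI.Word.empty : Monoid.CoprodI.Word ppM) = _
        rw [mul_smul]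
        rfl
      rw [h1, ← Monoid.CoprodI.Word.cons_eq_smul (h1 := hw') (h2 := ha)]
      simp
  · intro m hm
    set f : ℕ → ℕ := fun u => if u < m then (u + 1) % m else u with hf
    have hid : ∀ g, (ppPhi f)^[m] g = g := by
      intro g
      rw [ppPhi_iter]
      have : f^[m] = fun u => u := by
        funext u
        exact pp_rot_iter_self m u
      rw [this, ppPhi_id]
      rfl
    obtain ⟨k, rfl⟩ : ∃ k, m = k + 1 := ⟨m - 1, by omega⟩
    have hbij : Function.Bijective (ppPhi f) := by
      constructor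
      · intro a b hab
        have h1 := hid a
        have h2 := hid b
        rw [Function.iterate_succ_apply] at h1 h2
        rw [← h1, ← h2, hab]
      · intro g
        refine ⟨(ppPhi f)^[k] g, ?_⟩
        have h1 := hid g
        rw [Function.iterate_succ_apply'] at h1
        exact h1
    refine ⟨MulEquiv.ofBijective (ppPhi f) hbij, ?_, ?_⟩
    · intro g
      exact hid g
    · intro s u hu g hg
      rw [Finset.mem_image] at hg
      obtain ⟨x, _, rfl⟩ := hg
      have h1 : ppPhi f (Monoid.CoprodI.of x) ∈ Finset.univ.image (fun x : ppM (s, f u) => (Monoid.CoprodI.of x : ppG)) := by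
        rw [ppPhi_of, Finset.mem_image]
        exact ⟨x, Finset.mem_univ _, rfl⟩
      have h2 : f u = (u + 1) % (k + 1) := by
        simp only [hf, if_pos hu]
      rw [h2] at h1
      exact h1

end Pool.Agent.Helper86.NC
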