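import Mathlib
import Pool.Agent.Helper86.NC.LGDefs

set_option autoImplicit false

open scoped ENNReal NNReal InnerProductSpace Topology

open Filter

namespace Pool.Agent.Helper86.NC

theorem rho_star {G : Type} [Group G] (g : G) : star (rho g) = rho g⁻¹ := by
  unfold rho
  rw [permOp_star]
  congr 1
  ext k
  simp

theorem rho_apply {G : Type} [Group G] (g : G) (f : L2 G) (k : G) :
    (rho g f : G → ℂ) k = (f : G → ℂ) (k * g⁻¹) := rfl

theorem lam_apply {G : Type} [Group G] (g : G) (f : L2 G) (k : G) :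
    (lam g f : G → ℂ) k = (f : G → ℂ) (g⁻¹ * k) := rfl

theorem mem_LG {G : Type} [Group G] (x : L2 G →L[ℂ] L2 G) :
    x ∈ LG G ↔ ∀ g : G, rho g * x = x * rho g := by
  unfold LG
  rw [mem_vnOf]
  constructor
  · intro h g
    exact (h _ ⟨g, rfl⟩).1
  · rintro h _ ⟨g, rfl⟩
    refine ⟨h g, ?_⟩
    rw [rho_star]
    exact h g⁻¹

theorem lam_mem_LG {G : Type} [Group G] (g : G) : lam g ∈ LG G := by
  rw [mem_LG]
  intro h
  ext f k
  change (rho h (lam g f) : G → ℂ) k = (lam g (rho h f) : G → ℂ) k
  rw [rho_apply, lam_apply, lam_apply, rho_apply, mul_assoc]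

theorem inner_delta {G : Type} [DecidableEq G] (g : G) (f : L2 G) :
    ⟪delta g, f⟫_ℂ = (f : G → ℂ) g := by
  unfold delta
  rw [lp.inner_single_left]
  simp

theorem apply_delta {G : Type} [Group G] [DecidableEq G] {x : L2 G →L[ℂ] L2 G} (hx : x ∈ LG G)
    (h k : G) : (x (delta h) : G → ℂ) k = (x (delta 1) : G → ℂ) (k * h⁻¹) := by
  have h1 : rho h (delta (1 : G)) = delta h := by
    unfold rho
    rw [permOp_delta]
    simp
  have h2 := (mem_LG x).1 hx h
  have h3 : x (delta h) = rho h (x (delta 1)) := by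
    rw [← h1]
    exact (DFunLike.congr_fun h2 (delta 1)).symm
  rw [h3, rho_apply]

theorem LG_tracial {G : Type} [Group G] [DecidableEq G] :
    IsTracialVector (LG G) (delta (1 : G)) := by
  have key : ∀ x ∈ LG G, ∀ y ∈ LG G, ⟪delta (1 : G), (x * y) (delta 1)⟫_ℂ =
      ∑' g : G, (x (delta 1) : G → ℂ) g⁻¹ * (y (delta 1) : G → ℂ) g := by
    intro x hx y _
    have h1 : ⟪delta (1 : G), (x * y) (delta 1)⟫_ℂ = ⟪star x (delta 1), y (delta 1)⟫_ℂ := by
      rw [ContinuousLinearMap.star_eq_adjoint, ContinuousLinearMap.adjoint_inner_left]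
      rfl
    rw [h1, lp.inner_eq_tsum]
    congr 1
    funext g
    have h2 : (x (delta 1) : G → ℂ) g⁻¹ = ⟪star x (delta 1), delta g⟫_ℂ := by
      have h4 : (x (delta g) : G → ℂ) 1 = (x (delta 1) : G → ℂ) g⁻¹ := by
        rw [apply_delta hx g 1, one_mul]
      rw [ContinuousLinearMap.star_eq_adjoint, ContinuousLinearMap.adjoint_inner_left,
        inner_delta, h4]
    have h3 : ⟪star x (delta 1), delta g⟫_ℂ = (starRingEnd ℂ) ((star x (delta 1) : L2 G) g) := by
      rw [← inner_conj_symm, inner_delta]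
    rw [h2, h3]
    rw [RCLike.inner_apply, mul_comm]
  refine ⟨?_, ?_, ?_⟩
  · unfold delta
    rw [lp.norm_single (by norm_num)]
    simp
  · intro x hx y hy
    rw [key x hx y hy, key y hy x hx, ← (Equiv.inv G).tsum_eq]
    congr 1
    funext g
    simp [mul_comm]
  · intro x hx h
    have h1 : ⟪x (delta (1 : G)), x (delta 1)⟫_ℂ = 0 := by
      rw [ContinuousLinearMap.star_eq_adjoint] at h
      have h2 : ⟪delta (1 : G), (ContinuousLinearMap.adjoint x * x) (delta 1)⟫_ℂ =
          ⟪x (delta (1 : G)), x (delta 1)⟫_ℂ := by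
        rw [← ContinuousLinearMap.adjoint_inner_right]
        rfl
      rw [← h2]; exact h
    have h3 : x (delta (1 : G)) = 0 := inner_self_eq_zero.mp h1
    have h4 : ∀ g : G, x (delta g) = 0 := by
      intro g
      ext k
      rw [apply_delta hx, h3]
      rfl
    ext1 f
    have h5 := (lp.hasSum_single (E := fun _ : G => ℂ) (p := 2) (by norm_num) f).mapL x
    have h6 : ∀ g : G, x (lp.single 2 g ((f : G → ℂ) g)) = 0 := by
      intro g
      have : (lp.single 2 g ((f : G → ℂ) g) : L2 G) = ((f : G → ℂ) g) • delta g := by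
        unfold delta
        rw [← lp.single_smul]
        simp
      rw [this, map_smul, h4, smul_zero]
    simp only [h6] at h5
    exact h5.unique hasSum_zero

/-- conjugation of `L(G)` by the unitary of an automorphism of `G` -/
theorem LG_conj {G : Type} [Group G] (σ : G ≃* G) (x : L2 G →L[ℂ] L2 G) (hx : x ∈ LG G) :
    permOp σ.toEquiv * x * permOp σ.symm.toEquiv ∈ LG G := by
  rw [mem_LG] at hx ⊢
  intro g
  have e1 : rho g * permOp σ.toEquiv = permOp σ.toEquiv * rho (σ.symm g) := by
    unfold rho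
    rw [permOp_mul, permOp_mul]
    congr 1
    ext k
    simp
  have e2 : rho (σ.symm g) * permOp σ.symm.toEquiv = permOp σ.symm.toEquiv * rho g := by
    unfold rho
    rw [permOp_mul, permOp_mul]
    congr 1
    ext k
    simp
  calc rho g * (permOp σ.toEquiv * x * permOp σ.symm.toEquiv)
      = (rho g * permOp σ.toEquiv) * x * permOp σ.symm.toEquiv := by simp only [mul_assoc]
    _ = permOp σ.toEquiv * (rho (σ.symm g) * x) * permOp σ.symm.toEquiv := by
        rw [e1]; simp only [mul_assoc]
    _ = permOp σ.toEquiv * x * (rho (σ.symm g) * permOp σ.symm.toEquiv) := by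
        rw [hx]; simp only [mul_assoc]
    _ = permOp σ.toEquiv * x * permOp σ.symm.toEquiv * rho g := by
        rw [e2]; simp only [mul_assoc]

theorem lam_conj {G : Type} [Group G] (σ : G ≃* G) (g : G) :
    permOp σ.toEquiv * lam g * permOp σ.symm.toEquiv = lam (σ g) := by
  unfold lam
  rw [permOp_mul, permOp_mul]
  congr 1
  ext k
  simp

section pp

variable {G : Type} [Group G] [DecidableEq G] {ι : Type} [DecidableEq ι] {n : ι → ℕ}
  {F : ι → Finset G} {S : ι → Set G}

end pp

end Pool.Agent.Helper86.NC
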