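import Mathlib
import Pool.Agent.Helper86.NC.LGBasic

set_option autoImplicit false

open scoped ENNReal NNReal InnerProductSpace Topology

open Filter

namespace Pool.Agent.Helper86.NC

section pp

variable {G : Type} [Group G] [DecidableEq G] {ι : Type} [DecidableEq ι] {n : ι → ℕ}
  {F : ι → Finset G} {S : ι → Set G}

theorem lam_mul {G : Type} [Group G] (g h : G) : lam g * lam h = lam (g * h) := by
  unfold lam
  rw [permOp_mul]
  congr 1
  ext x
  simp

theorem lam_star {G : Type} [Group G] (g : G) : star (lam g) = lam g⁻¹ := by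
  unfold lam
  rw [permOp_star]
  congr 1
  ext x
  simp

theorem delta_apply {G : Type} [DecidableEq G] (a b : G) :
    (delta a : G → ℂ) b = if b = a then 1 else 0 := by
  unfold delta
  rw [lp.single_apply, Pi.single_apply]

theorem tau_lam {G : Type} [Group G] [DecidableEq G] (g : G) :
    tau (delta (1 : G)) (lam g) = if g = 1 then 1 else 0 := by
  unfold tau lam
  rw [permOp_delta]
  unfold delta
  rw [lp.inner_single_left]
  change ⟪(1 : ℂ), (delta (g * 1) : G → ℂ) 1⟫_ℂ = _
  rw [delta_apply, mul_one]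
  by_cases hg : g = 1
  · subst hg; simp
  · rw [if_neg hg, if_neg (fun h => hg h.symm)]; simp

theorem tau_add {G : Type} (Ω : L2 G) (x y : L2 G →L[ℂ] L2 G) :
    tau Ω (x + y) = tau Ω x + tau Ω y := by
  unfold tau; rw [ContinuousLinearMap.add_apply, inner_add_right]

theorem tau_smul {G : Type} (Ω : L2 G) (c : ℂ) (x : L2 G →L[ℂ] L2 G) :
    tau Ω (c • x) = c * tau Ω x := by
  unfold tau; rw [ContinuousLinearMap.smul_apply, inner_smul_right]

theorem tau_sum {G : Type} (Ω : L2 G) {κ : Type} (s : Finset κ) (f : κ → L2 G →L[ℂ] L2 G) :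
    tau Ω (∑ k ∈ s, f k) = ∑ k ∈ s, tau Ω (f k) := by
  unfold tau; rw [ContinuousLinearMap.sum_apply, inner_sum]

theorem proj_mem (_h : PingPong n F S) (i : ι) : proj (F i) ∈ LG G := by
  unfold proj
  rw [mem_LG]
  intro g
  rw [mul_smul_comm, smul_mul_assoc, Finset.mul_sum, Finset.sum_mul]
  congr 1
  apply Finset.sum_congr rfl
  intro k _
  exact (mem_LG (lam k)).1 (lam_mem_LG k) g

theorem proj_star (h : PingPong n F S) (i : ι) : star (proj (F i)) = proj (F i) := by
  unfold proj
  rw [star_smul, star_sum]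
  have h1 : star ((F i).card : ℂ)⁻¹ = ((F i).card : ℂ)⁻¹ := by
    simp
  rw [h1]
  congr 1
  simp_rw [lam_star]
  refine Finset.sum_bij' (fun k _ => k⁻¹) (fun k _ => k⁻¹) (fun k hk => h.inv_mem i k hk)
    (fun k hk => h.inv_mem i k hk) ?_ ?_ ?_
  · intro k _; simp
  · intro k _; simp
  · intro k _; rfl

theorem card_ne (h : PingPong n F S) (i : ι) : ((F i).card : ℂ) ≠ 0 := by
  have h1 := h.one_mem i
  have : (F i).card ≠ 0 := Finset.card_ne_zero_of_mem h1
  exact_mod_cast this

theorem proj_idem (h : PingPong n F S) (i : ι) : proj (F i) * proj (F i) = proj (F i) := by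
  have key : ∀ k ∈ F i, lam k * ∑ l ∈ F i, lam l = ∑ l ∈ F i, (lam l : L2 G →L[ℂ] L2 G) := by
    intro k hk
    rw [Finset.mul_sum]
    simp_rw [lam_mul]
    refine Finset.sum_bij' (fun l _ => k * l) (fun l _ => k⁻¹ * l)
      (fun l hl => h.mul_mem i k hk l hl)
      (fun l hl => h.mul_mem i _ (h.inv_mem i k hk) l hl) ?_ ?_ ?_
    · intro l _; simp
    · intro l _; simp
    · intro l _; rfl
  unfold proj
  rw [smul_mul_smul_comm, Finset.sum_mul, Finset.sum_congr rfl key, Finset.sum_const,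
    ← Nat.cast_smul_eq_nsmul ℂ, smul_smul]
  congr 1
  have := card_ne h i
  field_simp

theorem proj_tau (h : PingPong n F S) (i : ι) :
    tau (delta (1 : G)) (proj (F i)) = ((n i : ℂ) ^ 4)⁻¹ := by
  unfold proj
  rw [tau_smul, tau_sum]
  simp_rw [tau_lam]
  rw [Finset.sum_ite_eq' (F i) (1 : G) (fun _ => (1 : ℂ)), if_pos (h.one_mem i), h.card i]
  push_cast
  rw [mul_one]

theorem proj_orth (h : PingPong n F S) (i j : ι) (hij : i ≠ j) :
    tau (delta (1 : G)) (proj (F i) * proj (F j)) = ((n i : ℂ) ^ 4)⁻¹ * ((n j : ℂ) ^ 4)⁻¹ := by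
  have inter : ∀ k ∈ F i, ∀ l ∈ F j, k * l = 1 → k = 1 ∧ l = 1 := by
    intro k hk l hl hkl
    have hl' : l = k⁻¹ := eq_inv_of_mul_eq_one_right hkl
    by_cases hk1 : k = 1
    · subst hk1; simp at hl'; exact ⟨rfl, hl'⟩
    · exfalso
      have a1 := h.pp i k hk hk1 1 (h.one_notMem i)
      have hkj : k ∈ F j := by
        have : k = l⁻¹ := by rw [hl']; simp
        rw [this]; exact h.inv_mem j l hl
      have a2 := h.pp j k hkj hk1 1 (h.one_notMem j)
      exact (Set.disjoint_left.1 (h.disj i j hij)) a1 a2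
  unfold proj
  rw [smul_mul_smul_comm, tau_smul, Finset.sum_mul, tau_sum]
  simp_rw [Finset.mul_sum, tau_sum, lam_mul, tau_lam]
  have hs : ∑ k ∈ F i, ∑ l ∈ F j, (if k * l = 1 then (1 : ℂ) else 0) = 1 := by
    rw [Finset.sum_eq_single_of_mem (1 : G) (h.one_mem i)]
    · rw [Finset.sum_eq_single_of_mem (1 : G) (h.one_mem j)]
      · simp
      · intro l _ hl1; rw [one_mul, if_neg hl1]
    · intro k hk hk1
      apply Finset.sum_eq_zero
      intro l hl
      rw [if_neg]
      intro hkl
      exact hk1 (inter k hk l hl hkl).1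
  rw [← Finset.mul_sum, hs, h.card i, h.card j]
  push_cast
  rw [mul_one]

end pp

end Pool.Agent.Helper86.NC
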