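import Mathlib
import Pool.Agent.Helper86.NC.Proj

set_option autoImplicit false

open scoped ENNReal NNReal InnerProductSpace Topology

open Filter

namespace Pool.Agent.Helper86.NC

section pp

variable {G : Type} [Group G] [DecidableEq G] {ι : Type} [DecidableEq ι] {n : ι → ℕ}
  {F : ι → Finset G} {S : ι → Set G}

theorem h170_sumsq {α : Type} (f : L2 α) : Summable (fun x => ‖(f : α → ℂ) x‖ ^ 2) := by
  have h := (memℓp_gen_iff (by norm_num : 0 < (2 : ℝ≥0∞).toReal)).1 (lp.memℓp f)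
  refine h.congr (fun x => ?_)
  simp

theorem h170_normsq {α : Type} (f : L2 α) : ‖f‖ ^ 2 = ∑' x, ‖(f : α → ℂ) x‖ ^ 2 := by
  have h := lp.norm_rpow_eq_tsum (by norm_num : 0 < (2 : ℝ≥0∞).toReal) f
  simpa using h

/-- restriction to a set -/
noncomputable def h170R {α : Type} (S : Set α) (f : L2 α) : L2 α :=
  ⟨S.indicator (fun x => (f : α → ℂ) x), by
    have h := lp.memℓp f
    refine memℓp_gen ?_
    have h2 := h170_sumsq f
    have : Summable (fun x => ‖(f : α → ℂ) x‖ ^ (2 : ℝ≥0∞).toReal) := by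
      refine h2.congr (fun x => ?_)
      simp
    refine Summable.of_nonneg_of_le (fun x => by positivity) (fun x => ?_) this
    refine Real.rpow_le_rpow (norm_nonneg _) ?_ (by norm_num)
    by_cases hx : x ∈ S
    · simp [Set.indicator_of_mem hx]
    · simp [Set.indicator_of_notMem hx]⟩

theorem h170R_apply {α : Type} (S : Set α) (f : L2 α) (x : α) :
    (h170R S f : α → ℂ) x = S.indicator (fun x => (f : α → ℂ) x) x := rfl

theorem h170R_add {α : Type} (S : Set α) (f : L2 α) :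
    h170R S f + h170R Sᶜ f = f := by
  ext x
  rw [lp.coeFn_add, Pi.add_apply, h170R_apply, h170R_apply]
  exact congrFun (Set.indicator_self_add_compl S (fun x => (f : α → ℂ) x)) x

theorem h170R_nsq {α : Type} (S : Set α) (f : L2 α) :
    ‖h170R S f‖ ^ 2 = ∑' x, S.indicator (fun x => ‖(f : α → ℂ) x‖ ^ 2) x := by
  rw [h170_normsq]
  refine tsum_congr (fun x => ?_)
  rw [h170R_apply]
  by_cases hx : x ∈ S
  · simp [Set.indicator_of_mem hx]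
  · simp [Set.indicator_of_notMem hx]

theorem h170R_pyth {α : Type} (S : Set α) (f : L2 α) :
    ‖h170R S f‖ ^ 2 + ‖h170R Sᶜ f‖ ^ 2 = ‖f‖ ^ 2 := by
  rw [h170R_nsq, h170R_nsq, h170_normsq, ← Summable.tsum_add
    ((h170_sumsq f).indicator S) ((h170_sumsq f).indicator Sᶜ)]
  refine tsum_congr (fun x => ?_)
  exact congrFun (Set.indicator_self_add_compl S (fun x => ‖(f : α → ℂ) x‖ ^ 2)) x

theorem h170R_sum {α ι : Type} [DecidableEq ι] (S : ι → Set α) (hS : ∀ i j, i ≠ j → Disjoint (S i) (S j))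
    (f : L2 α) (T : Finset ι) :
    ∑ i ∈ T, ‖h170R (S i) f‖ ^ 2 ≤ ‖f‖ ^ 2 := by
  simp_rw [h170R_nsq]
  rw [h170_normsq, ← Summable.tsum_finsetSum (fun i _ => (h170_sumsq f).indicator (S i))]
  refine Summable.tsum_le_tsum (fun x => ?_) (summable_sum (fun i _ => (h170_sumsq f).indicator (S i)))
    (h170_sumsq f)
  by_cases hx : ∃ i ∈ T, x ∈ S i
  · obtain ⟨i, hi, hxi⟩ := hx
    rw [Finset.sum_eq_single_of_mem i hi]
    · rw [Set.indicator_of_mem hxi]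
    · intro j _ hj
      refine Set.indicator_of_notMem (fun hxj => ?_) _
      exact Set.disjoint_left.1 (hS j i hj) hxj hxi
  · push Not at hx
    rw [Finset.sum_eq_zero (fun i hi => Set.indicator_of_notMem (hx i hi) _)]
    positivity

theorem h170_lam_apply {G : Type} [Group G] (g : G) (f : L2 G) (x : G) :
    (lam g f : G → ℂ) x = (f : G → ℂ) (g⁻¹ * x) := rfl

theorem h170_inner_lam (h : PingPong n F S) (i : ι) (k : G) (hk : k ∈ F i) (hk1 : k ≠ 1)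
    (ξ : L2 G) : ⟪h170R (S i)ᶜ ξ, lam k (h170R (S i)ᶜ ξ)⟫_ℂ = 0 := by
  rw [lp.inner_eq_tsum]
  have : ∀ x : G, ⟪(h170R (S i)ᶜ ξ : G → ℂ) x, (lam k (h170R (S i)ᶜ ξ) : G → ℂ) x⟫_ℂ = 0 := by
    intro x
    by_cases hx : x ∈ S i
    · rw [h170R_apply, Set.indicator_of_notMem (by simpa using hx)]
      simp
    · have h2 : k⁻¹ * x ∈ S i := by
        refine h.pp i k⁻¹ (h.inv_mem i k hk) ?_ x hx
        simpa using hk1
      rw [h170_lam_apply, h170R_apply (S i)ᶜ ξ (k⁻¹ * x), Set.indicator_of_notMem (by simpa using h2)]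
      simp
  simp_rw [this]
  exact tsum_zero

theorem h170_inner_P (h : PingPong n F S) (i : ι) (ξ : L2 G) :
    ⟪h170R (S i)ᶜ ξ, proj (F i) (h170R (S i)ᶜ ξ)⟫_ℂ =
      ((n i : ℂ) ^ 4)⁻¹ * ((‖h170R (S i)ᶜ ξ‖ : ℝ) : ℂ) ^ 2 := by
  unfold proj
  rw [ContinuousLinearMap.smul_apply, inner_smul_right, ContinuousLinearMap.sum_apply, inner_sum,
    Finset.sum_eq_single_of_mem 1 (h.one_mem i)]
  · have h1 : lam (1:G) (h170R (S i)ᶜ ξ) = h170R (S i)ᶜ ξ := by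
      ext x
      rw [h170_lam_apply]
      simp
    rw [h1, inner_self_eq_norm_sq_to_K, h.card i]
    norm_cast
  · intro k hk hk1
    exact h170_inner_lam h i k hk hk1 ξ

theorem h170_P_sq (h : PingPong n F S) (i : ι) (ξ : L2 G) :
    (⟪ξ, proj (F i) ξ⟫_ℂ).re = ‖proj (F i) ξ‖ ^ 2 := by
  have h1 : ⟪ξ, proj (F i) ξ⟫_ℂ = ⟪proj (F i) ξ, proj (F i) ξ⟫_ℂ := by
    conv_lhs => rw [← proj_idem h i]
    rw [ContinuousLinearMap.mul_apply, ← ContinuousLinearMap.adjoint_inner_left,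
      ← ContinuousLinearMap.star_eq_adjoint, proj_star h i]
  rw [h1, inner_self_eq_norm_sq_to_K]
  norm_cast

theorem h170_P_le (h : PingPong n F S) (i : ι) (ξ : L2 G) :
    ‖proj (F i) ξ‖ ≤ ‖ξ‖ := by
  have h1 := h170_P_sq h i ξ
  have h2 : (⟪ξ, proj (F i) ξ⟫_ℂ).re ≤ ‖ξ‖ * ‖proj (F i) ξ‖ :=
    (Complex.re_le_norm _).trans (norm_inner_le_norm _ _)
  rw [h1] at h2
  by_contra hc
  push Not at hc
  nlinarith [norm_nonneg ξ, norm_nonneg (proj (F i) ξ)]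

theorem h170_key (h : PingPong n F S) (i : ι) (ξ : L2 G) (hξ : ‖ξ‖ = 1) :
    ∃ q s t : ℝ, q = ‖h170R (S i) ξ‖ ∧ 0 ≤ q ∧ q ≤ 1 ∧ 0 < s ∧ s ≤ 1 ∧
      s ^ 2 = ((n i : ℝ) ^ 4)⁻¹ ∧ t = (⟪ξ, proj (F i) ξ⟫_ℂ).re ∧
      s ^ 2 - t ≤ 3 * s * q ∧ t - s ^ 2 ≤ 3 * q := by
  set a := h170R (S i) ξ with ha
  set b := h170R (S i)ᶜ ξ with hb
  set P := proj (F i) with hP
  have hn : (1:ℝ) ≤ (n i : ℝ) := by exact_mod_cast h.pos i
  have hn2 : (1:ℝ) ≤ (n i : ℝ) ^ 2 := one_le_pow₀ hn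
  have hpy : ‖a‖ ^ 2 + ‖b‖ ^ 2 = 1 := by
    rw [ha, hb, h170R_pyth, hξ]; norm_num
  have hab : a + b = ξ := h170R_add (S i) ξ
  set s : ℝ := ((n i : ℝ) ^ 2)⁻¹ with hs
  have hs0 : 0 < s := by positivity
  have hs1 : s ≤ 1 := inv_le_one_of_one_le₀ hn2
  have hs2 : s ^ 2 = ((n i : ℝ) ^ 4)⁻¹ := by
    rw [hs, inv_pow]; congr 1; ring
  have hPb : ‖P b‖ ^ 2 = s ^ 2 * ‖b‖ ^ 2 := by
    rw [← h170_P_sq h i b, hb, h170_inner_P h i ξ, hs2]
    have h9 : ((n i : ℂ) ^ 4)⁻¹ * ((‖h170R (S i)ᶜ ξ‖ : ℝ) : ℂ) ^ 2 =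
        ((((n i : ℝ) ^ 4)⁻¹ * ‖h170R (S i)ᶜ ξ‖ ^ 2 : ℝ) : ℂ) := by
      push_cast; ring
    rw [h9, Complex.ofReal_re]
  have hPb' : ‖P b‖ = s * ‖b‖ := by
    have : ‖P b‖ ^ 2 = (s * ‖b‖) ^ 2 := by rw [hPb]; ring
    exact (pow_left_inj₀ (norm_nonneg _) (by positivity) (by norm_num)).1 this
  have hPa : ‖P a‖ ≤ ‖a‖ := h170_P_le h i a
  have ha0 := norm_nonneg a
  have hb0 := norm_nonneg b
  have hPa0 := norm_nonneg (P a)
  have ha1 : ‖a‖ ≤ 1 := by nlinarith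
  have hb1 : ‖b‖ ≤ 1 := by nlinarith
  have ht : (⟪ξ, P ξ⟫_ℂ).re = ‖P a + P b‖ ^ 2 := by
    rw [h170_P_sq h i ξ, ← hab, map_add]
  have hup : ‖P a + P b‖ ≤ ‖a‖ + s * ‖b‖ := by
    refine (norm_add_le _ _).trans ?_
    rw [hPb']
    linarith
  have hlow : s * ‖b‖ - ‖P a + P b‖ ≤ ‖a‖ := by
    have h1 : ‖P b‖ ≤ ‖P a + P b‖ + ‖P a‖ := by
      calc ‖P b‖ = ‖(P a + P b) - P a‖ := by congr 1; abel
        _ ≤ _ := norm_sub_le _ _
    rw [hPb'] at h1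
    linarith
  have hX0 := norm_nonneg (P a + P b)
  refine ⟨‖a‖, s, (⟪ξ, P ξ⟫_ℂ).re, rfl, ha0, ha1, hs0, hs1, hs2, rfl, ?_, ?_⟩
  · rw [ht]
    set X := ‖P a + P b‖
    set q := ‖a‖
    set B := ‖b‖
    -- s^2 - X^2 ≤ 3 s q;  X ≥ s B - q;  B^2 = 1 - q^2
    have hX2 : s ^ 2 * B ^ 2 - 2 * s * q ≤ X ^ 2 := by
      by_cases hc : s * B - q ≤ 0
      · have h1 : s * B ≤ q := by linarith
        have h2 : s ^ 2 * B ^ 2 ≤ s * q := by
          have : s ^ 2 * B ^ 2 = (s * B) * (s * B) := by ring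
          rw [this]
          have h3 : s * B ≤ s := by nlinarith
          have h4 : 0 ≤ s * B := by positivity
          exact mul_le_mul h3 h1 h4 hs0.le
        have : 0 ≤ s * q := by positivity
        nlinarith [sq_nonneg X]
      · push Not at hc
        have h1 : s * B - q ≤ X := by linarith
        have h2 : (s * B - q) ^ 2 ≤ X ^ 2 := pow_le_pow_left₀ hc.le h1 2
        have h3 : s * B * q ≤ s * q := by
          have : s * B ≤ s := by nlinarith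
          exact mul_le_mul_of_nonneg_right this ha0
        nlinarith [sq_nonneg q]
    have hB2 : B ^ 2 = 1 - q ^ 2 := by linarith
    rw [hB2] at hX2
    have h5 : s ^ 2 * q ^ 2 ≤ s * q := by
      have h6 : s * q ≤ 1 := by nlinarith
      have h7 : 0 ≤ s * q := by positivity
      calc s ^ 2 * q ^ 2 = (s * q) * (s * q) := by ring
        _ ≤ 1 * (s * q) := mul_le_mul_of_nonneg_right h6 h7
        _ = s * q := one_mul _
    nlinarith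
  · rw [ht]
    set X := ‖P a + P b‖
    set q := ‖a‖
    set B := ‖b‖
    have h1 : X ^ 2 ≤ (q + s * B) ^ 2 := pow_le_pow_left₀ hX0 hup 2
    have h2 : s * B ≤ 1 := by nlinarith
    have h3 : s ^ 2 * B ^ 2 ≤ s ^ 2 := by
      have : B ^ 2 ≤ 1 := by nlinarith
      nlinarith [sq_nonneg s]
    have h4 : q * (s * B) ≤ q := by nlinarith
    have h5 : q ^ 2 ≤ q := by nlinarith
    nlinarith

theorem proj_star1 (h : PingPong n F S) (ξ : L2 G) (hξ : ‖ξ‖ = 1) (T : Finset ι) :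
    ∑ i ∈ T, (n i : ℝ) ^ 4 * (max 0 (((n i : ℝ) ^ 4)⁻¹ - (⟪ξ, proj (F i) ξ⟫_ℂ).re)) ^ 2 ≤ 9 := by
  have hsum := h170R_sum S h.disj ξ T
  rw [hξ] at hsum
  have : ∀ i ∈ T, (n i : ℝ) ^ 4 * (max 0 (((n i : ℝ) ^ 4)⁻¹ - (⟪ξ, proj (F i) ξ⟫_ℂ).re)) ^ 2 ≤
      9 * ‖h170R (S i) ξ‖ ^ 2 := by
    intro i _
    obtain ⟨q, s, t, hq, hq0, hq1, hs0, hs1, hs2, ht, h1, h2⟩ := h170_key h i ξ hξ
    rw [← ht, ← hq, ← hs2]
    have h3 : max 0 (s ^ 2 - t) ≤ 3 * s * q := max_le (by positivity) h1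
    have h4 : (max 0 (s ^ 2 - t)) ^ 2 ≤ (3 * s * q) ^ 2 :=
      pow_le_pow_left₀ (le_max_left _ _) h3 2
    have h5 : (n i : ℝ) ^ 4 * s ^ 2 = 1 := by
      rw [hs2]
      have : (n i : ℝ) ≠ 0 := by
        have := h.pos i
        positivity
      field_simp
    calc (n i : ℝ) ^ 4 * (max 0 (s ^ 2 - t)) ^ 2 ≤ (n i : ℝ) ^ 4 * (3 * s * q) ^ 2 := by
          exact mul_le_mul_of_nonneg_left h4 (by positivity)
      _ = 9 * ((n i : ℝ) ^ 4 * s ^ 2) * q ^ 2 := by ring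
      _ = 9 * q ^ 2 := by rw [h5]; ring
  calc _ ≤ ∑ i ∈ T, 9 * ‖h170R (S i) ξ‖ ^ 2 := Finset.sum_le_sum this
    _ = 9 * ∑ i ∈ T, ‖h170R (S i) ξ‖ ^ 2 := by rw [Finset.mul_sum]
    _ ≤ 9 := by linarith

theorem proj_star2 (h : PingPong n F S) (ξ : L2 G) (hξ : ‖ξ‖ = 1) (T : Finset ι) :
    ∑ i ∈ T, ((⟪ξ, proj (F i) ξ⟫_ℂ).re - ((n i : ℝ) ^ 4)⁻¹) ^ 2 ≤ 9 := by
  have hsum := h170R_sum S h.disj ξ T
  rw [hξ] at hsum
  have : ∀ i ∈ T, ((⟪ξ, proj (F i) ξ⟫_ℂ).re - ((n i : ℝ) ^ 4)⁻¹) ^ 2 ≤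
      9 * ‖h170R (S i) ξ‖ ^ 2 := by
    intro i _
    obtain ⟨q, s, t, hq, hq0, hq1, hs0, hs1, hs2, ht, h1, h2⟩ := h170_key h i ξ hξ
    rw [← ht, ← hq, ← hs2]
    have h3 : s ^ 2 - t ≤ 3 * q := by nlinarith
    have h4 : |t - s ^ 2| ≤ 3 * q := abs_le.2 ⟨by linarith, h2⟩
    have h5 : (t - s ^ 2) ^ 2 ≤ (3 * q) ^ 2 := by
      rw [← sq_abs]
      exact pow_le_pow_left₀ (abs_nonneg _) h4 2
    linarith
  calc _ ≤ ∑ i ∈ T, 9 * ‖h170R (S i) ξ‖ ^ 2 := Finset.sum_le_sum this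
    _ = 9 * ∑ i ∈ T, ‖h170R (S i) ξ‖ ^ 2 := by rw [Finset.mul_sum]
    _ ≤ 9 := by linarith

end pp

end Pool.Agent.Helper86.NC
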